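import Pool.Agent.Lib.Tate.R.R3.Ax2
import Pool.Agent.Lib.Tate.T2.Cls
import Pool.Agent.Lib.Tate.WAll

/-!
# C42 (MP_071d69_gt), block R3 (helper47): the final deduction
-/

set_option linter.unusedSectionVars false

open Topology unitInterval Filter Set
open scoped Topology.Homotopy

noncomputable section

namespace Pool.Agent.Tate.R3

open CSRS T2

section F4

variable [Fact (SS WS)]

/-- `inc Gam` is a product with `inc bet`. -/
theorem incGam_homotopic : GenLoop.Homotopic (inc Gam : WS.cp.L PG A3)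
    (lrho eP eL (CSRS.prod (inc bet) (inc (cm0 K3 (WS.unit (Unit ⊕ Fin 2)))))) := by
  have h := Gam_class
  rw [hmul_mk, rho_mk, cls_eq] at h
  have h2 := inc_homotopic h
  rwa [inc_lrho, inc_prod] at h2

/-- (F4) -/
theorem inI_T3 (bb : WS.cp.L (Unit ⊕ Fin 2) Unit) :
    InI (Ideal.span {StR.c (inc bet)}) (CSRS.prod (inc Gam) bb) := by
  have h1 : IsC (inc bet : WS.cp.L PB LB) (StR.c (inc bet)) := isC_self (inc bet)
  have c1 : Fintype.card (Fin 3) = Fintype.card ((Empty × Fin 3) ⊕ (Unit ⊕ Fin 2)) := by simp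
  have c2 : Fintype.card (Unit ⊕ Fin 2) = Fintype.card (Empty ⊕ (Unit ⊕ Fin 2)) := by simp
  have h2 := isC_lrho_self (Fintype.equivOfCardEq c1) (Fintype.equivOfCardEq c2)
    (inc (cm0 K3 (WS.unit (Unit ⊕ Fin 2))))
  have c3 : Fintype.card (Unit ⊕ Fin 2) = Fintype.card ((Unit × Fin 3) ⊕ Empty) := by simp
  have c4 : Fintype.card Unit = Fintype.card (Unit ⊕ Empty) := by simp
  have h3 := isC_lrho_self (Fintype.equivOfCardEq c3) (Fintype.equivOfCardEq c4) bb
  have h4 : InI (Ideal.span {StR.c (inc bet)}) (inc Gam : WS.cp.L PG A3) := by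
    have h5 : InI (Ideal.span {StR.c (inc bet)})
        (CSRS.prod (inc bet) (inc (cm0 K3 (WS.unit (Unit ⊕ Fin 2))))) :=
      InI.prod_left ⟨_, Ideal.mem_span_singleton_self _, h1⟩ h2
    exact ((InI.lrho_iff eP eL).2 h5).homotopic (incGam_homotopic.symm)
  exact h4.prod_left h3

end F4

section F5

variable [Fact (SS WS)]

/-- (F5) -/
theorem final (T1 T2' g : FS N4 (WS.cp.pt B4)) (bb : WS.cp.L (Unit ⊕ Fin 2) Unit)
    (h : T2.cls T1 = T2.cls g * T2.cls (T3 bb) * T2.cls T2')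
    (h1 : IsC (tp T1) 1) (h2 : GenLoop.Homotopic (tp T2') GenLoop.const)
    (h4 : InI (Ideal.span {2}) (tp g)) :
    ∃ u v : StR WS, 1 = StR.c (inc bet) * u + 2 * v := by
  set eP' : Pt Unit (Unit ⊕ Fin 2) ≃ (Fin 2 × Fin 3) ⊕ D4 := Equiv.sumAssoc _ _ _ with heP
  have hT := congrArg (tpHom (U := Unit) (V := Unit ⊕ Fin 2) (X := WS.cp.X B4)) h
  rw [_root_.map_mul, _root_.map_mul] at hT
  have hT' : (T2.cls (tp T1) : WS.cp.P _ B4) =
      T2.cls (tp g) * T2.cls (tp (T3 bb)) * T2.cls (tp T2') := hT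
  rw [cls_eq.2 h2, ← cls_one, _root_.mul_one] at hT'
  -- the class of the relabelled loops
  have hc : StR.c (lrho eP' bD.symm (tp T1)) =
      StR.c (lrho eP' bD.symm (tp g)) + StR.c (lrho eP' bD.symm (tp (T3 bb))) := by
    show cl (T2.rho eP' bD.symm (T2.cls (tp T1))) = cl (T2.rho eP' bD.symm (T2.cls (tp g))) +
      cl (T2.rho eP' bD.symm (T2.cls (tp (T3 bb))))
    rw [hT', rho_mul, cl_mul']
  have m3 : StR.c (lrho eP' bD.symm (tp (T3 bb))) ∈ Ideal.span {StR.c (inc bet)} := by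
    rw [tp_T3]
    exact (inI_T3 bb).c_mem eP' bD.symm
  have m4 : StR.c (lrho eP' bD.symm (tp g)) ∈ Ideal.span {(2 : StR WS)} := h4.c_mem eP' bD.symm
  obtain ⟨u, hu⟩ := Ideal.mem_span_singleton'.1 m3
  obtain ⟨v, hv⟩ := Ideal.mem_span_singleton'.1 m4
  rcases h1.c_eq eP' bD.symm with h5 | h5
  · refine ⟨u, v, ?_⟩
    rw [← h5, hc, ← hu, ← hv]
    ring
  · refine ⟨-u, -v, ?_⟩
    have h6 : (1 : StR WS) = -StR.c (lrho eP' bD.symm (tp T1)) := by rw [h5, neg_neg]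
    rw [h6, hc, ← hu, ← hv]
    ring

end F5

end Pool.Agent.Tate.R3
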