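import Pool.Agent.Lib.Tate.R.R3.Us

/-!
# C42 (MP_071d69_gt), block R3 (helper20): the symmetric line

`sl t a b`: the line spanned by `a ⊗ b + t b ⊗ a`; at `t = 0` it is `a ⊗ b`, at `t = 1` it is symmetric.
-/

set_option linter.unusedSectionVars false

open Topology unitInterval Filter Set
open scoped Topology.Homotopy

noncomputable section

namespace Pool.Agent.Tate.R3

open CSRS T2

/-- the exchange of the two factors -/
def sx (x : Fin 2 → Bool) : Fin 2 → Bool := ![x 1, x 0]

theorem sx_sx (x : Fin 2 → Bool) : sx (sx x) = x := by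
  funext i
  fin_cases i <;> rfl

/-- the matrix of `a ⊗ b` -/
def P2 (p q : Matrix Bool Bool ℂ) (x y : Fin 2 → Bool) : ℂ := p (x 0) (y 0) * q (x 1) (y 1)

/-- the matrix of `a ⊗ b + t b ⊗ a` (not normalized) -/
def Q2 (t : ℝ) (p q : Matrix Bool Bool ℂ) : Matrix (Fin 2 → Bool) (Fin 2 → Bool) ℂ := fun x y =>
  P2 p q x y + t * (P2 p q (sx x) y + P2 p q x (sx y)) + t ^ 2 * P2 p q (sx x) (sx y)

/-- rank one property of a projection of trace one in `ℂ²` -/
theorem rk1 {p : Matrix Bool Bool ℂ} (h2 : p * p = p) (h3 : p.trace = 1) (i j k l : Bool) :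
    p i j * p k l = p i l * p k j := by
  have t1 : p false false + p true true = 1 := by
    rw [← h3, Matrix.trace, Fintype.sum_bool, Matrix.diag_apply, Matrix.diag_apply]
    ring
  have e : p false false * p false false + p false true * p true false = p false false := by
    conv_rhs => rw [← h2]
    rw [Matrix.mul_apply, Fintype.sum_bool]
    ring
  have m : p false false * p true true = p false true * p true false := by
    linear_combination p false false * t1 - e
  cases i <;> cases j <;> cases k <;> cases l <;>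
    first | ring1 | linear_combination m | linear_combination -m

theorem P2_rk {p q : Matrix Bool Bool ℂ} (hp : p * p = p) (hp' : p.trace = 1) (hq : q * q = q)
    (hq' : q.trace = 1) (x y z w : Fin 2 → Bool) :
    P2 p q x y * P2 p q z w = P2 p q x w * P2 p q z y := by
  have h1 := rk1 hp hp' (x 0) (y 0) (z 0) (w 0)
  have h2 := rk1 hq hq' (x 1) (y 1) (z 1) (w 1)
  unfold P2
  linear_combination q (x 1) (y 1) * q (z 1) (w 1) * h1 + p (x 0) (w 0) * p (z 0) (y 0) * h2

theorem Q2_rk {p q : Matrix Bool Bool ℂ} (hp : p * p = p) (hp' : p.trace = 1) (hq : q * q = q)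
    (hq' : q.trace = 1) (t : ℝ) (x y z w : Fin 2 → Bool) :
    Q2 t p q x y * Q2 t p q z w = Q2 t p q x w * Q2 t p q z y := by
  have h := P2_rk hp hp' hq hq'
  unfold Q2
  linear_combination h x y z w + t * (h (sx x) y z w + h x (sx y) z w + h x y (sx z) w +
    h x y z (sx w)) + t ^ 2 * (h (sx x) (sx y) z w + h (sx x) y (sx z) w + h (sx x) y z (sx w) +
    h x (sx y) (sx z) w + h x (sx y) z (sx w) + h x y (sx z) (sx w)) +
    t ^ 3 * (h (sx x) (sx y) (sx z) w + h (sx x) (sx y) z (sx w) + h (sx x) y (sx z) (sx w) +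
      h x (sx y) (sx z) (sx w)) + t ^ 4 * h (sx x) (sx y) (sx z) (sx w)

/-- the norm -/
def c2 (t : ℝ) (a b : S2) : ℝ :=
  1 + t ^ 2 + t * (1 + (a.1 0 * b.1 0 + a.1 1 * b.1 1 + a.1 2 * b.1 2))

theorem c2_pos (t : I) (a b : S2) : 0 < c2 t a b := by
  have h1 := a.2
  have h2 := b.2
  have h3 : 0 ≤ 1 + (a.1 0 * b.1 0 + a.1 1 * b.1 1 + a.1 2 * b.1 2) := by
    nlinarith [sq_nonneg (a.1 0 + b.1 0), sq_nonneg (a.1 1 + b.1 1), sq_nonneg (a.1 2 + b.1 2)]
  have h4 := mul_nonneg t.2.1 h3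
  unfold c2
  nlinarith [sq_nonneg (t : ℝ)]

theorem sum2 (f : (Fin 2 → Bool) → ℂ) : ∑ x, f x = f ![true, true] + f ![true, false] +
    (f ![false, true] + f ![false, false]) := by
  rw [← (finTwoArrowEquiv Bool).symm.sum_comp, Fintype.sum_prod_type, Fintype.sum_bool,
    Fintype.sum_bool, Fintype.sum_bool]
  rfl

theorem Q2_trace (t : ℝ) (a b : S2) : (Q2 t (lnm a.1) (lnm b.1)).trace = (c2 t a b : ℂ) := by
  have ha := a.ne_zero
  have hb := b.ne_zero
  have na := a.nrm_eq
  have nb := b.nrm_eq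
  have hI : Complex.I ^ 2 = -1 := Complex.I_sq
  rw [Matrix.trace, sum2]
  simp only [Matrix.diag_apply, Q2, P2, sx, lnm, if_neg ha, if_neg hb, na, nb, c2]
  simp
  ring_nf
  rw [hI]
  ring

/-- the line spanned by `a ⊗ b + t b ⊗ a` -/
def sl (t : I) (a b : S2) : PL (Fin 2) :=
  ⟨((c2 t a b : ℂ))⁻¹ • Q2 t (lnm a.1) (lnm b.1), by
    have hc : (c2 t a b : ℂ) ≠ 0 := by exact_mod_cast (c2_pos t a b).ne'
    have hr : ∀ x y z w : Fin 2 → Bool, Q2 t (lnm a.1) (lnm b.1) x y * Q2 t (lnm a.1) (lnm b.1) z w =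
        Q2 t (lnm a.1) (lnm b.1) x w * Q2 t (lnm a.1) (lnm b.1) z y :=
      Q2_rk (ln a.1).2.2.1 (ln a.1).2.2.2 (ln b.1).2.2.1 (ln b.1).2.2.2 (t : ℝ)
    have ht := Q2_trace t a b
    refine ⟨?_, ?_, ?_⟩
    · rw [Matrix.conjTranspose_smul]
      congr 1
      · simp
      · ext x y
        rw [Matrix.conjTranspose_apply]
        have e1 : ∀ i j, star (lnm a.1 i j) = lnm a.1 j i := fun i j =>
          congrFun (congrFun (ln a.1).2.1 j) i
        have e2 : ∀ i j, star (lnm b.1 i j) = lnm b.1 j i := fun i j =>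
          congrFun (congrFun (ln b.1).2.1 j) i
        have e3 : ∀ z w, star (P2 (lnm a.1) (lnm b.1) z w) = P2 (lnm a.1) (lnm b.1) w z := by
          intro z w
          unfold P2
          rw [star_mul', e1, e2]
        have e4 : star ((t : ℝ) : ℂ) = ((t : ℝ) : ℂ) := Complex.conj_ofReal _
        unfold Q2
        rw [star_add, star_add, star_mul', star_mul', star_add, star_pow, e3, e3, e3, e3, e4]
        ring
    · ext x y
      rw [Matrix.mul_apply]
      simp only [Matrix.smul_apply, smul_eq_mul]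
      have e1 : ∀ z, ((c2 t a b : ℂ))⁻¹ * Q2 t (lnm a.1) (lnm b.1) x z *
          (((c2 t a b : ℂ))⁻¹ * Q2 t (lnm a.1) (lnm b.1) z y) =
          ((c2 t a b : ℂ))⁻¹ ^ 2 * Q2 t (lnm a.1) (lnm b.1) x y * Q2 t (lnm a.1) (lnm b.1) z z := by
        intro z
        have := hr x z z y
        linear_combination ((c2 t a b : ℂ))⁻¹ ^ 2 * this
      rw [Finset.sum_congr rfl fun z _ => e1 z, ← Finset.mul_sum]
      have e2 : ∑ z, Q2 t (lnm a.1) (lnm b.1) z z = (c2 t a b : ℂ) := ht
      rw [e2]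
      field_simp
    · rw [Matrix.trace_smul, ht, smul_eq_mul, inv_mul_cancel₀ hc]⟩

theorem continuous_sl : Continuous fun p : I × (S2 × S2) => sl p.1 p.2.1 p.2.2 := by
  refine Continuous.subtype_mk ?_ _
  refine continuous_pi fun x => continuous_pi fun y => ?_
  have ht : Continuous fun p : I × (S2 × S2) => (((p.1 : ℝ) : ℂ)) :=
    Complex.continuous_ofReal.comp (continuous_subtype_val.comp continuous_fst)
  have ha : ∀ i j, Continuous fun p : I × (S2 × S2) => lnm p.2.1.1 i j := fun i j =>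
    (continuous_lnab i j).comp (continuous_fst.comp continuous_snd)
  have hb : ∀ i j, Continuous fun p : I × (S2 × S2) => lnm p.2.2.1 i j := fun i j =>
    (continuous_lnab i j).comp (continuous_snd.comp continuous_snd)
  have hP : ∀ z w, Continuous fun p : I × (S2 × S2) => P2 (lnm p.2.1.1) (lnm p.2.2.1) z w :=
    fun z w => (ha _ _).mul (hb _ _)
  have hc : Continuous fun p : I × (S2 × S2) => c2 p.1 p.2.1 p.2.2 := by
    have h1 : ∀ i, Continuous fun p : I × (S2 × S2) => p.2.1.1 i := fun i =>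
      (S2.continuous_apply i).comp (continuous_fst.comp continuous_snd)
    have h2 : ∀ i, Continuous fun p : I × (S2 × S2) => p.2.2.1 i := fun i =>
      (S2.continuous_apply i).comp (continuous_snd.comp continuous_snd)
    have h3 : Continuous fun p : I × (S2 × S2) => (p.1 : ℝ) :=
      continuous_subtype_val.comp continuous_fst
    unfold c2
    exact (continuous_const.add (h3.pow 2)).add (h3.mul (continuous_const.add
      ((((h1 0).mul (h2 0)).add ((h1 1).mul (h2 1))).add ((h1 2).mul (h2 2)))))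
  refine Continuous.mul ?_ ?_
  · exact (Complex.continuous_ofReal.comp hc).inv₀ fun p => by
      change ((c2 p.1 p.2.1 p.2.2 : ℝ) : ℂ) ≠ 0
      exact_mod_cast (c2_pos p.1 p.2.1 p.2.2).ne'
  · exact ((hP _ _).add (ht.mul ((hP _ _).add (hP _ _)))).add ((ht.pow 2).mul (hP _ _))

theorem sl_one (a b : S2) : sl 1 a b = sl 1 b a := by
  apply Subtype.ext
  have h1 : c2 ((1 : I) : ℝ) a b = c2 ((1 : I) : ℝ) b a := by
    unfold c2
    ring
  change ((c2 ((1 : I) : ℝ) a b : ℂ))⁻¹ • Q2 ((1 : I) : ℝ) (lnm a.1) (lnm b.1) =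
    ((c2 ((1 : I) : ℝ) b a : ℂ))⁻¹ • Q2 ((1 : I) : ℝ) (lnm b.1) (lnm a.1)
  rw [h1]
  congr 1
  ext x y
  simp only [Q2, P2, sx]
  simp
  ring

theorem sl_zero (a b : S2) : sl 0 a b = PL.tens ![ln a.1, ln b.1] := by
  apply Subtype.ext
  change ((c2 ((0 : I) : ℝ) a b : ℂ))⁻¹ • Q2 ((0 : I) : ℝ) (lnm a.1) (lnm b.1) =
    mtens fun c => (![ln a.1, ln b.1] c).1
  ext x y
  rw [Matrix.smul_apply]
  simp only [Q2, P2, sx, c2, mtens, Fin.prod_univ_two]
  simp
  rfl

end Pool.Agent.Tate.R3
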