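import Pool.Agent.Lib.Tate.R.R3.Base

/-!
# C42 (MP_071d69_gt), block R3 (helper47): composition with maps of spheres

For a based map `κ` of spheres the class of `f ∘ (κ × id)` is, after stabilisation and up to sign, the
product of the class of `f` with the class of `unit ∘ κ`.
-/

set_option linter.unusedSectionVars false

open Topology unitInterval Filter Set
open scoped Topology.Homotopy

noncomputable section

namespace Pool.Agent.Tate.R3

open CSRS T2

section cmH

variable {N P Q M X : Type} [Fintype N] [Fintype P] [Fintype Q] [Fintype M]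
  [TopologicalSpace X] {x : X}

theorem cm_homotopic (κ : SM P N) {f g : Ω^ (N ⊕ Q) X x} (h : GenLoop.Homotopic f g) :
    GenLoop.Homotopic (cm κ f) (cm κ g) := by
  obtain ⟨H, hc, h0, h1, hb⟩ := Homotopic.exists_map h
  refine homotopic_of (fun p => H (p.1, Sum.elim (κ.f fun i => p.2 (Sum.inl i))
    fun i => p.2 (Sum.inr i))) ?_ ?_ ?_ ?_
  · have e1 : Continuous fun p : (I × (Q → I)) × (N → I) => H (p.1.1, Sum.elim p.2 p.1.2) :=
      hc.comp ((continuous_fst.comp continuous_fst).prodMk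
        (continuous_elim continuous_snd (continuous_snd.comp continuous_fst)))
    have e2 := κ.kc.comp e1 (fun y t ht t' ht' => by
      obtain ⟨i, hi⟩ := ht
      obtain ⟨j, hj⟩ := ht'
      rw [hb _ _ ⟨Sum.inl i, hi⟩, hb _ _ ⟨Sum.inl j, hj⟩])
    exact e2.comp (g := fun p : (I × (Q → I)) × (P → I) => H (p.1.1, Sum.elim (κ.f p.2) p.1.2))
      (f := fun p : I × (P ⊕ Q → I) => ((p.1, fun i => p.2 (Sum.inr i)), fun i => p.2 (Sum.inl i)))
      (by fun_prop)
  · intro t; exact h0 _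
  · intro t; exact h1 _
  · rintro τ s ⟨i | i, hi⟩
    · obtain ⟨j, hj⟩ := κ.bdry (fun i => s (Sum.inl i)) ⟨i, hi⟩
      exact hb _ _ ⟨Sum.inl j, hj⟩
    · exact hb _ _ ⟨Sum.inr i, hi⟩

/-- composition with a map of spheres, on homotopy groups -/
def cmH (κ : SM P N) : HomotopyGroup (N ⊕ Q) X x → HomotopyGroup (P ⊕ Q) X x :=
  Quotient.map' (cm κ) fun _ _ h => cm_homotopic κ h

theorem cmH_mk (κ : SM P N) (f : Ω^ (N ⊕ Q) X x) : cmH κ (T2.cls f) = T2.cls (cm κ f) := rfl

theorem cm_transAt [DecidableEq N] [DecidableEq P] [DecidableEq Q] (κ : SM P N) (j : Q)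
    (f g : Ω^ (N ⊕ Q) X x) : cm κ (GenLoop.transAt (Sum.inr j) f g) =
      GenLoop.transAt (Sum.inr j) (cm κ f) (cm κ g) := by
  ext s
  have k : ∀ c : I, (Sum.elim (κ.f fun i => Function.update s (Sum.inr j) c (Sum.inl i))
      (fun i => Function.update s (Sum.inr j) c (Sum.inr i)) : N ⊕ Q → I) =
      Function.update (Sum.elim (κ.f fun i => s (Sum.inl i)) fun i => s (Sum.inr i))
        (Sum.inr j) c := by
    intro c
    have k1 : (fun i => Function.update s (Sum.inr j) c (Sum.inl i)) = fun i => s (Sum.inl i) := by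
      funext i
      rw [Function.update_of_ne (by simp)]
    rw [k1]
    funext i
    rcases i with i | i
    · rw [Function.update_of_ne (by simp)]
      rfl
    · by_cases h : i = j
      · subst h
        simp
      · rw [Function.update_of_ne (fun h' => h (Sum.inr_injective h'))]
        show Function.update s (Sum.inr j) c (Sum.inr i) = s (Sum.inr i)
        rw [Function.update_of_ne (fun h' => h (Sum.inr_injective h'))]
  change (if ((s (Sum.inr j) : I) : ℝ) ≤ 1 / 2 then _ else _) =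
    (if ((s (Sum.inr j) : I) : ℝ) ≤ 1 / 2 then _ else _)
  split_ifs
  · rw [cm_apply, k]; rfl
  · rw [cm_apply, k]; rfl

theorem cmH_mul [DecidableEq N] [DecidableEq P] [DecidableEq Q] [Nonempty Q] (κ : SM P N)
    (a b : HomotopyGroup (N ⊕ Q) X x) : cmH κ (a * b) = cmH κ a * cmH κ b := by
  induction a using cls_ind with | _ f
  induction b using cls_ind with | _ g
  have j : Q := Classical.arbitrary Q
  rw [cls_mul (Sum.inr j), cmH_mk, cm_transAt, cmH_mk, cmH_mk, cls_mul (Sum.inr j)]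

/-- `cmH` as a homomorphism -/
def cmHom [DecidableEq N] [DecidableEq P] [DecidableEq Q] [Nonempty Q] (κ : SM P N) :
    HomotopyGroup (N ⊕ Q) X x →* HomotopyGroup (P ⊕ Q) X x :=
  MonoidHom.mk' (cmH κ) (cmH_mul κ)

theorem cmHom_apply [DecidableEq N] [DecidableEq P] [DecidableEq Q] [Nonempty Q] (κ : SM P N)
    (a : HomotopyGroup (N ⊕ Q) X x) : cmHom κ a = cmH κ a := rfl

end cmH

section comp

variable {E : CSRS} {N P Q A : Type} [Fintype N] [DecidableEq N] [Fintype P] [DecidableEq P]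
  [Fintype Q] [DecidableEq Q] [Fintype A] [DecidableEq A]

/-- `(N ⊕ Q) ⊕ P ≃ (P ⊕ Q) ⊕ N` -/
def sw3 (N Q P : Type) : (N ⊕ Q) ⊕ P ≃ (P ⊕ Q) ⊕ N where
  toFun := Sum.elim (Sum.elim Sum.inr fun q => Sum.inl (Sum.inr q)) fun p => Sum.inl (Sum.inl p)
  invFun := Sum.elim (Sum.elim Sum.inr fun q => Sum.inl (Sum.inr q)) fun p => Sum.inl (Sum.inl p)
  left_inv := by rintro ((x | x) | x) <;> rfl
  right_inv := by rintro ((x | x) | x) <;> rfl

/-- Composition with a map of spheres is multiplication with a class, up to sign. -/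
theorem comp [Nonempty N] (κ : SM P N) (f : E.L (N ⊕ Q) A) : ∃ ε : ℤˣ,
    T2.rho (sw3 N Q P) (Equiv.refl (A ⊕ N)) (hmul (T2.cls f) (T2.cls (cm0 κ (E.unit N)))) =
      (hmul (T2.cls (cm κ f)) (T2.cls (E.unit N))) ^ (ε : ℤ) := by
  have hne : Nonempty ((N ⊕ Q) ⊕ N) := ⟨Sum.inr (Classical.arbitrary N)⟩
  have hne2 : Nonempty (N ⊕ (Q ⊕ N)) := ⟨Sum.inl (Classical.arbitrary N)⟩
  have hne3 : Nonempty (Q ⊕ N) := ⟨Sum.inr (Classical.arbitrary N)⟩
  have hne4 : Nonempty ((P ⊕ Q) ⊕ N) := ⟨Sum.inr (Classical.arbitrary N)⟩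
  have hne5 : Nonempty (P ⊕ (Q ⊕ N)) := ⟨Sum.inr (Classical.arbitrary _)⟩
  refine ⟨Equiv.Perm.sign (sw3 N Q N), ?_⟩
  set Φ : E.L ((N ⊕ Q) ⊕ N) (A ⊕ N) := prod f (E.unit N) with hΦ
  -- the class of `Φ`, relabelled by the swap
  have h1 : T2.cls (relab (sw3 N Q N) Φ) = (T2.cls Φ) ^ ((Equiv.Perm.sign (sw3 N Q N) : ℤˣ) : ℤ) := by
    rw [← relabH_mk]
    exact relabH_perm (sw3 N Q N) _
  -- composition with `κ`
  have h2 := congrArg (fun a => relabH (Equiv.sumAssoc P Q N).symm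
    (cmHom κ (relabH (Equiv.sumAssoc N Q N) a))) h1
  have h3 : relabH (Equiv.sumAssoc P Q N).symm (cmHom κ (relabH (Equiv.sumAssoc N Q N)
      (T2.cls (relab (sw3 N Q N) Φ)))) =
      T2.rho (sw3 N Q P) (Equiv.refl (A ⊕ N)) (hmul (T2.cls f) (T2.cls (cm0 κ (E.unit N)))) := by
    rw [hmul_mk, rho_mk, relabH_mk, cmHom_apply, cmH_mk, relabH_mk]
    congr 1
    ext s
    rw [lrho_apply, E.map_refl]
    refine congrArg₂ E.mul (congrArg f ?_) rfl
    funext i
    rcases i with i | i <;> rfl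
  have h4 : relabH (Equiv.sumAssoc P Q N).symm (cmHom κ (relabH (Equiv.sumAssoc N Q N)
      (T2.cls Φ))) = hmul (T2.cls (cm κ f)) (T2.cls (E.unit N)) := by
    rw [hmul_mk, relabH_mk, cmHom_apply, cmH_mk, relabH_mk]
    congr 1
    ext s
    refine congrArg₂ E.mul (congrArg f ?_) rfl
    funext i
    rcases i with i | i <;> rfl
  have h5 : ∀ (a : HomotopyGroup ((N ⊕ Q) ⊕ N) (E.X (A ⊕ N)) (E.pt (A ⊕ N))) (k : ℤ),
      relabH (Equiv.sumAssoc P Q N).symm (cmHom κ (relabH (Equiv.sumAssoc N Q N) (a ^ k))) =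
      (relabH (Equiv.sumAssoc P Q N).symm (cmHom κ (relabH (Equiv.sumAssoc N Q N) a))) ^ k := by
    intro a k
    show relabHom _ (cmHom κ (relabHom _ (a ^ k))) = (relabHom _ (cmHom κ (relabHom _ a))) ^ k
    rw [map_zpow, map_zpow, map_zpow]
  rw [← h3, ← h4, ← h5]
  exact h2

end comp

end Pool.Agent.Tate.R3
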