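import Pool.Agent.Lib.Tate.R.R3.Fam
import Pool.Agent.Lib.Tate.R.R3.Comp

/-!
# C42 (MP_071d69_gt), block R3 (helper47): from families over `S2 × S2` to loops

`tp f (s, m) = f(rad s_0, rad s_1, m)(dr (ctr s_0), dr (ctr s_1))`.  If the symmetric family `g` vanishes for
`b = np`, then `gg g (s, t, t') = g(s)(tq t, tq t')` is a loop and `tp g` is the composition of
`gg g` with a map of spheres.
-/

set_option linter.unusedSectionVars false

open Topology unitInterval Filter Set
open scoped Topology.Homotopy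

noncomputable section

namespace Pool.Agent.Tate.R3

open T2

section top

variable {U V X : Type} [Fintype U] [Fintype V] [TopologicalSpace X] {x : X}

/-- The coordinates of `tp`. -/
abbrev Pt (U V : Type) : Type := ((Fin 2 × Fin 3) ⊕ U) ⊕ V

/-- The coordinates of the family. -/
abbrev Nt (U V : Type) : Type := (Fin 2 ⊕ U) ⊕ V

/-- The vector `ctr s_r`. -/
def cu (r : Fin 2) (s : Pt U V → I) : Fin 3 → ℝ := ctr fun i => s (Sum.inl (Sum.inl (r, i)))

/-- The radii. -/
def trd (s : Pt U V → I) : Nt U V → I :=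
  Sum.elim (Sum.elim (fun r => rad fun i => s (Sum.inl (Sum.inl (r, i))))
    fun u => s (Sum.inl (Sum.inr u))) fun v => s (Sum.inr v)

/-- The directions. -/
def tdr (s : Pt U V → I) : S2 × S2 := (dr (cu 0 s), dr (cu 1 s))

theorem continuous_trd : Continuous (trd : (Pt U V → I) → Nt U V → I) := by
  refine continuous_elim (continuous_elim ?_ (by fun_prop)) (by fun_prop)
  exact continuous_pi fun r => continuous_rad.comp (by fun_prop)

theorem continuous_cu (r : Fin 2) : Continuous (cu r : (Pt U V → I) → _) :=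
  continuous_ctr.comp (by fun_prop)

theorem cu_ne {s : Pt U V → I} (h : trd s ∉ Cube.boundary (Nt U V)) (r : Fin 2) : cu r s ≠ 0 :=
  fun h' => h ⟨Sum.inl (Sum.inl r), Or.inl (rad_eq_zero h')⟩

theorem continuousAt_tdr {s : Pt U V → I} (h : trd s ∉ Cube.boundary (Nt U V)) :
    ContinuousAt tdr s := by
  refine ContinuousAt.prodMk ?_ ?_
  · exact ContinuousAt.comp (g := dr) (f := fun s : Pt U V → I => cu 0 s)
      (continuousAt_dr (cu_ne h 0)) (continuous_cu 0).continuousAt
  · exact ContinuousAt.comp (g := dr) (f := fun s : Pt U V → I => cu 1 s)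
      (continuousAt_dr (cu_ne h 1)) (continuous_cu 1).continuousAt

theorem trd_bdry {s : Pt U V → I} (h : s ∈ Cube.boundary (Pt U V)) :
    trd s ∈ Cube.boundary (Nt U V) := by
  obtain ⟨(⟨r, i⟩ | u) | v, hi⟩ := h
  · exact ⟨Sum.inl (Sum.inl r), Or.inr (rad_bdry ⟨i, hi⟩)⟩
  · exact ⟨Sum.inl (Sum.inr u), hi⟩
  · exact ⟨Sum.inr v, hi⟩

/-- From families to loops. -/
def tp (f : FS (Nt U V) x) : Ω^ (Pt U V) X x :=
  ⟨⟨fun s => (f (trd s)).1 (tdr s),
    continuous_part (FS.cont f) (D := Cube.boundary (Nt U V))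
      (fun t ht k k' => by
        show (f t).1 k = (f t).1 k'
        rw [FS.bdry f ht, FS.bdry f ht]) continuous_trd fun s hs => continuousAt_tdr hs⟩,
    fun s hs => FS.bdry f (trd_bdry hs) _⟩

theorem tp_apply (f : FS (Nt U V) x) (s : Pt U V → I) : tp f s = (f (trd s)).1 (tdr s) := rfl

theorem tp_homotopic {f g : FS (Nt U V) x} (h : GenLoop.Homotopic f g) :
    GenLoop.Homotopic (tp f) (tp g) := by
  obtain ⟨H, hc, h0, h1, hb⟩ := Homotopic.exists_map h
  refine homotopic_of (fun p => (H (p.1, trd p.2)).1 (tdr p.2)) ?_ ?_ ?_ ?_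
  · have hF : Continuous fun p : (I × (Nt U V → I)) × (S2 × S2) => (H p.1).1 p.2 :=
      continuous_eval.comp ((continuous_subtype_val.comp (hc.comp continuous_fst)).prodMk
        continuous_snd)
    refine continuous_part hF (D := {t | t.2 ∈ Cube.boundary (Nt U V)}) ?_
      (g := fun p : I × (Pt U V → I) => (p.1, trd p.2)) (k := fun p => tdr p.2)
      (continuous_fst.prodMk (continuous_trd.comp continuous_snd)) ?_
    · intro t ht k k'
      show (H t).1 k = (H t).1 k'
      have e : H t = syc x := hb t.1 t.2 ht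
      rw [e]
      rfl
    · intro p hp
      exact ContinuousAt.comp (g := tdr) (f := Prod.snd) (x := p) (continuousAt_tdr hp)
        continuousAt_snd
  · intro t
    show (H (0, trd t)).1 _ = _
    rw [h0]; rfl
  · intro t
    show (H (1, trd t)).1 _ = _
    rw [h1]; rfl
  · intro τ s hs
    show (H (τ, trd s)).1 _ = _
    rw [hb _ _ (trd_bdry hs)]; rfl

/-- `tp` on homotopy groups. -/
def tpH : HomotopyGroup (Nt U V) (Sy X) (syc x) → HomotopyGroup (Pt U V) X x :=
  Quotient.map' tp fun _ _ h => tp_homotopic h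

theorem tpH_mk (f : FS (Nt U V) x) : tpH (T2.cls f) = T2.cls (tp f) := rfl

theorem tp_transAt [DecidableEq U] [DecidableEq V] (v : V) (f g : FS (Nt U V) x) :
    tp (GenLoop.transAt (Sum.inr v) f g) = GenLoop.transAt (Sum.inr v) (tp f) (tp g) := by
  ext s
  have k1 : ∀ (c : I) (j : (Fin 2 × Fin 3) ⊕ U),
      Function.update s (Sum.inr v) c (Sum.inl j) = s (Sum.inl j) := fun c j =>
    Function.update_of_ne (by simp) _ _
  have k : ∀ c : I, trd (Function.update s (Sum.inr v) c) =
      Function.update (trd s) (Sum.inr v) c := by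
    intro c
    funext i
    rcases i with (i | i) | i
    · rw [Function.update_of_ne (by simp)]
      show rad (fun j => Function.update s (Sum.inr v) c (Sum.inl (Sum.inl (i, j)))) = rad _
      simp only [k1]
    · rw [Function.update_of_ne (by simp)]
      show Function.update s (Sum.inr v) c (Sum.inl (Sum.inr i)) = _
      rw [k1]
      rfl
    · by_cases h : i = v
      · subst h
        show Function.update s (Sum.inr i) c (Sum.inr i) = _
        rw [Function.update_self, Function.update_self]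
      · rw [Function.update_of_ne (fun h' => h (Sum.inr_injective h'))]
        show Function.update s (Sum.inr v) c (Sum.inr i) = _
        rw [Function.update_of_ne (fun h' => h (Sum.inr_injective h'))]
        rfl
  have kd : ∀ c : I, tdr (Function.update s (Sum.inr v) c) = tdr s := by
    intro c
    have kc : ∀ r, cu r (Function.update s (Sum.inr v) c) = cu r s := by
      intro r
      unfold cu
      simp only [k1]
    unfold tdr
    rw [kc, kc]
  have e : GenLoop.transAt (Sum.inr v) (tp f) (tp g) s =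
      if ((s (Sum.inr v) : I) : ℝ) ≤ 1 / 2 then
        tp f (Function.update s (Sum.inr v) (Set.projIcc 0 1 zero_le_one
          (2 * (s (Sum.inr v) : ℝ)))) else
        tp g (Function.update s (Sum.inr v) (Set.projIcc 0 1 zero_le_one
          (2 * (s (Sum.inr v) : ℝ) - 1))) := rfl
  have e' : (GenLoop.transAt (Sum.inr v) f g) (trd s) =
      if ((s (Sum.inr v) : I) : ℝ) ≤ 1 / 2 then
        f (Function.update (trd s) (Sum.inr v) (Set.projIcc 0 1 zero_le_one
          (2 * (s (Sum.inr v) : ℝ)))) else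
        g (Function.update (trd s) (Sum.inr v) (Set.projIcc 0 1 zero_le_one
          (2 * (s (Sum.inr v) : ℝ) - 1))) := rfl
  rw [e, tp_apply, e', tp_apply, tp_apply, k, k, kd, kd]
  split_ifs <;> rfl

theorem tpH_mul [DecidableEq U] [DecidableEq V] [Nonempty V]
    (a b : HomotopyGroup (Nt U V) (Sy X) (syc x)) : tpH (a * b) = tpH a * tpH b := by
  induction a using cls_ind with | _ f
  induction b using cls_ind with | _ g
  have v : V := Classical.arbitrary V
  rw [cls_mul (Sum.inr v), tpH_mk, tp_transAt, tpH_mk, tpH_mk, cls_mul (Sum.inr v)]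

/-- `tp` as a homomorphism. -/
def tpHom [DecidableEq U] [DecidableEq V] [Nonempty V] :
    HomotopyGroup (Nt U V) (Sy X) (syc x) →* HomotopyGroup (Pt U V) X x :=
  MonoidHom.mk' tpH tpH_mul

/-- Families which do not depend on the second variable. -/
theorem tp_null [DecidableEq U] [DecidableEq V] (f : FS (Nt U V) x) (h : ∀ s a b b', (f s).1 (a, b) = (f s).1 (a, b')) :
    GenLoop.Homotopic (tp f) GenLoop.const := by
  -- the family is constant
  have h' : ∀ s k, (f s).1 k = (f s).1 (np, np) := by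
    rintro s ⟨a, b⟩
    rw [h s a b np, (f s).2, h s np a np]
  -- deform `rad s_1` to one
  let T : I × (Pt U V → I) → Nt U V → I := fun p =>
    Function.update (trd p.2) (Sum.inl (Sum.inl 1)) (max p.1 (trd p.2 (Sum.inl (Sum.inl 1))))
  have hT : Continuous T := by
    refine Continuous.update (continuous_trd.comp continuous_snd) _ ?_
    exact continuous_fst.max ((continuous_apply _).comp (continuous_trd.comp continuous_snd))
  refine homotopic_of (fun p => (f (T p)).1 (np, np)) ?_ ?_ ?_ ?_
  · exact (FS.cont f).comp (hT.prodMk continuous_const)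
  · intro s
    show (f (Function.update (trd s) _ (max 0 _))).1 (np, np) = (f (trd s)).1 (tdr s)
    rw [h' _ (tdr s)]
    have : max (0 : I) (trd s (Sum.inl (Sum.inl 1))) = trd s (Sum.inl (Sum.inl 1)) :=
      max_eq_right (trd s _).2.1
    rw [this, Function.update_eq_self]
  · intro s
    refine FS.bdry f ⟨Sum.inl (Sum.inl 1), Or.inr ?_⟩ _
    show Function.update (trd s) _ (max 1 _) _ = 1
    rw [Function.update_self]
    exact max_eq_left (trd s _).2.2
  · intro τ s hs
    obtain ⟨i, hi⟩ := trd_bdry hs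
    refine FS.bdry f ?_ _
    by_cases hi1 : i = Sum.inl (Sum.inl 1)
    · subst hi1
      have e : T (τ, s) (Sum.inl (Sum.inl 1)) = max τ (trd s (Sum.inl (Sum.inl 1))) :=
        Function.update_self _ _ _
      -- if `trd s = 0` there then the first coordinate ... use the boundary of the cube of `s`
      obtain ⟨(⟨r, j⟩ | u) | v, hj⟩ := hs
      · by_cases hr : r = 1
        · subst hr
          refine ⟨Sum.inl (Sum.inl 1), Or.inr ?_⟩
          rw [e]
          have : trd s (Sum.inl (Sum.inl 1)) = 1 := rad_bdry ⟨j, hj⟩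
          rw [this]
          exact max_eq_right τ.2.2
        · refine ⟨Sum.inl (Sum.inl r), Or.inr ?_⟩
          have e' : T (τ, s) (Sum.inl (Sum.inl r)) = trd s (Sum.inl (Sum.inl r)) :=
            Function.update_of_ne (by simpa using hr) _ _
          rw [e']
          exact rad_bdry ⟨j, hj⟩
      · refine ⟨Sum.inl (Sum.inr u), ?_⟩
        have e' : T (τ, s) (Sum.inl (Sum.inr u)) = trd s (Sum.inl (Sum.inr u)) :=
          Function.update_of_ne (by simp) _ _
        rw [e']
        exact hj
      · refine ⟨Sum.inr v, ?_⟩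
        have e' : T (τ, s) (Sum.inr v) = trd s (Sum.inr v) :=
          Function.update_of_ne (by simp) _ _
        rw [e']
        exact hj
    · refine ⟨i, ?_⟩
      have e' : T (τ, s) i = trd s i := Function.update_of_ne hi1 _ _
      rw [e']
      exact hi

/-! ### Based symmetric families -/

/-- The adjoint of a symmetric family which vanishes for `b = np`. -/
def gg {N : Type} (g : FS N x) (hg : ∀ s a, (g s).1 (a, np) = x) :
    Ω^ (N ⊕ (Fin 2 ⊕ Fin 2)) X x :=
  ⟨⟨fun s => (g fun i => s (Sum.inl i)).1 (tq fun i => s (Sum.inr (Sum.inl i)),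
      tq fun i => s (Sum.inr (Sum.inr i))), by
        have h1 : Continuous fun s : N ⊕ (Fin 2 ⊕ Fin 2) → I => fun i => s (Sum.inl i) := by
          fun_prop
        have h2 : Continuous fun s : N ⊕ (Fin 2 ⊕ Fin 2) → I => tq fun i => s (Sum.inr (Sum.inl i)) :=
          continuous_tq.comp (by fun_prop)
        have h3 : Continuous fun s : N ⊕ (Fin 2 ⊕ Fin 2) → I => tq fun i => s (Sum.inr (Sum.inr i)) :=
          continuous_tq.comp (by fun_prop)
        exact (FS.cont g).comp (h1.prodMk (h2.prodMk h3))⟩, by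
    rintro s ⟨i | (i | i), hi⟩
    · exact FS.bdry g ⟨i, hi⟩ _
    · have : (tq fun i => s (Sum.inr (Sum.inl i))) = np := tq_bdry ⟨i, hi⟩
      show (g fun i => s (Sum.inl i)).1 (tq fun i => s (Sum.inr (Sum.inl i)), _) = x
      rw [this, (g _).2, hg]
    · have : (tq fun i => s (Sum.inr (Sum.inr i))) = np := tq_bdry ⟨i, hi⟩
      show (g fun i => s (Sum.inl i)).1 (_, tq fun i => s (Sum.inr (Sum.inr i))) = x
      rw [this, hg]⟩

theorem gg_apply {N : Type} (g : FS N x) (hg : ∀ s a, (g s).1 (a, np) = x)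
    (s : N ⊕ (Fin 2 ⊕ Fin 2) → I) : gg g hg s = (g fun i => s (Sum.inl i)).1
      (tq fun i => s (Sum.inr (Sum.inl i)), tq fun i => s (Sum.inr (Sum.inr i))) := rfl

/-- The loop `gg g` is symmetric. -/
theorem gg_symm {N : Type} (g : FS N x) (hg : ∀ s a, (g s).1 (a, np) = x)
    (s : N → I) (t t' : Fin 2 → I) : gg g hg (Sum.elim s (Sum.elim t t')) =
      gg g hg (Sum.elim s (Sum.elim t' t)) := by
  rw [gg_apply, gg_apply]
  exact (g _).2 _ _

/-- The map of spheres `(s_0, s_1) ↦ (rad s_0, rad s_1, vq (dr s_0), vq (dr s_1))`. -/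
def k2 (s : Fin 2 × Fin 3 → I) : Fin 2 ⊕ (Fin 2 ⊕ Fin 2) → I :=
  Sum.elim (fun r => rad fun i => s (r, i)) (Sum.elim (vq (dr (ctr fun i => s (0, i))))
    (vq (dr (ctr fun i => s (1, i)))))

theorem KC_k2 : KC k2 := by
  have hr : Continuous fun (s : Fin 2 × Fin 3 → I) (r : Fin 2) => rad fun i => s (r, i) :=
    continuous_pi fun r => continuous_rad.comp (by fun_prop)
  have hd : ∀ (r : Fin 2) (s : Fin 2 × Fin 3 → I),
      (fun r : Fin 2 => rad fun i => s (r, i)) ∉ Cube.boundary (Fin 2) →
      ContinuousAt (fun s : Fin 2 × Fin 3 → I => dr (ctr fun i => s (r, i))) s := by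
    intro r s hs
    have hne : (ctr fun i => s (r, i)) ≠ 0 := fun h => hs ⟨r, Or.inl (rad_eq_zero h)⟩
    exact ContinuousAt.comp (g := dr) (f := fun s : Fin 2 × Fin 3 → I => ctr fun i => s (r, i))
      (continuousAt_dr hne) (continuous_ctr.comp (by fun_prop)).continuousAt
  refine KC.sum (KC.of_continuous hr) ?_ ?_
  · intro s hs hs'
    have h0 : dr (ctr fun i => s (0, i)) ≠ np := by
      intro h
      apply hs'
      obtain ⟨i, hi⟩ := (vq_bdry_iff _).2 h
      exact ⟨Sum.inl i, hi⟩
    have h1 : dr (ctr fun i => s (1, i)) ≠ np := by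
      intro h
      apply hs'
      obtain ⟨i, hi⟩ := (vq_bdry_iff _).2 h
      exact ⟨Sum.inr i, hi⟩
    refine continuousAt_pi.2 fun i => ?_
    rcases i with i | i
    · exact continuousAt_pi.1 (ContinuousAt.comp (g := vq)
        (f := fun s : Fin 2 × Fin 3 → I => dr (ctr fun i => s (0, i)))
        (continuousAt_vq h0) (hd 0 s hs)) i
    · exact continuousAt_pi.1 (ContinuousAt.comp (g := vq)
        (f := fun s : Fin 2 × Fin 3 → I => dr (ctr fun i => s (1, i)))
        (continuousAt_vq h1) (hd 1 s hs)) i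
  · intro s hs
    have e : (fun s : Fin 2 × Fin 3 → I => bd (Sum.elim (vq (dr (ctr fun i => s (0, i))))
        (vq (dr (ctr fun i => s (1, i)))) : Fin 2 ⊕ Fin 2 → I)) = fun s =>
        bd (vq (dr (ctr fun i => s (0, i)))) * bd (vq (dr (ctr fun i => s (1, i)))) := by
      funext s
      rw [bd_sum]
      rfl
    rw [e]
    refine ContinuousAt.mul ?_ ?_
    · exact ContinuousAt.comp (g := fun a => bd (vq a))
        (f := fun s : Fin 2 × Fin 3 → I => dr (ctr fun i => s (0, i)))
        KC_vq.bdc.continuousAt (hd 0 s hs)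
    · exact ContinuousAt.comp (g := fun a => bd (vq a))
        (f := fun s : Fin 2 × Fin 3 → I => dr (ctr fun i => s (1, i)))
        KC_vq.bdc.continuousAt (hd 1 s hs)

/-- `k2` as a map of spheres. -/
def K2 : SM (Fin 2 × Fin 3) (Fin 2 ⊕ (Fin 2 ⊕ Fin 2)) where
  f := k2
  kc := KC_k2
  bdry := by
    rintro s ⟨⟨r, i⟩, hi⟩
    exact ⟨Sum.inl r, Or.inr (rad_bdry ⟨i, hi⟩)⟩

/-- `((Fin 2 ⊕ U) ⊕ V) ⊕ T ≃ (Fin 2 ⊕ T) ⊕ (U ⊕ V)` -/
def w1 (U V T : Type) : ((Fin 2 ⊕ U) ⊕ V) ⊕ T ≃ (Fin 2 ⊕ T) ⊕ (U ⊕ V) where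
  toFun := Sum.elim (Sum.elim (Sum.elim (fun r => Sum.inl (Sum.inl r))
    fun u => Sum.inr (Sum.inl u)) fun v => Sum.inr (Sum.inr v)) fun t => Sum.inl (Sum.inr t)
  invFun := Sum.elim (Sum.elim (fun r => Sum.inl (Sum.inl (Sum.inl r))) Sum.inr)
    (Sum.elim (fun u => Sum.inl (Sum.inl (Sum.inr u))) fun v => Sum.inl (Sum.inr v))
  left_inv := by rintro (((x | x) | x) | x) <;> rfl
  right_inv := by rintro ((x | x) | (x | x)) <;> rfl

theorem tp_eq (g : FS (Nt U V) x) (hg : ∀ s a, (g s).1 (a, np) = x) :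
    tp g = relab (Equiv.sumAssoc (Fin 2 × Fin 3) U V).symm
      (cm K2 (relab (w1 U V (Fin 2 ⊕ Fin 2)) (gg g hg))) := by
  ext s
  show (g (trd s)).1 (tdr s) = (g _).1 (tq (vq (dr (cu 0 s))), tq (vq (dr (cu 1 s))))
  rw [tq_vq, tq_vq]
  congr 2
  congr 1
  funext i
  rcases i with (i | i) | i <;> rfl

end top

end Pool.Agent.Tate.R3
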