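import Pool.Agent.Lib.Tate.R.R3.Us
import Pool.Agent.Lib.Tate.R.R3.Top
import Pool.Agent.Lib.Tate.T2.Cls

/-!
# C42 (MP_071d69_gt), block R3 (helper66): the symmetric family of lines at `t = 1`

`fT1 = US (un4 E) (Lb (sl 1 a b))`, for a symmetric line `sl`: its class is `1` (`isC_T1`), its restriction
to `b = np` is the family `pl k4` (`T1_res`).  `fT2` is the family with the base line.
-/

set_option linter.unusedSectionVars false

open Topology unitInterval Filter Set
open scoped Topology.Homotopy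

noncomputable section

namespace Pool.Agent.Tate.R3

open CSRS T2

/-- The base line. -/
theorem tens_np {B : Type} [Fintype B] [DecidableEq B] :
    (PL.tens fun _ : B => ln np.1) = PL.one B := by
  apply Subtype.ext
  ext a b
  show (∏ c, lnm np.1 (a c) (b c)) = Matrix.single _ _ _ a b
  rw [Matrix.single_apply]
  by_cases h : (fun _ : B => false) = a ∧ (fun _ : B => false) = b
  · obtain ⟨rfl, rfl⟩ := h
    rw [if_pos ⟨rfl, rfl⟩]
    refine Finset.prod_eq_one fun c _ => ?_
    rw [lnm_np]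
    exact if_pos ⟨rfl, rfl⟩
  · rw [if_neg h]
    have h' : ∃ c, ¬ (a c = false ∧ b c = false) := by
      by_contra hn
      push Not at hn
      exact h ⟨funext fun c => (hn c).1.symm, funext fun c => (hn c).2.symm⟩
    obtain ⟨c, hc⟩ := h'
    refine Finset.prod_eq_zero (Finset.mem_univ c) ?_
    rw [lnm_np]
    exact if_neg hc

/-- `Lb` of a tensor product. -/
theorem Lb_tens (u v : {p : Matrix Bool Bool ℂ // p.conjTranspose = p ∧ p * p = p ∧ p.trace = 1}) :
    Lb (PL.tens ![u, v]) = PL.tens fun m : B4 =>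
      Sum.elim (![u, v] : Fin 2 → _) (fun _ : D4 => ln np.1) (bD.symm m) := by
  unfold Lb
  rw [← tens_np, ← T2.PL.map_tens bD]
  congr 1
  rw [← T2.PL.mul_tens (A := Fin 2) (B := D4)]
  congr 1

/-- `(Fin 2 × Fin 3) ⊕ D4 ≃ Pt Unit (Unit ⊕ Fin 2)` -/
def eT : (Fin 2 × Fin 3) ⊕ D4 ≃ Pt Unit (Unit ⊕ Fin 2) where
  toFun := Sum.elim (fun p => Sum.inl (Sum.inl p))
    (Sum.elim (fun u => Sum.inl (Sum.inr u)) fun v => Sum.inr v)
  invFun := Sum.elim (Sum.elim Sum.inl fun u => Sum.inr (Sum.inl u)) fun v => Sum.inr (Sum.inr v)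
  left_inv := by rintro (p | (u | v)) <;> rfl
  right_inv := by rintro ((p | u) | v) <;> rfl

section T1

variable (E : CSRS) (sl : I → S2 → S2 → PL (Fin 2))
  (hc : Continuous fun p : I × (S2 × S2) => sl p.1 p.2.1 p.2.2)
  (hs : ∀ a b, sl 1 a b = sl 1 b a)
  (h0 : ∀ a b, sl 0 a b = PL.tens ![ln a.1, ln b.1])

/-- The symmetric family of lines. -/
def fT1p : Sy (PL B4) :=
  ⟨⟨fun k => Lb (sl 1 k.1 k.2), continuous_Lb.comp (hc.comp (g := fun p : I × (S2 × S2) =>
    sl p.1 p.2.1 p.2.2) (f := fun k : S2 × S2 => (1, k)) (by fun_prop))⟩, fun a b => by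
    show Lb (sl 1 a b) = Lb (sl 1 b a)
    rw [hs]⟩

/-- The family `[s, Lb (sl 1 a b)]`. -/
def fT1 : FS N4 (E.cp.pt B4) := US (un4 E) (fT1p sl hc hs)

/-- The family `[s, base line]`. -/
def fT2 : FS N4 (E.cp.pt B4) := US (un4 E) ⟨ContinuousMap.const _ (PL.one B4), fun _ _ => rfl⟩

theorem fT2_null : GenLoop.Homotopic (tp (fT2 E)) GenLoop.const :=
  tp_null (fT2 E) fun _ _ _ _ => rfl

theorem fT2_res : post (rsC (E.cp.X B4)) rsC_pt (fT2 E) =
    UL (un4 E) (ContinuousMap.const _ (PL.one B4)) := rfl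

/-- The bottom of the homotopy. -/
theorem T1_bot (s : Pt Unit (Unit ⊕ Fin 2) → I) (h0 : ∀ a b, sl 0 a b = PL.tens ![ln a.1, ln b.1]) :
    (Sm.mk (un4 E (trd s)) (Lb (sl 0 (tdr s).1 (tdr s).2)) : Sm (E.pt B4) (PL B4)) =
    lrho eT bD (CSRS.prod (E.bott (Fin 2)) (E.cp.unit D4)) s := by
  have hR : lrho eT bD (CSRS.prod (E.bott (Fin 2)) (E.cp.unit D4)) s =
      Sm.mk (E.map bD (E.mul (E.unit (Fin 2) fun c => rad fun i => s (Sum.inl (Sum.inl (c, i))))
        (E.unit D4 fun d => s (eT (Sum.inr d)))))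
      (Lb (PL.tens fun c => ln (cu c s))) := rfl
  rw [hR, E.unit_mul, E.map_unit]
  have hU : (Sum.elim (fun c : Fin 2 => rad fun i => s (Sum.inl (Sum.inl (c, i))))
      (fun d => s (eT (Sum.inr d)))) ∘ bD.symm = fun m => trd s (eN.symm m) := by
    funext m
    rcases m with ((r | u) | t) | u <;> rfl
  rw [hU, un4_apply]
  by_cases hb : ∃ r, cu r s = 0
  · obtain ⟨r, hr⟩ := hb
    have hbd : (fun m : B4 => trd s (eN.symm m)) ∈ Cube.boundary B4 :=
      ⟨eN (Sum.inl (Sum.inl r)), Or.inl (by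
        show trd s (eN.symm (eN (Sum.inl (Sum.inl r)))) = 0
        rw [Equiv.symm_apply_apply]
        exact rad_eq_zero hr)⟩
    have h1 : (E.unit B4 fun m => trd s (eN.symm m)) = E.pt B4 := (E.unit B4).2 _ hbd
    rw [h1]
    exact Sm.mk_pt _ _
  · push Not at hb
    rw [h0]
    have h1 : (![ln (tdr s).1.1, ln (tdr s).2.1] : Fin 2 → _) = fun c => ln (cu c s) := by
      funext c
      fin_cases c
      · exact ln_dr (hb 0)
      · exact ln_dr (hb 1)
    rw [h1]

variable [hF : Fact (SS E)]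

/-- The class of the symmetric family of lines is `1`. -/
theorem isC_T1 (h0 : ∀ a b, sl 0 a b = PL.tens ![ln a.1, ln b.1]) :
    IsC (tp (fT1 E sl hc hs)) 1 := by
  have h1 : IsC (lrho eT bD (CSRS.prod (E.bott (Fin 2)) (E.cp.unit D4))) (1 : StR E) := by
    rw [IsC.lrho_iff]
    have := (isC_bott (E := E) (A := Fin 2)).prod (isC_unit (E := E) (A := D4))
    rwa [mul_one] at this
  refine h1.homotopic ?_
  refine homotopic_of (fun p => Sm.mk (un4 E (trd p.2)) (Lb (sl p.1 (tdr p.2).1 (tdr p.2).2)))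
    ?_ ?_ ?_ ?_
  · have hF : Continuous fun p : (I × (N4 → I)) × (S2 × S2) =>
        (Sm.mk (un4 E p.1.2) (Lb (sl p.1.1 p.2.1 p.2.2)) : Sm (E.pt B4) (PL B4)) :=
      Sm.isQuotientMap.continuous.comp (((un4 E).1.continuous.comp
        (continuous_snd.comp continuous_fst)).prodMk (continuous_Lb.comp
          (hc.comp ((continuous_fst.comp continuous_fst).prodMk continuous_snd))))
    refine continuous_part hF (D := {t | t.2 ∈ Cube.boundary N4}) ?_
      (g := fun p : I × (Pt Unit (Unit ⊕ Fin 2) → I) => (p.1, trd p.2)) (k := fun p => tdr p.2)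
      (continuous_fst.prodMk (continuous_trd.comp continuous_snd)) ?_
    · intro t ht k k'
      have e : un4 E t.2 = E.pt B4 := (un4 E).2 _ ht
      show Sm.mk (un4 E t.2) _ = Sm.mk (un4 E t.2) _
      rw [e]
      exact Sm.mk_pt _ _
    · intro p hp
      exact ContinuousAt.comp (g := tdr) (f := Prod.snd) (x := p) (continuousAt_tdr hp)
        continuousAt_snd
  · intro s
    exact T1_bot E sl s h0
  · intro s
    rfl
  · intro τ s hs'
    have e : un4 E (trd s) = E.pt B4 := (un4 E).2 _ (trd_bdry hs')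
    show Sm.mk (un4 E (trd s)) _ = _
    rw [e]
    exact mk_pt' _

omit hF

/-- `pl r4` and `pl k4` are homotopic. -/
theorem pl_homotopic (u : E.L N4 B4) (i j : B4) : GenLoop.Homotopic (UL u (pl i)) (UL u (pl j)) := by
  obtain ⟨K, kc, k0, k1⟩ := T2.PL.exists_homotopy (Equiv.swap i j)
  refine GenLoop.Homotopic.symm (UL_homotopic u (fun p => K (p.1, pl i p.2)) (kc.comp
    (continuous_fst.prodMk ((pl i).continuous.comp continuous_snd))) ?_ ?_)
  · intro a
    rw [k0, pl_apply, pl_apply]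
    rw [← T2.PL.map_tens (Equiv.swap i j) (fun m => if m = j then ln a.1 else ln np.1)]
    congr 2
    funext m
    have hm : Equiv.swap i j m = j ↔ m = i := by
      rw [← Equiv.eq_symm_apply, Equiv.symm_swap, Equiv.swap_apply_right]
    by_cases h : m = i
    · rw [if_pos h, if_pos (hm.2 h)]
    · rw [if_neg h, if_neg fun h' => h (hm.1 h')]
  · intro a
    exact k1 _

/-- The restriction to `b = np`. -/
theorem T1_res (h0 : ∀ a b, sl 0 a b = PL.tens ![ln a.1, ln b.1]) :
    GenLoop.Homotopic (post (rsC (E.cp.X B4)) rsC_pt (fT1 E sl hc hs)) (UL (un4 E) (pl k4)) := by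
  have h1 : GenLoop.Homotopic (post (rsC (E.cp.X B4)) rsC_pt (fT1 E sl hc hs))
      (UL (un4 E) (pl r4)) := by
    unfold fT1
    rw [rs_US]
    refine UL_homotopic _ (fun p => Lb (sl (σ p.1) p.2 np)) ?_ ?_ ?_
    · exact continuous_Lb.comp (hc.comp (g := fun p : I × (S2 × S2) => sl p.1 p.2.1 p.2.2)
        (f := fun p : I × S2 => (σ p.1, (p.2, np))) (by fun_prop))
    · intro a
      show Lb (sl (σ 0) a np) = Lb (sl 1 a np)
      rw [unitInterval.symm_zero]
    · intro a
      show Lb (sl (σ 1) a np) = pl r4 a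
      rw [unitInterval.symm_one, h0, Lb_tens, pl_apply]
      congr 1
      funext m
      rcases m with ((r | u) | t) | u
      · fin_cases r <;> rfl
      · rfl
      · rfl
      · rfl
  exact h1.trans (pl_homotopic E _ _ _)

end T1

end Pool.Agent.Tate.R3
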