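import Pool.Agent.Lib.Tate.R.R3.Fin1
import Pool.Agent.Lib.Tate.R.R3.Fin2
import Pool.Agent.Lib.Tate.R.R3.T1
import Pool.Agent.Lib.Tate.R.R3.Sl
import Pool.Agent.Lib.Tate.Fin0

/-!
# C42 (MP_071d69_gt), block R3 (helper47): the relation `1 = bet u + 2 v`
-/

set_option linter.unusedSectionVars false

open Topology unitInterval Filter Set
open scoped Topology.Homotopy

noncomputable section

namespace Pool.Agent.Tate.R3

open CSRS T2

/-- **r3'.** The ideal generated by the class of `bet` and `2` is the unit ideal. -/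
theorem r3 : ∃ u v : StR WS, 1 = StR.c (inc bet) * u + 2 * v := by
  obtain ⟨bb, g, hg, h⟩ := axis (fT1 WS sl continuous_sl sl_one) (fT2 WS)
    (T1_res WS sl continuous_sl sl_one sl_zero) (fT2_res WS)
  refine final _ _ g bb h (isC_T1 WS sl continuous_sl sl_one sl_zero) (fT2_null WS) ?_
  -- the class of `tp g` exists
  have c1 : Fintype.card (Pt Unit (Unit ⊕ Fin 2)) = Fintype.card ((Fin 2 × Fin 3) ⊕ D4) := by
    simp
  exact inI_tp g hg (isC_lrho_self (Fintype.equivOfCardEq c1) bD.symm (tp g))

end Pool.Agent.Tate.R3
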