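import Pool.Agent.Lib.Tate.R.R3.Cf

/-!
# C42 (MP_071d69_gt), block R3 (helper47): the sum of loops with orthogonal labels

`Wadd c d h`: the sum of two configurations with orthogonal labels.  `addL_homotopic`: if the labels
of `f s` and `g s'` are orthogonal whenever `s` and `s'` agree outside of the coordinate `i`, then
the loop `s ↦ f s + g s` is homotopic to `transAt i f g`.
-/

set_option linter.unusedSectionVars false

open Topology unitInterval Filter Set
open scoped Topology.Homotopy OnePoint ZeroAtInfty

noncomputable section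

namespace Pool.Agent.Tate.R3

open CSRS T2

section add

variable {N A : Type} [DecidableEq N] [Fintype A] [DecidableEq A]

/-- Orthogonal labels. -/
def Orw (c d : WX A) : Prop := ∀ y y', c.1.P y * d.1.P y' = 0

theorem Orw.symm {c d : WX A} (h : Orw c d) : Orw d c := fun y y' => Conf.orth_symm h y y'

theorem Orw_pt (c : WX A) : Orw c (Wpt A) := fun _ _ => mul_zero _

theorem pt_Orw (c : WX A) : Orw (Wpt A) c := fun _ _ => zero_mul _

/-- The sum. -/
def Wadd (c d : WX A) (h : Orw c d) : WX A :=
  ⟨Conf.add c.1 d.1 h, by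
    intro y a b
    show c.1.P (rot y) a b + d.1.P (rot y) a b = _ * (c.1.P y a b + d.1.P y a b)
    rw [c.2, d.2]
    ring⟩

theorem Wadd_P (c d : WX A) (h : Orw c d) (y : A → VV) :
    (Wadd c d h).1.P y = c.1.P y + d.1.P y := rfl

theorem Wadd_pt (c : WX A) (h : Orw c (Wpt A)) : Wadd c (Wpt A) h = c :=
  Subtype.ext (Conf.add_default _ h)

theorem pt_Wadd (c : WX A) (h : Orw (Wpt A) c) : Wadd (Wpt A) c h = c :=
  Subtype.ext (Conf.default_add _ h)

theorem continuous_Wadd {X : Type*} [TopologicalSpace X] {c d : X → WX A}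
    (hc : Continuous c) (hd : Continuous d) (h : ∀ x, Orw (c x) (d x)) :
    Continuous fun x => Wadd (c x) (d x) (h x) :=
  Continuous.subtype_mk (Conf.continuous_add (continuous_subtype_val.comp hc)
    (continuous_subtype_val.comp hd) h) _

/-- The labels of `f s` and `g s'` are orthogonal whenever `s` and `s'` agree outside of `i`. -/
def OrL (i : N) (f g : WS.L N A) : Prop := ∀ s s' : N → I, (∀ j, j ≠ i → s j = s' j) →
  Orw (A := A) (f s) (g s')

/-- The sum of two loops. -/
def addL (f g : WS.L N A) (h : ∀ s, Orw (A := A) (f s) (g s)) : WS.L N A :=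
  ⟨⟨fun s => Wadd (f s) (g s) (h s), continuous_Wadd f.1.continuous g.1.continuous h⟩, by
    intro s hs
    have h1 : f s = Wpt A := f.2 s hs
    have h2 : g s = Wpt A := g.2 s hs
    apply Subtype.ext
    refine Conf.ext (funext fun y => ?_)
    show (f s).1.P y + (g s).1.P y = 0
    rw [h1, h2]
    exact add_zero _⟩

theorem addL_apply (f g : WS.L N A) (h : ∀ s, Orw (A := A) (f s) (g s)) (s : N → I) :
    addL f g h s = Wadd (f s) (g s) (h s) := rfl

/-- The parameter of the first summand. -/
def e1 (i : N) (τ : I) (s : N → I) : N → I :=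
  Function.update s i (Set.projIcc 0 1 zero_le_one ((1 + (τ : ℝ)) * s i))

/-- The parameter of the second summand. -/
def e2 (i : N) (τ : I) (s : N → I) : N → I :=
  Function.update s i (Set.projIcc 0 1 zero_le_one ((1 + (τ : ℝ)) * s i - τ))

theorem continuous_e1 (i : N) : Continuous fun p : I × (N → I) => e1 i p.1 p.2 := by
  unfold e1
  refine Continuous.update continuous_snd i (continuous_projIcc.comp ?_)
  fun_prop

theorem continuous_e2 (i : N) : Continuous fun p : I × (N → I) => e2 i p.1 p.2 := by
  unfold e2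
  refine Continuous.update continuous_snd i (continuous_projIcc.comp ?_)
  fun_prop

theorem e1_of_ne {i j : N} (h : j ≠ i) (τ : I) (s : N → I) : e1 i τ s j = s j :=
  Function.update_of_ne h _ _

theorem e2_of_ne {i j : N} (h : j ≠ i) (τ : I) (s : N → I) : e2 i τ s j = s j :=
  Function.update_of_ne h _ _

theorem e1_self (i : N) (τ : I) (s : N → I) :
    e1 i τ s i = Set.projIcc 0 1 zero_le_one ((1 + (τ : ℝ)) * s i) :=
  Function.update_self _ _ _

theorem e2_self (i : N) (τ : I) (s : N → I) :
    e2 i τ s i = Set.projIcc 0 1 zero_le_one ((1 + (τ : ℝ)) * s i - τ) :=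
  Function.update_self _ _ _

theorem e1_bdry {i : N} (τ : I) {s : N → I} (h : s ∈ Cube.boundary N) :
    e1 i τ s ∈ Cube.boundary N := by
  obtain ⟨j, hj⟩ := h
  by_cases hji : j = i
  · subst hji
    refine ⟨j, ?_⟩
    rw [e1_self]
    rcases hj with hj | hj
    · left
      rw [hj]
      simp
    · right
      rw [hj]
      refine projIcc_of_right_le _ ?_
      have := τ.2.1
      simp
      exact this
  · exact ⟨j, by rw [e1_of_ne hji]; exact hj⟩

theorem e2_bdry {i : N} (τ : I) {s : N → I} (h : s ∈ Cube.boundary N) :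
    e2 i τ s ∈ Cube.boundary N := by
  obtain ⟨j, hj⟩ := h
  by_cases hji : j = i
  · subst hji
    refine ⟨j, ?_⟩
    rw [e2_self]
    rcases hj with hj | hj
    · left
      rw [hj]
      refine projIcc_of_le_left _ ?_
      have := τ.2.1
      simp
      exact this
    · right
      rw [hj]
      refine projIcc_of_right_le _ ?_
      simp
  · exact ⟨j, by rw [e2_of_ne hji]; exact hj⟩

/-- **Add lemma.** -/
theorem addL_homotopic (i : N) (f g : WS.L N A) (h : OrL i f g) :
    GenLoop.Homotopic (addL f g fun s => h s s fun _ _ => rfl) (GenLoop.transAt i f g) := by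
  have hor : ∀ p : I × (N → I), Orw (A := A) (f (e1 i p.1 p.2)) (g (e2 i p.1 p.2)) := fun p =>
    h _ _ fun j hj => by rw [e1_of_ne hj, e2_of_ne hj]
  have hf : ∀ s ∈ Cube.boundary N, f s = Wpt A := f.2
  have hg : ∀ s ∈ Cube.boundary N, g s = Wpt A := g.2
  refine homotopic_of (fun p => Wadd (f (e1 i p.1 p.2)) (g (e2 i p.1 p.2)) (hor p)) ?_ ?_ ?_ ?_
  · exact continuous_Wadd (f.1.continuous.comp (continuous_e1 i))
      (g.1.continuous.comp (continuous_e2 i)) hor
  · intro s
    have k1 : e1 i 0 s = s := by
      unfold e1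
      rw [Function.update_eq_self_iff]
      simp
    have k2 : e2 i 0 s = s := by
      unfold e2
      rw [Function.update_eq_self_iff]
      simp
    refine WX.ext fun y => ?_
    show (f (e1 i 0 s)).1.P y + (g (e2 i 0 s)).1.P y = (f s).1.P y + (g s).1.P y
    rw [k1, k2]
  · intro s
    have k1 : e1 i 1 s = Function.update s i (Set.projIcc 0 1 zero_le_one (2 * (s i : ℝ))) := by
      unfold e1
      norm_num
    have k2 : e2 i 1 s = Function.update s i (Set.projIcc 0 1 zero_le_one (2 * (s i : ℝ) - 1)) := by
      unfold e2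
      norm_num
    by_cases hs : (s i : ℝ) ≤ 1 / 2
    · have e : GenLoop.transAt i f g s = f (e1 i 1 s) := by
        rw [k1]
        exact if_pos hs
      have hb : g (e2 i 1 s) = Wpt A := hg _ ⟨i, Or.inl (by
        rw [e2_self]
        refine projIcc_of_le_left _ ?_
        simp
        linarith)⟩
      rw [e]
      refine WX.ext fun y => ?_
      show (f (e1 i 1 s)).1.P y + (g (e2 i 1 s)).1.P y = _
      rw [hb]
      exact add_zero _
    · have e : GenLoop.transAt i f g s = g (e2 i 1 s) := by
        rw [k2]
        exact if_neg hs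
      have hb : f (e1 i 1 s) = Wpt A := hf _ ⟨i, Or.inr (by
        rw [e1_self]
        refine projIcc_of_right_le _ ?_
        simp
        linarith)⟩
      rw [e]
      refine WX.ext fun y => ?_
      show (f (e1 i 1 s)).1.P y + (g (e2 i 1 s)).1.P y = _
      rw [hb]
      exact zero_add _
  · intro τ s hs
    refine WX.ext fun y => ?_
    show (f (e1 i τ s)).1.P y + (g (e2 i τ s)).1.P y = 0
    rw [hf _ (e1_bdry τ hs), hg _ (e2_bdry τ hs)]
    exact add_zero _

end add

end Pool.Agent.Tate.R3
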