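import Pool.Agent.Lib.Tate.R.R3.Us

/-!
# C42 (MP_071d69_gt), block R3 (helper47): the loop `bb` and the axis relation, general part
-/

set_option linter.unusedSectionVars false

open Topology unitInterval Filter Set
open scoped Topology.Homotopy

noncomputable section

namespace Pool.Agent.Tate.R3

open CSRS T2

section post

variable {N X Y : Type} [TopologicalSpace X] [TopologicalSpace Y] {x : X} {y : Y}
  [DecidableEq N] [Nonempty N]

theorem postH_one (φ : C(X, Y)) (hφ : φ x = y) :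
    postH (N := N) φ hφ (1 : HomotopyGroup N X x) = 1 := by
  have h := postH_mul φ hφ (1 : HomotopyGroup N X x) 1
  rw [_root_.mul_one] at h
  exact left_eq_mul.1 h

theorem postH_inv (φ : C(X, Y)) (hφ : φ x = y) (a : HomotopyGroup N X x) :
    postH φ hφ a⁻¹ = (postH φ hφ a)⁻¹ := by
  rw [eq_inv_iff_mul_eq_one, ← postH_mul, inv_mul_cancel, postH_one]

theorem relabH_one' {M : Type} [DecidableEq M] [Nonempty M] (e : M ≃ N) :
    relabH e (1 : HomotopyGroup M X x) = 1 := by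
  have h := relabH_mul e (1 : HomotopyGroup M X x) 1
  rw [_root_.mul_one] at h
  exact left_eq_mul.1 h

theorem relabH_inv' {M : Type} [DecidableEq M] [Nonempty M] (e : M ≃ N) (a : HomotopyGroup M X x) :
    relabH e a⁻¹ = (relabH e a)⁻¹ := by
  rw [eq_inv_iff_mul_eq_one, ← relabH_mul, inv_mul_cancel, relabH_one']

end post

section pl

variable {B D : Type} [Fintype B] [DecidableEq B] [Fintype D] [DecidableEq D]

theorem prod_lnm_np (a b : B → Bool) : ∏ c, lnm np.1 (a c) (b c) = mone B false a b := by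
  rw [lnm_np]
  unfold mone
  rw [Matrix.single_apply]
  by_cases h : (fun _ => false) = a ∧ (fun _ => false) = b
  · rw [if_pos h]
    obtain ⟨rfl, rfl⟩ := h
    simp
  · rw [if_neg h]
    have : ∃ c, ¬ (a c = false ∧ b c = false) := by
      by_contra h'
      push Not at h'
      exact h ⟨funext fun c => (h' c).1.symm, funext fun c => (h' c).2.symm⟩
    obtain ⟨c, hc⟩ := this
    exact Finset.prod_eq_zero (Finset.mem_univ c) (if_neg hc)

theorem pl_np (i : B) : pl i np = PL.one B := by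
  apply Subtype.ext
  ext a b
  show ∏ j, (if j = i then ln np.1 else ln np.1).1 (a j) (b j) = mone B false a b
  rw [← prod_lnm_np]
  refine Finset.prod_congr rfl fun j _ => ?_
  rw [ite_self]
  rfl

/-- The base line times the line `ln a`. -/
theorem one_mul_pl (i : D) (a : S2) : PL.mul (PL.one B) (pl i a) = pl (Sum.inr i) a := by
  apply Subtype.ext
  ext x y
  show mone B false (x ∘ Sum.inl) (y ∘ Sum.inl) *
      ∏ j, (if j = i then ln a.1 else ln np.1).1 ((x ∘ Sum.inr) j) ((y ∘ Sum.inr) j) =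
    ∏ j, (if j = (Sum.inr i : B ⊕ D) then ln a.1 else ln np.1).1 (x j) (y j)
  rw [Fintype.prod_sum_type, ← prod_lnm_np]
  refine congrArg₂ (· * ·) ?_ ?_
  · refine Finset.prod_congr rfl fun j _ => ?_
    rw [if_neg (by simp)]
    rfl
  · refine Finset.prod_congr rfl fun j _ => ?_
    by_cases h : j = i
    · rw [if_pos h, if_pos (by rw [h])]
      rfl
    · rw [if_neg h, if_neg (fun h' => h (Sum.inr_injective h'))]
      rfl

end pl

section La

variable (E : CSRS)

/-- `(s, a) ↦ [s, ln a]` -/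
def La : FL Unit (E.cp.pt Unit) := UL (E.unit Unit) (pl ())

/-- `(s, a) ↦ [s, base line]` -/
def L1 : FL Unit (E.cp.pt Unit) := UL (E.unit Unit) (ContinuousMap.const S2 (PL.one Unit))

theorem ev_La : post (evC (E.cp.X Unit)) evC_pt (La E) = post (evC (E.cp.X Unit)) evC_pt (L1 E) := by
  ext s
  show (Sm.mk (E.unit Unit s) (pl () np) : E.cp.X Unit) = Sm.mk (E.unit Unit s) (PL.one Unit)
  rw [pl_np]

theorem exists_bh : ∃ bh : FL Unit (E.cp.pt Unit), T2.cls bh = T2.cls (La E) * (T2.cls (L1 E))⁻¹ ∧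
    ∀ s, bh s np = E.cp.pt Unit := by
  obtain ⟨f, hf⟩ : ∃ f : FL Unit (E.cp.pt Unit), T2.cls f = T2.cls (La E) * (T2.cls (L1 E))⁻¹ := by
    induction (T2.cls (La E) * (T2.cls (L1 E))⁻¹) using cls_ind with | _ f
    exact ⟨f, rfl⟩
  have h1 : postH (evC (E.cp.X Unit)) evC_pt (T2.cls f) = 1 := by
    rw [hf, postH_mul, postH_inv, postH_mk, postH_mk, ev_La, mul_inv_cancel]
  rw [postH_mk, cls_one, cls_eq] at h1
  obtain ⟨g, hg, hg'⟩ := hepL f h1
  exact ⟨g, by rw [← hf, cls_eq.2 hg], hg'⟩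

end La

section bb

variable {E : CSRS}

/-- The adjoint of a based family. -/
def bbf (bh : FL Unit (E.cp.pt Unit)) (h : ∀ s, bh s np = E.cp.pt Unit) :
    E.cp.L (Unit ⊕ Fin 2) Unit :=
  ⟨⟨fun s => bh (fun i => s (Sum.inl i)) (tq fun i => s (Sum.inr i)),
    (FL.cont bh).comp (Continuous.prodMk (by fun_prop) (continuous_tq.comp (by fun_prop)))⟩, by
    rintro s ⟨i | i, hi⟩
    · exact FL.bdry bh ⟨i, hi⟩ _
    · have e : (tq fun i => s (Sum.inr i)) = np := tq_bdry ⟨i, hi⟩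
      show bh _ (tq fun i => s (Sum.inr i)) = _
      rw [e, h]⟩

theorem bbf_apply (bh : FL Unit (E.cp.pt Unit)) (h : ∀ s, bh s np = E.cp.pt Unit)
    (s : Unit ⊕ Fin 2 → I) :
    bbf bh h s = bh (fun i => s (Sum.inl i)) (tq fun i => s (Sum.inr i)) := rfl

variable {A C : Type} [Fintype A] [DecidableEq A] [Fintype C] [DecidableEq C]

variable (E A C) in
/-- The product of a point with a family. -/
def pfL : Pairing (E.cp.pt A) (ContinuousMap.const S2 (E.cp.pt C))
    (ContinuousMap.const S2 (E.cp.pt (A ⊕ C))) where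
  toFun x φ := ⟨fun a => E.cp.mul x (φ a), E.cp.continuous_mul.comp
    (continuous_const.prodMk φ.continuous)⟩
  cont := by
    refine ContinuousMap.continuous_of_continuous_uncurry _ ?_
    show Continuous fun p : (E.cp.X A × C(S2, E.cp.X C)) × S2 => E.cp.mul p.1.1 (p.1.2 p.2)
    exact E.cp.continuous_mul.comp ((continuous_fst.comp continuous_fst).prodMk
      (continuous_eval.comp ((continuous_snd.comp continuous_fst).prodMk continuous_snd)))
  left φ := ContinuousMap.ext fun a => E.cp.pt_mul _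
  right x := ContinuousMap.ext fun a => E.cp.mul_pt _

theorem pfL_apply {M N : Type} (w : E.cp.L M A) (f : FL N (E.cp.pt C)) (s : M ⊕ N → I) (a : S2) :
    pr (pfL E A C) w f s a = E.cp.mul (w fun i => s (Sum.inl i)) (f (fun i => s (Sum.inr i)) a) :=
  rfl

end bb

/-! ### From loops to families -/

section lo

variable {N X : Type} [TopologicalSpace X] {x : X}

/-- `lof g (s)(a) = g(s, vq a)` -/
def lof (g : Ω^ (N ⊕ Fin 2) X x) : FL N x :=
  mkL (fun s a => g (Sum.elim s (vq a))) (by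
    have h1 : Continuous fun p : (N → I) × (Fin 2 → I) => g.1 (Sum.elim p.1 p.2) :=
      g.1.continuous.comp (continuous_elim continuous_fst continuous_snd)
    exact KC_vq.comp h1 (fun y t ht t' ht' => by
      obtain ⟨i, hi⟩ := ht
      obtain ⟨j, hj⟩ := ht'
      rw [g.2 _ ⟨Sum.inr i, hi⟩, g.2 _ ⟨Sum.inr j, hj⟩]))
    fun s ⟨i, hi⟩ a => g.2 _ ⟨Sum.inl i, hi⟩

theorem lof_apply (g : Ω^ (N ⊕ Fin 2) X x) (s : N → I) (a : S2) :
    lof g s a = g (Sum.elim s (vq a)) := rfl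

theorem lof_homotopic {g g' : Ω^ (N ⊕ Fin 2) X x} (h : GenLoop.Homotopic g g') :
    GenLoop.Homotopic (lof g) (lof g') := by
  obtain ⟨H, hc, h0, h1, hb⟩ := Homotopic.exists_map h
  refine htL (fun p a => H (p.1, Sum.elim p.2 (vq a))) ?_ ?_ ?_ ?_
  · have e1 : Continuous fun p : (I × (N → I)) × (Fin 2 → I) => H (p.1.1, Sum.elim p.1.2 p.2) :=
      hc.comp ((continuous_fst.comp continuous_fst).prodMk
        (continuous_elim (continuous_snd.comp continuous_fst) continuous_snd))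
    exact KC_vq.comp e1 (fun y t ht t' ht' => by
      obtain ⟨i, hi⟩ := ht
      obtain ⟨j, hj⟩ := ht'
      rw [hb _ _ ⟨Sum.inr i, hi⟩, hb _ _ ⟨Sum.inr j, hj⟩])
  · intro s a; exact h0 _
  · intro s a; exact h1 _
  · rintro t s ⟨i, hi⟩ a
    exact hb _ _ ⟨Sum.inl i, hi⟩

end lo

/-! ### Rotation of `T` and `T'` -/

/-- `A3 ⊕ (Unit ⊕ Fin 2) ≃ N4 ⊕ Fin 2` -/
def eGa : A3 ⊕ (Unit ⊕ Fin 2) ≃ N4 ⊕ Fin 2 where
  toFun := Sum.elim (Sum.elim (fun i => Sum.inl (Sum.inl i)) Sum.inr) fun j => Sum.inl (Sum.inr j)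
  invFun := Sum.elim (Sum.elim (fun i => Sum.inl (Sum.inl i)) Sum.inr) fun t => Sum.inl (Sum.inr t)
  left_inv := by rintro ((i | t) | j) <;> rfl
  right_inv := by rintro ((i | j) | t) <;> rfl

/-- The two transpositions. -/
def sg : Equiv.Perm (N4 ⊕ Fin 2) :=
  (Equiv.swap (Sum.inr 0) (Sum.inl (Sum.inr (Sum.inr 0)))) *
    Equiv.swap (Sum.inr 1) (Sum.inl (Sum.inr (Sum.inr 1)))

theorem sign_sg : Equiv.Perm.sign sg = 1 := by
  unfold sg
  rw [Equiv.Perm.sign_mul, Equiv.Perm.sign_swap (by simp), Equiv.Perm.sign_swap (by simp)]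
  simp

theorem sg_apply (i : N4 ⊕ Fin 2) : sg i =
    Sum.elim (Sum.elim (fun i => Sum.inl (Sum.inl i)) (Sum.elim (fun u => Sum.inl (Sum.inr (Sum.inl u)))
      Sum.inr)) (fun t => Sum.inl (Sum.inr (Sum.inr t))) i := by
  revert i
  decide

variable {E : CSRS}

/-- The first loop. -/
def Ga (E : CSRS) (bb : E.cp.L (Unit ⊕ Fin 2) Unit) : E.cp.L (N4 ⊕ Fin 2) B4 :=
  relab eGa (CSRS.prod (inc (E.unit A3)) bb)

theorem Ga_apply (bb : E.cp.L (Unit ⊕ Fin 2) Unit) (s : N4 → I) (t : Fin 2 → I) :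
    Ga E bb (Sum.elim s t) = E.cp.mul (Sm.mk (E.unit A3 (Sum.elim (fun i => s (Sum.inl i)) t))
      (PL.one A3)) (bb fun i => s (Sum.inr i)) := by
  show E.cp.mul (Sm.mk (E.unit A3 _) (PL.one A3)) (bb _) = _
  congr 2
  congr 1
  funext i
  rcases i with i | i <;> rfl

theorem Gb_apply (bb : E.cp.L (Unit ⊕ Fin 2) Unit) (s : N4 → I) (t : Fin 2 → I) :
    relab sg (Ga E bb) (Sum.elim s t) = E.cp.mul (Sm.mk (E.unit A3
      (Sum.elim (fun i => s (Sum.inl i)) fun j => s (Sum.inr (Sum.inr j)))) (PL.one A3))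
      (bb (Sum.elim (fun u => s (Sum.inr (Sum.inl u))) t)) := by
  have e : (fun m => (Sum.elim s t : N4 ⊕ Fin 2 → I) (sg m)) = Sum.elim
      (Sum.elim (fun i => s (Sum.inl i)) (Sum.elim (fun u => s (Sum.inr (Sum.inl u))) t))
      fun j => s (Sum.inr (Sum.inr j)) := by
    funext m
    rw [sg_apply]
    rcases m with (i | (u | j)) | j <;> rfl
  show Ga E bb (fun m => (Sum.elim s t : N4 ⊕ Fin 2 → I) (sg m)) = _
  rw [e, Ga_apply]
  rfl

theorem Gb_homotopic (bb : E.cp.L (Unit ⊕ Fin 2) Unit) :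
    GenLoop.Homotopic (Ga E bb) (relab sg (Ga E bb)) := by
  rw [← cls_eq, ← relabH_mk, relabH_even sg sign_sg]

theorem lof_Gb (bh : FL Unit (E.cp.pt Unit)) (h : ∀ s, bh s np = E.cp.pt Unit) :
    lof (relab sg (Ga E (bbf bh h))) = relab eN.symm (pr (pfL E A3 Unit) (inc (E.unit A3)) bh) := by
  refine GenLoop.ext _ _ fun s => ContinuousMap.ext fun a => ?_
  show relab sg (Ga E (bbf bh h)) (Sum.elim s (vq a)) = _
  rw [Gb_apply, bbf_apply]
  show E.cp.mul _ (bh _ (tq (vq a))) = _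
  rw [tq_vq]
  show E.cp.mul (Sm.mk (E.unit A3 _) (PL.one A3)) (bh _ a) =
    E.cp.mul (Sm.mk (E.unit A3 _) (PL.one A3)) (bh _ a)
  congr 2
  congr 1
  funext i
  rcases i with i | i <;> rfl

theorem rel_La : relab eN.symm (pr (pfL E A3 Unit) (inc (E.unit A3)) (La E)) =
    UL (un4 E) (pl k4) := by
  refine GenLoop.ext _ _ fun s => ContinuousMap.ext fun a => ?_
  show Sm.mk (E.mul (E.unit A3 _) (E.unit Unit _)) (PL.mul (PL.one A3) (pl () a)) =
    Sm.mk (E.unit B4 _) (pl k4 a)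
  rw [E.unit_mul, one_mul_pl]
  congr 2
  funext i
  rcases i with i | i <;> rfl

theorem rel_L1 : relab eN.symm (pr (pfL E A3 Unit) (inc (E.unit A3)) (L1 E)) =
    UL (un4 E) (ContinuousMap.const S2 (PL.one B4)) := by
  refine GenLoop.ext _ _ fun s => ContinuousMap.ext fun a => ?_
  show Sm.mk (E.mul (E.unit A3 _) (E.unit Unit _)) (PL.mul (PL.one A3) (PL.one Unit)) =
    Sm.mk (E.unit B4 _) (PL.one B4)
  rw [E.unit_mul, PL.one_mul_one]
  congr 2
  funext i
  rcases i with i | i <;> rfl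

/-- The class of the family `lof (Ga bb)`. -/
theorem cls_lof (bh : FL Unit (E.cp.pt Unit)) (h : ∀ s, bh s np = E.cp.pt Unit)
    (hc : T2.cls bh = T2.cls (La E) * (T2.cls (L1 E))⁻¹) :
    T2.cls (lof (Ga E (bbf bh h))) = T2.cls (UL (un4 E) (pl k4)) *
      (T2.cls (UL (un4 E) (ContinuousMap.const S2 (PL.one B4))))⁻¹ := by
  rw [cls_eq.2 (lof_homotopic (Gb_homotopic (bbf bh h))), lof_Gb, ← relabH_mk, ← prH_mk, hc,
    prH_mul_right, prH_inv_right, relabH_mul, relabH_inv', prH_mk, prH_mk, relabH_mk, relabH_mk,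
    rel_La, rel_L1]

end Pool.Agent.Tate.R3
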