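import Pool.Agent.Lib.Tate.R.R3.Ax1

/-!
# C42 (MP_071d69_gt), block R3 (helper47): the family `T3` and the axis relation
-/

set_option linter.unusedSectionVars false

open Topology unitInterval Filter Set
open scoped Topology.Homotopy

noncomputable section

namespace Pool.Agent.Tate.R3

open CSRS T2

/-- A point of the space of the witness, with the base line. -/
def inx (x : WX A3) : WS.cp.X A3 := incC WS A3 x

theorem continuous_inx : Continuous inx := (incC WS A3).continuous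

theorem inx_pt : inx (Wpt A3) = WS.cp.pt A3 := rfl

/-- The product with `bb`. -/
def mbb (bb : WS.cp.L (Unit ⊕ Fin 2) Unit) (x : WX A3) (s : N4 → I) : WS.cp.X B4 :=
  WS.cp.mul (inx x) (bb fun i => s (Sum.inr i))

theorem continuous_bbr (bb : WS.cp.L (Unit ⊕ Fin 2) Unit) :
    Continuous fun s : N4 → I => bb fun i => s (Sum.inr i) :=
  bb.1.continuous.comp (by fun_prop)

theorem continuous_mbb (bb : WS.cp.L (Unit ⊕ Fin 2) Unit) :
    Continuous fun p : WX A3 × (N4 → I) => mbb bb p.1 p.2 :=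
  WS.cp.continuous_mul.comp (Continuous.prodMk (continuous_inx.comp continuous_fst)
    ((continuous_bbr bb).comp continuous_snd))

theorem mbb_pt (bb : WS.cp.L (Unit ⊕ Fin 2) Unit) (s : N4 → I) :
    mbb bb (Wpt A3) s = WS.cp.pt B4 := by
  unfold mbb
  rw [inx_pt]
  exact WS.cp.pt_mul _

theorem mbb_bdry (bb : WS.cp.L (Unit ⊕ Fin 2) Unit) (x : WX A3) {s : N4 → I}
    (h : ∃ i, s (Sum.inr i) = 0 ∨ s (Sum.inr i) = 1) : mbb bb x s = WS.cp.pt B4 := by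
  have e : (bb fun i => s (Sum.inr i)) = WS.cp.pt Unit := bb.2 _ h
  unfold mbb
  rw [e]
  exact WS.cp.mul_pt _

/-- The values of `T3`. -/
def T3f (bb : WS.cp.L (Unit ⊕ Fin 2) Unit) (t : I) (s : N4 → I) (k : S2 × S2) : WS.cp.X B4 :=
  mbb bb (xt (t : ℝ) (fun i => s (Sum.inl i)) k.1 k.2) s

theorem continuous_xt0 : Continuous fun p : (N4 → I) × (S2 × S2) =>
    xt (((0 : I) : ℝ)) (fun i => p.1 (Sum.inl i)) p.2.1 p.2.2 :=
  continuous_xt.comp (g := fun p : (I × (Fin 2 ⊕ Unit → I)) × (S2 × S2) =>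
    xt (p.1.1 : ℝ) p.1.2 p.2.1 p.2.2)
    (f := fun p : (N4 → I) × (S2 × S2) => ((0, fun i => p.1 (Sum.inl i)), p.2)) (by fun_prop)

theorem continuous_T3f (bb : WS.cp.L (Unit ⊕ Fin 2) Unit) :
    Continuous fun p : (N4 → I) × (S2 × S2) => T3f bb 0 p.1 p.2 :=
  (continuous_mbb bb).comp (continuous_xt0.prodMk continuous_fst)

theorem T3f_bdry (bb : WS.cp.L (Unit ⊕ Fin 2) Unit) (t : I) {s : N4 → I}
    (hs : s ∈ Cube.boundary N4) (k : S2 × S2) : T3f bb t s k = WS.cp.pt B4 := by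
  obtain ⟨i | i, hi⟩ := hs
  · unfold T3f
    rw [xt_bdry _ ⟨i, hi⟩, mbb_pt]
  · exact mbb_bdry bb _ ⟨i, hi⟩

theorem T3f_symm (bb : WS.cp.L (Unit ⊕ Fin 2) Unit) (s : N4 → I) (a b : S2) :
    T3f bb 0 s (a, b) = T3f bb 0 s (b, a) := by
  unfold T3f
  exact congrArg (fun x => mbb bb x s) (xt_symm _ a b)

/-- The family `T3`. -/
def T3 (bb : WS.cp.L (Unit ⊕ Fin 2) Unit) : FS N4 (WS.cp.pt B4) :=
  mkS (T3f bb 0) (continuous_T3f bb) (T3f_symm bb) fun _ hs k => T3f_bdry bb 0 hs k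

/-- The loop of `T3`. -/
theorem tp_T3 (bb : WS.cp.L (Unit ⊕ Fin 2) Unit) : tp (T3 bb) = CSRS.prod (inc Gam) bb := rfl

/-- The values of the deformation of the restriction of `T3` to `b = np`. -/
def T3n (bb : WS.cp.L (Unit ⊕ Fin 2) Unit) (t : I) (s : N4 → I) (a : S2) : WS.cp.X B4 :=
  mbb bb (xn (t : ℝ) (fun i => s (Sum.inl i)) a) s

theorem continuous_xn0 : Continuous fun p : (I × (N4 → I)) × S2 =>
    xn (p.1.1 : ℝ) (fun i => p.1.2 (Sum.inl i)) p.2 :=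
  continuous_xn.comp (g := fun p : (I × (Fin 2 ⊕ Unit → I)) × S2 => xn (p.1.1 : ℝ) p.1.2 p.2)
    (f := fun p : (I × (N4 → I)) × S2 => ((p.1.1, fun i => p.1.2 (Sum.inl i)), p.2)) (by fun_prop)

theorem continuous_T3n (bb : WS.cp.L (Unit ⊕ Fin 2) Unit) :
    Continuous fun p : (I × (N4 → I)) × S2 => T3n bb p.1.1 p.1.2 p.2 :=
  (continuous_mbb bb).comp (continuous_xn0.prodMk (continuous_snd.comp continuous_fst))

theorem T3n_bdry (bb : WS.cp.L (Unit ⊕ Fin 2) Unit) (t : I) {s : N4 → I}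
    (hs : s ∈ Cube.boundary N4) (a : S2) : T3n bb t s a = WS.cp.pt B4 := by
  obtain ⟨i | i, hi⟩ := hs
  · unfold T3n
    rw [xn_bdry _ ⟨i, hi⟩, mbb_pt]
  · exact mbb_bdry bb _ ⟨i, hi⟩

theorem T3_res (bb : WS.cp.L (Unit ⊕ Fin 2) Unit) :
    GenLoop.Homotopic (post (rsC (WS.cp.X B4)) rsC_pt (T3 bb)) (lof (Ga WS bb)) := by
  refine htL (fun p a => T3n bb p.1 p.2 a) (continuous_T3n bb) ?_ ?_ ?_
  · intro s a
    show mbb bb (xn (((0 : I) : ℝ)) (fun i => s (Sum.inl i)) a) s =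
      mbb bb (xt (((0 : I) : ℝ)) (fun i => s (Sum.inl i)) a np) s
    exact congrArg (fun x => mbb bb x s) (xn_zero _ a)
  · intro s a
    rw [lof_apply, Ga_apply]
    show mbb bb (xn (((1 : I) : ℝ)) (fun i => s (Sum.inl i)) a) s =
      mbb bb (Wunit' (Sum.elim (fun i => s (Sum.inl i)) (vq a))) s
    exact congrArg (fun x => mbb bb x s) (xn_one _ a)
  · intro t s hs a
    exact T3n_bdry bb t hs a

/-- **The axis relation.** -/
theorem axis (T1 : FS N4 (WS.cp.pt B4)) (T2' : FS N4 (WS.cp.pt B4))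
    (h1 : GenLoop.Homotopic (post (rsC (WS.cp.X B4)) rsC_pt T1) (UL (un4 WS) (pl k4)))
    (h2 : post (rsC (WS.cp.X B4)) rsC_pt T2' =
      UL (un4 WS) (ContinuousMap.const S2 (PL.one B4))) :
    ∃ (bb : WS.cp.L (Unit ⊕ Fin 2) Unit) (g : FS N4 (WS.cp.pt B4)),
      (∀ s a, (g s).1 (a, np) = WS.cp.pt B4) ∧
      T2.cls T1 = T2.cls g * T2.cls (T3 bb) * T2.cls T2' := by
  obtain ⟨bh, hbh, h⟩ := exists_bh WS
  set bb := bbf bh h with hbb
  have k1 : postH (rsC (WS.cp.X B4)) rsC_pt (T2.cls T1) = T2.cls (UL (un4 WS) (pl k4)) := by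
    rw [postH_mk, cls_eq.2 h1]
  have k2 : postH (rsC (WS.cp.X B4)) rsC_pt (T2.cls T2') =
      T2.cls (UL (un4 WS) (ContinuousMap.const S2 (PL.one B4))) := by
    rw [postH_mk, h2]
  have k3 : postH (rsC (WS.cp.X B4)) rsC_pt (T2.cls (T3 bb)) =
      T2.cls (UL (un4 WS) (pl k4)) *
      (T2.cls (UL (un4 WS) (ContinuousMap.const S2 (PL.one B4))))⁻¹ := by
    rw [postH_mk, cls_eq.2 (T3_res bb), hbb, cls_lof bh h hbh]
  obtain ⟨f, hf⟩ : ∃ f : FS N4 (WS.cp.pt B4),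
      T2.cls f = T2.cls T1 * (T2.cls T2')⁻¹ * (T2.cls (T3 bb))⁻¹ := by
    induction (T2.cls T1 * (T2.cls T2')⁻¹ * (T2.cls (T3 bb))⁻¹) using cls_ind with | _ f
    exact ⟨f, rfl⟩
  have h3 : postH (rsC (WS.cp.X B4)) rsC_pt (T2.cls f) = 1 := by
    rw [hf, postH_mul, postH_mul, postH_inv, postH_inv, k1, k2, k3, mul_inv_cancel]
  rw [postH_mk, cls_one, cls_eq] at h3
  obtain ⟨g, hg, hg'⟩ := hepS f h3
  refine ⟨bb, g, hg', ?_⟩
  rw [← cls_eq.2 hg, hf]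
  group

end Pool.Agent.Tate.R3
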