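import Pool.Agent.Lib.Tate.R.W

/-!
# C42 (MP_071d69_gt), block R3 (helper47): maps to the cube modulo its boundary, families

`KC κ`: the map `κ : Z → I^N` is continuous as a map to the sphere `I^N / ∂ I^N`.
-/

set_option linter.unusedSectionVars false

open Topology unitInterval Filter Set
open scoped Topology.Homotopy

noncomputable section

namespace Pool.Agent.Tate.R3

section KC

variable {N P Q M X Y Z : Type} [Fintype N] [Fintype P] [Fintype Q] [Fintype M]
  [TopologicalSpace X] [TopologicalSpace Y] [TopologicalSpace Z]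

/-- A function on the cube which vanishes exactly on the boundary. -/
def bd (t : N → I) : ℝ := ∏ i, (t i : ℝ) * (1 - t i)

theorem continuous_bd : Continuous (bd : (N → I) → ℝ) := by
  unfold bd
  fun_prop

theorem bd_nonneg (t : N → I) : 0 ≤ bd t :=
  Finset.prod_nonneg fun i _ => mul_nonneg (t i).2.1 (by linarith [(t i).2.2])

theorem bd_le_one (t : N → I) : bd t ≤ 1 :=
  Finset.prod_le_one (fun i _ => mul_nonneg (t i).2.1 (by linarith [(t i).2.2]))
    fun i _ => by nlinarith [(t i).2.1, (t i).2.2]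

theorem bd_eq_zero (t : N → I) : bd t = 0 ↔ t ∈ Cube.boundary N := by
  unfold bd
  rw [Finset.prod_eq_zero_iff]
  constructor
  · rintro ⟨i, -, hi⟩
    rcases mul_eq_zero.1 hi with h | h
    · exact ⟨i, Or.inl (Subtype.ext h)⟩
    · exact ⟨i, Or.inr (Subtype.ext (by
        show (t i : ℝ) = 1
        linarith))⟩
  · rintro ⟨i, hi | hi⟩
    · exact ⟨i, Finset.mem_univ _, by rw [hi]; simp⟩
    · exact ⟨i, Finset.mem_univ _, by rw [hi]; simp⟩

theorem bd_sum (t : N ⊕ M → I) : bd t = bd (fun i => t (Sum.inl i)) * bd fun i => t (Sum.inr i) := by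
  unfold bd
  rw [Fintype.prod_sum_type]

theorem isClosed_boundary : IsClosed (Cube.boundary N) := by
  have : Cube.boundary N = bd ⁻¹' {0} := by
    ext t
    exact (bd_eq_zero t).symm
  rw [this]
  exact isClosed_singleton.preimage continuous_bd

/-- `κ` is continuous as a map to the sphere `I^N / ∂ I^N`. -/
structure KC (κ : Z → (N → I)) : Prop where
  at' : ∀ z, κ z ∉ Cube.boundary N → ContinuousAt κ z
  bdc : Continuous fun z => bd (κ z)

theorem KC.of_continuous {κ : Z → (N → I)} (h : Continuous κ) : KC κ :=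
  ⟨fun _ _ => h.continuousAt, continuous_bd.comp h⟩

theorem KC.comp_continuous {κ : Z → (N → I)} (h : KC κ) {g : Y → Z} (hg : Continuous g) :
    KC fun y => κ (g y) :=
  ⟨fun y hy => ContinuousAt.comp (g := κ) (f := g) (h.at' _ hy) hg.continuousAt,
    h.bdc.comp hg⟩

/-- Maps out of the smash product. -/
theorem KC.comp {κ : Z → (N → I)} (h : KC κ) {F : Y × (N → I) → X} (hF : Continuous F)
    (hb : ∀ y, ∀ t ∈ Cube.boundary N, ∀ t' ∈ Cube.boundary N, F (y, t) = F (y, t')) :
    Continuous fun p : Y × Z => F (p.1, κ p.2) := by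
  rw [continuous_iff_continuousAt]
  rintro ⟨y, z⟩
  by_cases hz : κ z ∈ Cube.boundary N
  · intro W hW
    obtain ⟨W', hW', hWo, hWm⟩ := mem_nhds_iff.1 hW
    have ho : IsOpen (F ⁻¹' W') := hWo.preimage hF
    have hsub : ({y} : Set Y) ×ˢ Cube.boundary N ⊆ F ⁻¹' W' := by
      rintro ⟨y', t⟩ ⟨hy', ht⟩
      have hy'' : y' = y := hy'
      show F (y', t) ∈ W'
      rw [hy'', hb y t ht (κ z) hz]
      exact hWm
    obtain ⟨u, v, hu, hv, hxu, hkv, huv⟩ :=
      generalized_tube_lemma isCompact_singleton isClosed_boundary.isCompact ho hsub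
    -- `bd` is bounded from below outside of `v`
    have hev : ∀ᶠ z' in 𝓝 z, κ z' ∈ v := by
      by_cases hne : (vᶜ : Set (N → I)).Nonempty
      · obtain ⟨t₀, ht₀, hmin⟩ := hv.isClosed_compl.isCompact.exists_isMinOn hne
          continuous_bd.continuousOn
        have hpos : 0 < bd t₀ := by
          refine lt_of_le_of_ne (bd_nonneg _) ?_
          intro h0
          exact ht₀ (hkv ((bd_eq_zero _).1 h0.symm))
        have hlt : ∀ᶠ z' in 𝓝 z, bd (κ z') < bd t₀ := by
          refine h.bdc.continuousAt.eventually_lt continuousAt_const ?_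
          rw [(bd_eq_zero _).2 hz]
          exact hpos
        filter_upwards [hlt] with z' hz'
        by_contra hn
        exact absurd (hmin hn) (not_le.2 hz')
      · rw [Set.not_nonempty_iff_eq_empty, Set.compl_empty_iff] at hne
        rw [hne]
        exact Filter.univ_mem
    have h1 : ∀ᶠ p : Y × Z in 𝓝 (y, z), p.1 ∈ u :=
      continuous_fst.continuousAt.eventually (hu.mem_nhds (hxu rfl))
    have h2 : ∀ᶠ p : Y × Z in 𝓝 (y, z), κ p.2 ∈ v :=
      (continuous_snd.continuousAt (x := (y, z))).eventually (p := fun z' => κ z' ∈ v) hev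
    rw [Filter.mem_map]
    filter_upwards [h1, h2] with p hp1 hp2
    exact hW' (huv (⟨hp1, hp2⟩ : (p.1, κ p.2) ∈ u ×ˢ v))
  · refine ContinuousAt.comp (x := (y, z)) (g := F) (f := fun p : Y × Z => (p.1, κ p.2))
      hF.continuousAt ?_
    refine continuousAt_fst.prodMk ?_
    exact ContinuousAt.comp (g := κ) (f := Prod.snd) (x := (y, z)) (h.at' z hz) continuousAt_snd

theorem KC.comp' {κ : Z → (N → I)} (h : KC κ) {F : (N → I) → X} (hF : Continuous F)
    (hb : ∀ t ∈ Cube.boundary N, ∀ t' ∈ Cube.boundary N, F t = F t') :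
    Continuous fun z => F (κ z) := by
  have h1 := h.comp (Y := Unit) (F := fun p => F p.2) (hF.comp continuous_snd)
    (fun _ => hb)
  exact h1.comp (continuous_const.prodMk continuous_id : Continuous fun z : Z => ((), z))

/-- Composition of maps of spheres. -/
theorem KC.trans {κ : Z → (N → I)} (h : KC κ) {κ' : (N → I) → (M → I)} (h' : KC κ')
    (hb : ∀ t ∈ Cube.boundary N, κ' t ∈ Cube.boundary M) : KC fun z => κ' (κ z) where
  at' z hz := by
    have hz' : κ z ∉ Cube.boundary N := fun h1 => hz (hb _ h1)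
    exact ContinuousAt.comp (g := κ') (f := κ) (h'.at' _ hz) (h.at' z hz')
  bdc := h.comp' h'.bdc fun t ht t' ht' => by
    rw [(bd_eq_zero _).2 (hb t ht), (bd_eq_zero _).2 (hb t' ht')]

/-- Smash products of maps of spheres; the second one need not be continuous where the first one
is in the boundary. -/
theorem KC.sum {κ : Z → (N → I)} {κ' : Z → (M → I)} (h : KC κ)
    (h' : ∀ z, κ z ∉ Cube.boundary N → κ' z ∉ Cube.boundary M → ContinuousAt κ' z)
    (hb' : ∀ z, κ z ∉ Cube.boundary N → ContinuousAt (fun z => bd (κ' z)) z) :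
    KC fun z => (Sum.elim (κ z) (κ' z) : N ⊕ M → I) where
  at' z hz := by
    have h1 : κ z ∉ Cube.boundary N := fun ⟨i, hi⟩ => hz ⟨Sum.inl i, hi⟩
    have h2 : κ' z ∉ Cube.boundary M := fun ⟨i, hi⟩ => hz ⟨Sum.inr i, hi⟩
    refine continuousAt_pi.2 fun i => ?_
    rcases i with i | i
    · exact continuousAt_pi.1 (h.at' z h1) i
    · exact continuousAt_pi.1 (h' z h1 h2) i
  bdc := by
    have e : (fun z => bd (Sum.elim (κ z) (κ' z) : N ⊕ M → I)) =
        fun z => bd (κ z) * bd (κ' z) := by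
      funext z
      rw [bd_sum]
      rfl
    rw [e, continuous_iff_continuousAt]
    intro z
    by_cases hz : κ z ∈ Cube.boundary N
    · have h0 : bd (κ z) = 0 := (bd_eq_zero _).2 hz
      have ht : Tendsto (fun z => bd (κ z)) (𝓝 z) (𝓝 0) := by
        have := h.bdc.tendsto z
        rwa [h0] at this
      show Tendsto _ (𝓝 z) (𝓝 (bd (κ z) * bd (κ' z)))
      rw [h0, zero_mul]
      refine squeeze_zero (fun z' => mul_nonneg (bd_nonneg _) (bd_nonneg _)) (fun z' => ?_) ht
      exact mul_le_of_le_one_right (bd_nonneg _) (bd_le_one _)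
    · exact h.bdc.continuousAt.mul (hb' z hz)

omit [Fintype P] [Fintype Q] in
theorem continuous_elim {f : Z → P → I} {g : Z → Q → I} (hf : Continuous f) (hg : Continuous g) :
    Continuous fun z => (Sum.elim (f z) (g z) : P ⊕ Q → I) := by
  refine continuous_pi fun i => ?_
  rcases i with i | i
  · exact (continuous_apply i).comp hf
  · exact (continuous_apply i).comp hg

/-- Functions on `T × K` which do not depend on `K` over `D`: the second coordinate need not be
continuous over `D`. -/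
theorem continuous_part {T K : Type} [TopologicalSpace T] [TopologicalSpace K] [CompactSpace K]
    {F : T × K → X} (hF : Continuous F) {D : Set T} (hD : ∀ t ∈ D, ∀ k k', F (t, k) = F (t, k'))
    {g : Z → T} (hg : Continuous g) {k : Z → K} (hk : ∀ z, g z ∉ D → ContinuousAt k z) :
    Continuous fun z => F (g z, k z) := by
  rw [continuous_iff_continuousAt]
  intro z
  by_cases hz : g z ∈ D
  · intro W hW
    obtain ⟨W', hW', hWo, hWm⟩ := mem_nhds_iff.1 hW
    have ho : IsOpen (F ⁻¹' W') := hWo.preimage hF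
    have hsub : ({g z} : Set T) ×ˢ (Set.univ : Set K) ⊆ F ⁻¹' W' := by
      rintro ⟨t, k'⟩ ⟨ht, -⟩
      have ht' : t = g z := ht
      show F (t, k') ∈ W'
      rw [ht', hD (g z) hz k' (k z)]
      exact hWm
    obtain ⟨u, v, hu, hv, hxu, hkv, huv⟩ :=
      generalized_tube_lemma isCompact_singleton isCompact_univ ho hsub
    have h1 : ∀ᶠ z' in 𝓝 z, g z' ∈ u := hg.continuousAt.eventually (hu.mem_nhds (hxu rfl))
    rw [Filter.mem_map]
    filter_upwards [h1] with z' hz'
    exact hW' (huv (⟨hz', hkv trivial⟩ : (g z', k z') ∈ u ×ˢ v))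
  · exact ContinuousAt.comp (x := z) (g := F) (f := fun z => (g z, k z)) hF.continuousAt
      (hg.continuousAt.prodMk (hk z hz))

end KC

/-! ### Composition of loops with maps of spheres -/

section kl

variable {N P Q M X : Type} [Fintype N] [Fintype P] [Fintype Q] [Fintype M]
  [TopologicalSpace X] {x : X}

/-- A based map of spheres `I^P / ∂ → I^N / ∂`. -/
structure SM (P N : Type) [Fintype N] where
  /-- the map -/
  f : (P → I) → (N → I)
  kc : KC f
  bdry : ∀ s ∈ Cube.boundary P, f s ∈ Cube.boundary N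

/-- `(s, q) ↦ f (κ s, q)`. -/
def cm (κ : SM P N) (f : Ω^ (N ⊕ Q) X x) : Ω^ (P ⊕ Q) X x :=
  ⟨⟨fun s => f (Sum.elim (κ.f fun i => s (Sum.inl i)) fun i => s (Sum.inr i)), by
    have h1 : Continuous fun p : (Q → I) × (N → I) => f.1 (Sum.elim p.2 p.1) :=
      f.1.continuous.comp (continuous_elim continuous_snd continuous_fst)
    have h2 := κ.kc.comp h1 (fun y t ht t' ht' => by
      obtain ⟨i, hi⟩ := ht
      obtain ⟨j, hj⟩ := ht'
      rw [f.2 _ ⟨Sum.inl i, hi⟩, f.2 _ ⟨Sum.inl j, hj⟩])
    exact h2.comp (g := fun p : (Q → I) × (P → I) => f.1 (Sum.elim (κ.f p.2) p.1))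
      (f := fun s : P ⊕ Q → I => (fun i => s (Sum.inr i), fun i => s (Sum.inl i)))
      (by fun_prop)⟩, by
    rintro s ⟨i | i, hi⟩
    · obtain ⟨j, hj⟩ := κ.bdry (fun i => s (Sum.inl i)) ⟨i, hi⟩
      exact f.2 _ ⟨Sum.inl j, hj⟩
    · exact f.2 _ ⟨Sum.inr i, hi⟩⟩

theorem cm_apply (κ : SM P N) (f : Ω^ (N ⊕ Q) X x) (s : P ⊕ Q → I) :
    cm κ f s = f (Sum.elim (κ.f fun i => s (Sum.inl i)) fun i => s (Sum.inr i)) := rfl

/-- `f ∘ κ`. -/
def cm0 (κ : SM P N) (f : Ω^ N X x) : Ω^ P X x :=
  ⟨⟨fun s => f (κ.f s), κ.kc.comp' f.1.continuous fun t ht t' ht' =>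
    (f.2 t ht).trans (f.2 t' ht').symm⟩, fun s hs => f.2 _ (κ.bdry s hs)⟩

theorem cm0_apply (κ : SM P N) (f : Ω^ N X x) (s : P → I) : cm0 κ f s = f (κ.f s) := rfl

end kl

end Pool.Agent.Tate.R3
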