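import Pool.Agent.Lib.Tate.R.R3.Cf

/-!
# C42 (MP_071d69_gt), block R3 (helper47): the class `bet`

`Jm i j m`: the operator `m` on `ℂ²` transported to the span of the basis vectors `δ_0` and `δ_v`,
`v i = 1`, `v j = 3`, `v = 0` else, of `(ℂ⁴)^{⊗ A}`.
-/

set_option linter.unusedSectionVars false

open Topology unitInterval Filter Set
open scoped Topology.Homotopy OnePoint ZeroAtInfty

noncomputable section

namespace Pool.Agent.Tate.R3

open CSRS T2

section J

variable {A B C Z : Type} [Fintype A] [DecidableEq A] [Fintype B] [DecidableEq B]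
  [Fintype C] [DecidableEq C] [TopologicalSpace Z]

/-- The two basis vectors. -/
def jv (i j : A) (b : Bool) : A → ZMod 4 :=
  if b then fun a => if a = i then 1 else if a = j then 3 else 0 else fun _ => 0

theorem jv_false (i j : A) : jv i j false = fun _ => 0 := rfl

theorem jv_true (i j : A) : jv i j true = fun a => if a = i then 1 else if a = j then 3 else 0 := rfl

theorem jv_injective (i j : A) : Function.Injective (jv i j) := by
  have h : jv i j false ≠ jv i j true := by
    intro h
    have h1 := congrFun h i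
    rw [jv_true, jv_false] at h1
    simp only [if_true] at h1
    exact absurd h1 (by decide)
  intro b b' hb
  cases b <;> cases b'
  · rfl
  · exact absurd hb h
  · exact absurd hb.symm h
  · rfl

theorem chi_jv {i j : A} (hij : i ≠ j) (b : Bool) : chi (jv i j b) = 1 := by
  cases b
  · exact chi_zero
  · unfold chi
    rw [jv_true]
    have h1 : (∏ x, Complex.I ^ ((fun a => if a = i then (1 : ZMod 4) else if a = j then 3 else 0)
        x).val) = ∏ x, (if x = i then Complex.I else if x = j then Complex.I ^ 3 else 1) := by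
      refine Finset.prod_congr rfl fun x _ => ?_
      by_cases hx : x = i
      · simp only [hx, if_true]
        have : ((1 : ZMod 4)).val = 1 := rfl
        rw [this, pow_one]
      · by_cases hx' : x = j
        · simp only [hx', if_true, if_neg hij.symm]
          have : ((3 : ZMod 4)).val = 3 := rfl
          rw [this]
        · simp only [if_neg hx, if_neg hx']
          have : ((0 : ZMod 4)).val = 0 := rfl
          rw [this, pow_zero]
    rw [h1, Finset.prod_eq_mul i j hij]
    · rw [if_pos rfl, if_neg hij.symm, if_pos rfl, ← pow_succ']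
      exact Complex.I_pow_four
    · intro c _ hc
      rw [if_neg hc.1, if_neg hc.2]
    · intro h; exact absurd (Finset.mem_univ _) h
    · intro h; exact absurd (Finset.mem_univ _) h

/-- Transport of operators on `ℂ²`. -/
def Jm (i j : A) (m : Matrix Bool Bool ℂ) : Mt A (ZMod 4) := fun x y =>
  ∑ b, ∑ b', if x = jv i j b ∧ y = jv i j b' then m b b' else 0

theorem Jm_apply (i j : A) (m : Matrix Bool Bool ℂ) (b b' : Bool) :
    Jm i j m (jv i j b) (jv i j b') = m b b' := by
  unfold Jm
  rw [Finset.sum_eq_single b, Finset.sum_eq_single b']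
  · rw [if_pos ⟨rfl, rfl⟩]
  · intro c _ hc
    rw [if_neg fun h => hc (jv_injective i j h.2).symm]
  · intro h; exact absurd (Finset.mem_univ _) h
  · intro c _ hc
    refine Finset.sum_eq_zero fun c' _ => ?_
    rw [if_neg fun h => hc (jv_injective i j h.1).symm]
  · intro h; exact absurd (Finset.mem_univ _) h

theorem Jm_left {i j : A} (m : Matrix Bool Bool ℂ) {x : A → ZMod 4} (hx : ∀ b, x ≠ jv i j b)
    (y : A → ZMod 4) : Jm i j m x y = 0 := by
  unfold Jm
  refine Finset.sum_eq_zero fun b _ => Finset.sum_eq_zero fun b' _ => ?_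
  rw [if_neg fun h => hx b h.1]

theorem Jm_right {i j : A} (m : Matrix Bool Bool ℂ) {y : A → ZMod 4} (hy : ∀ b, y ≠ jv i j b)
    (x : A → ZMod 4) : Jm i j m x y = 0 := by
  unfold Jm
  refine Finset.sum_eq_zero fun b _ => Finset.sum_eq_zero fun b' _ => ?_
  rw [if_neg fun h => hy b' h.2]

theorem Jm_ext {i j : A} {p : Mt A (ZMod 4)} {m : Matrix Bool Bool ℂ}
    (h : ∀ b b', p (jv i j b) (jv i j b') = m b b')
    (hl : ∀ x y, (∀ b, x ≠ jv i j b) → p x y = 0) (hr : ∀ x y, (∀ b, y ≠ jv i j b) → p x y = 0) :
    Jm i j m = p := by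
  ext x y
  by_cases hx : ∀ b, x ≠ jv i j b
  · rw [Jm_left m hx, hl x y hx]
  by_cases hy : ∀ b, y ≠ jv i j b
  · rw [Jm_right m hy, hr x y hy]
  push Not at hx hy
  obtain ⟨b, rfl⟩ := hx
  obtain ⟨b', rfl⟩ := hy
  rw [Jm_apply, h]

theorem Jm_mul (i j : A) (m n : Matrix Bool Bool ℂ) : Jm i j m * Jm i j n = Jm i j (m * n) := by
  refine (Jm_ext ?_ ?_ ?_).symm
  · intro b b'
    rw [Matrix.mul_apply, Matrix.mul_apply]
    have h : ∀ x, Jm i j m (jv i j b) x * Jm i j n x (jv i j b') =
        ∑ c, if x = jv i j c then m b c * n c b' else 0 := by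
      intro x
      by_cases hx : ∀ c, x ≠ jv i j c
      · rw [Jm_right m hx, zero_mul]
        refine (Finset.sum_eq_zero fun c _ => ?_).symm
        rw [if_neg (hx c)]
      · push Not at hx
        obtain ⟨c, rfl⟩ := hx
        rw [Jm_apply, Jm_apply, Finset.sum_eq_single c]
        · rw [if_pos rfl]
        · intro c' _ hc'
          rw [if_neg fun h => hc' (jv_injective i j h).symm]
        · intro h; exact absurd (Finset.mem_univ _) h
    rw [Finset.sum_congr rfl fun x _ => h x, Finset.sum_comm]
    refine Finset.sum_congr rfl fun c _ => ?_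
    rw [Finset.sum_ite_eq' Finset.univ (jv i j c)]
    simp
  · intro x y hx
    rw [Matrix.mul_apply]
    refine Finset.sum_eq_zero fun z _ => ?_
    rw [Jm_left m hx, zero_mul]
  · intro x y hy
    rw [Matrix.mul_apply]
    refine Finset.sum_eq_zero fun z _ => ?_
    rw [Jm_right n hy, mul_zero]

theorem Jm_conjTranspose (i j : A) (m : Matrix Bool Bool ℂ) :
    (Jm i j m).conjTranspose = Jm i j m.conjTranspose := by
  refine (Jm_ext ?_ ?_ ?_).symm
  · intro b b'
    rw [Matrix.conjTranspose_apply, Jm_apply]
    rfl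
  · intro x y hx
    rw [Matrix.conjTranspose_apply, Jm_right m hx, star_zero]
  · intro x y hy
    rw [Matrix.conjTranspose_apply, Jm_left m hy, star_zero]

theorem Jm_add (i j : A) (m n : Matrix Bool Bool ℂ) : Jm i j m + Jm i j n = Jm i j (m + n) := by
  refine (Jm_ext ?_ ?_ ?_).symm
  · intro b b'
    rw [Matrix.add_apply, Jm_apply, Jm_apply]
    rfl
  · intro x y hx
    rw [Matrix.add_apply, Jm_left m hx, Jm_left n hx, add_zero]
  · intro x y hy
    rw [Matrix.add_apply, Jm_right m hy, Jm_right n hy, add_zero]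

theorem Jm_zero (i j : A) : Jm i j (0 : Matrix Bool Bool ℂ) = 0 := by
  ext x y
  unfold Jm
  simp

theorem Jm_chi {i j : A} (hij : i ≠ j) (m : Matrix Bool Bool ℂ) (x y : A → ZMod 4) :
    Jm i j m x y = chi x * (starRingEnd ℂ) (chi y) * Jm i j m x y := by
  by_cases hx : ∀ b, x ≠ jv i j b
  · rw [Jm_left m hx, mul_zero]
  by_cases hy : ∀ b, y ≠ jv i j b
  · rw [Jm_right m hy, mul_zero]
  push Not at hx hy
  obtain ⟨b, rfl⟩ := hx
  obtain ⟨b', rfl⟩ := hy
  rw [chi_jv hij, chi_jv hij, map_one, _root_.one_mul, _root_.one_mul]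

theorem continuous_Jm (i j : A) : Continuous (Jm i j) := by
  unfold Jm
  refine continuous_pi fun x => continuous_pi fun y => ?_
  refine continuous_finsetSum _ fun b _ => continuous_finsetSum _ fun b' _ => ?_
  split_ifs
  · exact continuous_apply_apply _ _
  · exact continuous_const

theorem jv_comp (e : A ≃ B) (i j : A) (b : Bool) : jv (e i) (e j) b ∘ e = jv i j b := by
  cases b
  · rfl
  · funext a
    show (if e a = e i then (1 : ZMod 4) else if e a = e j then 3 else 0) = _
    rw [jv_true]
    simp only [e.apply_eq_iff_eq]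

theorem Jm_mre (e : A ≃ B) (i j : A) (m : Matrix Bool Bool ℂ) :
    mre e (Jm i j m) = Jm (e i) (e j) m := by
  refine (Jm_ext ?_ ?_ ?_).symm
  · intro b b'
    show Jm i j m (jv (e i) (e j) b ∘ e) (jv (e i) (e j) b' ∘ e) = _
    rw [jv_comp, jv_comp, Jm_apply]
  · intro x y hx
    refine Jm_left m (fun b h => hx b ?_) _
    rw [← jv_comp e] at h
    exact e.surjective.injective_comp_right h
  · intro x y hy
    refine Jm_right m (fun b h => hy b ?_) _
    rw [← jv_comp e] at h
    exact e.surjective.injective_comp_right h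

/-- The label of the first factor of a product. -/
theorem Jm_mpr (i j : A) (m : Matrix Bool Bool ℂ) :
    mpr (Jm i j m) (mone B (0 : ZMod 4)) = Jm (Sum.inl i) (Sum.inl j) m := by
  have hj : ∀ b, jv (Sum.inl i : A ⊕ B) (Sum.inl j) b ∘ Sum.inl = jv i j b := by
    intro b
    cases b
    · rfl
    · funext a
      show (if Sum.inl a = Sum.inl i then (1 : ZMod 4) else if Sum.inl a = Sum.inl j then 3
        else 0) = _
      rw [jv_true]
      simp only [Sum.inl.injEq]
  have hr : ∀ b, jv (Sum.inl i : A ⊕ B) (Sum.inl j) b ∘ Sum.inr = fun _ => 0 := by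
    intro b
    cases b
    · rfl
    · funext a
      show (if Sum.inr a = Sum.inl i then (1 : ZMod 4) else if Sum.inr a = Sum.inl j then 3
        else 0) = 0
      simp
  have key : ∀ x : A ⊕ B → ZMod 4, (∀ b, x ≠ jv (Sum.inl i) (Sum.inl j) b) →
      (∀ b, x ∘ Sum.inl ≠ jv i j b) ∨ (fun _ => 0) ≠ x ∘ Sum.inr := by
    intro x hx
    by_contra hn
    push Not at hn
    obtain ⟨⟨b, hb⟩, h0⟩ := hn
    refine hx b (funext fun a => ?_)
    rcases a with a | a
    · have h1 := congrFun hb a
      have h2 := congrFun (hj b) a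
      exact h1.trans h2.symm
    · have h1 := congrFun h0 a
      have h2 := congrFun (hr b) a
      exact h1.symm.trans h2.symm
  refine (Jm_ext ?_ ?_ ?_).symm
  · intro b b'
    show Jm i j m (jv _ _ b ∘ Sum.inl) (jv _ _ b' ∘ Sum.inl) *
      mone B 0 (jv _ _ b ∘ Sum.inr) (jv _ _ b' ∘ Sum.inr) = _
    rw [hj, hj, hr, hr, Jm_apply, mone_apply, if_pos ⟨rfl, rfl⟩, mul_one]
  · intro x y hx
    show Jm i j m _ _ * mone B 0 _ _ = 0
    rcases key x hx with h | h
    · rw [Jm_left m h, zero_mul]
    · rw [mone_apply, if_neg fun h' => h h'.1, mul_zero]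
  · intro x y hy
    show Jm i j m _ _ * mone B 0 _ _ = 0
    rcases key y hy with h | h
    · rw [Jm_right m h, zero_mul]
    · rw [mone_apply, if_neg fun h' => h h'.2, mul_zero]

/-- The projection onto `δ_0`. -/
theorem Jm_np (i j : A) : Jm i j (lnm np.1) = mone A 0 := by
  rw [lnm_np]
  refine Jm_ext ?_ ?_ ?_
  · intro b b'
    rw [mone_apply]
    have h : ∀ b, ((fun _ : A => (0 : ZMod 4)) = jv i j b) ↔ b = false := by
      intro b
      constructor
      · intro h
        rw [← jv_false i j] at h
        exact (jv_injective i j h).symm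
      · rintro rfl
        rfl
    simp only [h]
  · intro x y hx
    rw [mone_apply, if_neg fun h => hx false h.1.symm]
  · intro x y hy
    rw [mone_apply, if_neg fun h => hy false h.2.symm]

/-- One label: a line. -/
theorem OF_J {i j : A} (u : Fin 3 → ℝ) : OF fun _ : Unit => Jm i j (lnm u) where
  herm _ := by
    show (Jm i j _).conjTranspose = _
    rw [Jm_conjTranspose, show (lnm u).conjTranspose = lnm u from (ln u).2.1]
  idem _ := by rw [Jm_mul, show lnm u * lnm u = lnm u from (ln u).2.2.1]
  orth i j h := absurd (Subsingleton.elim i j) h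

/-- Two orthogonal lines. -/
theorem OF_J2 {i j : A} (a : S2) :
    OF fun b : Bool => Jm i j (lnm (if b then -a.1 else a.1)) where
  herm _ := by
    show (Jm i j _).conjTranspose = _
    rw [Jm_conjTranspose]
    congr 1
    exact (ln _).2.1
  idem _ := by
    rw [Jm_mul]
    congr 1
    exact (ln _).2.2.1
  orth b b' h := by
    rw [Jm_mul]
    cases b <;> cases b'
    · exact absurd rfl h
    · show Jm i j (lnm a.1 * lnm (-a.1)) = 0
      rw [lnm_mul_neg a.ne_zero, Jm_zero]
    · show Jm i j (lnm (-a.1) * lnm a.1) = 0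
      rw [lnm_neg_mul a.ne_zero, Jm_zero]
    · exact absurd rfl h

end J

/-! ### The class `bet` -/

section bet

/-- The index set of the coordinates of `bet`. -/
abbrev PB : Type := (Unit × Fin 3) ⊕ Unit

/-- The index set of the levels of `bet`. -/
abbrev LB : Type := Unit ⊕ Unit

/-- The point of the configuration `bet s`. -/
def bets (s : PB → I) : LB → I :=
  Sum.elim (fun _ => rad fun i => s (Sum.inl ((), i))) fun _ => s (Sum.inr ())

/-- The direction which determines the label of `bet s`. -/
def betu (s : PB → I) : Fin 3 → ℝ := ctr fun i => s (Sum.inl ((), i))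

theorem continuous_bets : Continuous bets := by
  refine continuous_elim ?_ (by fun_prop)
  exact continuous_pi fun _ => continuous_rad.comp (by fun_prop)

theorem continuous_betu : Continuous betu := continuous_ctr.comp (by fun_prop)

theorem bets_bdry {s : PB → I} (h : s ∈ Cube.boundary PB) : bets s ∈ Cube.boundary LB := by
  obtain ⟨⟨_, i⟩ | i, hi⟩ := h
  · exact ⟨Sum.inl (), Or.inr (rad_bdry ⟨i, hi⟩)⟩
  · exact ⟨Sum.inr (), hi⟩

theorem betu_zero {s : PB → I} (h : betu s = 0) : bets s ∈ Cube.boundary LB :=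
  ⟨Sum.inl (), Or.inl (rad_eq_zero h)⟩

theorem IV_bet (s : PB → I) : IV (fun _ : Unit => ps (bets s))
    (fun _ : Unit => Jm (Sum.inl () : LB) (Sum.inr ()) (lnm (betu s))) (Equiv.refl Unit) where
  pt _ := (rotE_ps _).symm
  lb _ a b := Jm_chi (by simp) _ a b

/-- The configuration `bet s`. -/
def betf (s : PB → I) : WX LB :=
  cfW (fun _ : Unit => ps (bets s)) (fun _ => Jm (Sum.inl ()) (Sum.inr ()) (lnm (betu s)))
    (OF_J _) (Equiv.refl Unit) (IV_bet s)

theorem continuous_betf : Continuous betf := by
  refine continuous_cfW (P := fun s (_ : Unit) => ps (bets s)) (fun s => OF_J (betu s)) _ IV_bet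
    (fun _ => continuous_ps.comp continuous_bets) fun s => Or.inl fun _ => ?_
  by_cases h : betu s = 0
  · exact Or.inl (ps_bdry (betu_zero h))
  · right
    refine ContinuousAt.comp (g := Jm (Sum.inl () : LB) (Sum.inr ()))
      (f := fun s => lnm (betu s)) (continuous_Jm _ _).continuousAt ?_
    refine continuousAt_pi.2 fun a => continuousAt_pi.2 fun b => ?_
    exact ContinuousAt.comp (g := fun u => lnm u a b) (f := betu) (continuousAt_lnm h a b)
      continuous_betu.continuousAt

theorem betf_bdry {s : PB → I} (h : s ∈ Cube.boundary PB) : betf s = Wpt LB :=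
  cfW_infty _ _ _ _ _ fun _ => ps_bdry (bets_bdry h)

/-- `bet (s, t) = {(rho (rad s), rho t); J (ln (ctr s))}`. -/
def bet : WS.L PB LB := ⟨⟨betf, continuous_betf⟩, fun _ hs => betf_bdry hs⟩

theorem bet_apply (s : PB → I) : bet s = betf s := rfl

theorem betf_P (s : PB → I) (y : LB → VV) :
    (betf s).1.P y = open Classical in if ps (bets s) = (y : OnePoint (LB → VV)) then
      Jm (Sum.inl ()) (Sum.inr ()) (lnm (betu s)) else 0 := cf_unit _ _ _ y

end bet

end Pool.Agent.Tate.R3
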