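import Pool.Agent.Lib.Tate.R.R3.Sph
import Pool.Agent.Lib.Tate.X.Lab

/-!
# C42 (MP_071d69_gt), block R3 (helper47): configurations given by finite families

`cf P p`: the points `P i` (possibly `∞`, then the point is omitted) with the labels `p i`
(mutually orthogonal projections; labels of equal points are added).  `cfW`: elements of `WX A`.
-/

set_option linter.unusedSectionVars false

open Topology unitInterval Filter Set
open scoped Topology.Homotopy OnePoint ZeroAtInfty

noncomputable section

namespace Pool.Agent.Tate.R3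

section cf

variable {ι Y J Z : Type} [Fintype ι] [Fintype J] [TopologicalSpace Z]

/-- Families of mutually orthogonal projections. -/
structure OF (p : ι → Matrix J J ℂ) : Prop where
  herm : ∀ i, (p i).IsHermitian
  idem : ∀ i, p i * p i = p i
  orth : ∀ i j, i ≠ j → p i * p j = 0

/-- A family of labels as a configuration on the index set. -/
def dc (p : ι → Matrix J J ℂ) (h : OF p) : Conf ι J :=
  ⟨p, Set.toFinite _, h.herm, h.idem, h.orth⟩

theorem ev_dc (p : ι → Matrix J J ℂ) (h : OF p) (f : ι → ℝ) :
    (dc p h).ev f = ∑ i, (f i : ℂ) • p i := by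
  unfold Conf.ev
  exact finsum_eq_sum_of_fintype _

/-- The configuration of the points `P i` with the labels `p i`. -/
def cf (P : ι → OnePoint Y) (p : ι → Matrix J J ℂ) (h : OF p) : Conf Y J :=
  Conf.push P (dc p h)

/-- Continuous functions which vanish at infinity on the one point compactification. -/
def ex (f : Y → ℝ) (y : OnePoint Y) : ℝ := OnePoint.elim y 0 f

theorem ev_cf (P : ι → OnePoint Y) (p : ι → Matrix J J ℂ) (h : OF p) (f : Y → ℝ) :
    (cf P p h).ev f = ∑ i, (ex f (P i) : ℂ) • p i := by
  unfold cf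
  rw [Conf.ev_push, ev_dc]
  rfl

theorem cf_P (P : ι → OnePoint Y) (p : ι → Matrix J J ℂ) (h : OF p) (y : Y) :
    (cf P p h).P y = ∑ i, open Classical in if P i = (y : OnePoint Y) then p i else 0 := by
  classical
  show Conf.pushP P (dc p h) y = _
  unfold Conf.pushP
  rw [Finset.sum_filter]
  refine (Finset.sum_subset (Finset.subset_univ _) ?_).trans ?_
  · intro i _ hi
    have h0 : p i = 0 := by
      by_contra h1
      exact hi (by
        rw [Set.Finite.mem_toFinset]
        exact h1)
    show (if _ then p i else 0) = 0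
    rw [h0]
    simp
  · exact Finset.sum_congr rfl fun i _ => by congr

theorem continuous_ex [TopologicalSpace Y] [T2Space Y] (f : C₀(Y, ℝ)) : Continuous (ex f) := by
  rw [continuous_iff_continuousAt]
  intro y
  cases y using OnePoint.rec with
  | infty =>
    rw [OnePoint.continuousAt_infty']
    have h1 : ((ex f : OnePoint Y → ℝ) ∘ ((↑) : Y → OnePoint Y)) = f := rfl
    rw [h1]
    show Tendsto f (coclosedCompact Y) (𝓝 0)
    rw [Filter.coclosedCompact_eq_cocompact]
    exact f.zero_at_infty'
  | coe y =>
    rw [OnePoint.continuousAt_coe]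
    exact f.continuous.continuousAt

theorem OF.norm_le {p : ι → Matrix J J ℂ} (h : OF p) (i : ι) (a b : J) : ‖p i a b‖ ≤ 1 := by
  classical
  have h1 := (h.herm i)
  have h2 := h.idem i
  -- `∑_b |p a b|² = p a a` and `|p a a|² ≤ p a a`
  have hd : ∀ a, p i a a = ((∑ b, ‖p i a b‖ ^ 2 : ℝ) : ℂ) := by
    intro a
    conv_lhs => rw [← h2]
    rw [Matrix.mul_apply]
    push_cast
    refine Finset.sum_congr rfl fun b _ => ?_
    have : p i b a = (starRingEnd ℂ) (p i a b) := by
      conv_lhs => rw [← h1]
      rfl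
    rw [this, Complex.mul_conj, Complex.normSq_eq_norm_sq]
    push_cast
    rfl
  set S := ∑ b, ‖p i a b‖ ^ 2 with hS
  have hS0 : 0 ≤ S := Finset.sum_nonneg fun _ _ => by positivity
  have hn : ‖p i a a‖ = S := by
    rw [hd a, Complex.norm_real, Real.norm_eq_abs, abs_of_nonneg hS0]
  have ha : ‖p i a a‖ ^ 2 ≤ S :=
    Finset.single_le_sum (f := fun b => ‖p i a b‖ ^ 2) (fun _ _ => by positivity)
      (Finset.mem_univ a)
  have hS1 : S ≤ 1 := by
    rw [hn] at ha
    nlinarith
  have hb : ‖p i a b‖ ^ 2 ≤ S :=
    Finset.single_le_sum (f := fun b => ‖p i a b‖ ^ 2) (fun _ _ => by positivity)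
      (Finset.mem_univ b)
  nlinarith [norm_nonneg (p i a b)]

/-- Continuity of families: at every `z` either every label is continuous or its point is `∞`, or
all points are equal and the sum of the labels is continuous. -/
theorem continuous_cf [TopologicalSpace Y] [T2Space Y] {P : Z → ι → OnePoint Y} {p : Z → ι → Matrix J J ℂ}
    (h : ∀ z, OF (p z)) (hP : ∀ i, Continuous fun z => P z i)
    (hc : ∀ z, (∀ i, P z i = ∞ ∨ ContinuousAt (fun z => p z i) z) ∨
      ((∀ i j, P z i = P z j) ∧ ContinuousAt (fun z => ∑ i, p z i) z)) :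
    Continuous fun z => cf (P z) (p z) (h z) := by
  rw [Conf.continuous_iff]
  intro f
  simp only [ev_cf]
  refine continuous_pi fun a => continuous_pi fun b => ?_
  simp only [Matrix.sum_apply, Matrix.smul_apply, smul_eq_mul]
  have hg : ∀ i, Continuous fun z => ((ex f (P z i) : ℝ) : ℂ) := fun i =>
    Complex.continuous_ofReal.comp ((continuous_ex f).comp (hP i))
  rw [continuous_iff_continuousAt]
  intro z
  -- products with a function which tends to zero
  have hz : ∀ (g : Z → ℂ) (q : Z → ℂ), ContinuousAt g z → g z = 0 → (∀ z, ‖q z‖ ≤ 1) →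
      ContinuousAt (fun z => g z * q z) z := by
    intro g q hg hg0 hq
    show Tendsto _ _ (𝓝 (g z * q z))
    rw [hg0, zero_mul]
    rw [tendsto_zero_iff_norm_tendsto_zero]
    have h1 : Tendsto (fun z => ‖g z‖) (𝓝 z) (𝓝 0) := by
      have := hg.norm
      have h2 : Tendsto (fun z => ‖g z‖) (𝓝 z) (𝓝 ‖g z‖) := this
      rwa [hg0, norm_zero] at h2
    refine squeeze_zero (fun _ => norm_nonneg _) (fun z' => ?_) h1
    rw [norm_mul]
    exact mul_le_of_le_one_right (norm_nonneg _) (hq z')
  rcases hc z with hc | ⟨he, hc⟩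
  · refine tendsto_finsetSum _ fun i _ => ?_
    rcases hc i with hi | hi
    · refine hz (fun z => ((ex f (P z i) : ℝ) : ℂ)) (fun z => p z i a b) (hg i).continuousAt ?_
        fun z => (h z).norm_le i a b
      show ((ex f (P z i) : ℝ) : ℂ) = 0
      rw [hi]
      exact Complex.ofReal_zero
    · refine ContinuousAt.mul (hg i).continuousAt ?_
      exact continuousAt_pi.1 (continuousAt_pi.1 hi a) b
  · by_cases hι : Nonempty ι
    · obtain ⟨i₀⟩ := hι
      have e : (fun z => ∑ i, ((ex f (P z i) : ℝ) : ℂ) * p z i a b) = fun z =>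
          ((ex f (P z i₀) : ℝ) : ℂ) * (∑ i, p z i) a b +
            ∑ i, (((ex f (P z i) : ℝ) : ℂ) - ((ex f (P z i₀) : ℝ) : ℂ)) * p z i a b := by
        funext z
        rw [Matrix.sum_apply, Finset.mul_sum, ← Finset.sum_add_distrib]
        refine Finset.sum_congr rfl fun i _ => ?_
        ring
      rw [e]
      refine ContinuousAt.add ?_ ?_
      · exact (hg i₀).continuousAt.mul (continuousAt_pi.1 (continuousAt_pi.1 hc a) b)
      · refine tendsto_finsetSum _ fun i _ => ?_
        refine hz (fun z => ((ex f (P z i) : ℝ) : ℂ) - ((ex f (P z i₀) : ℝ) : ℂ))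
          (fun z => p z i a b) ((hg i).sub (hg i₀)).continuousAt ?_
          fun z => (h z).norm_le i a b
        show ((ex f (P z i) : ℝ) : ℂ) - ((ex f (P z i₀) : ℝ) : ℂ) = 0
        rw [he i i₀, sub_self]
    · rw [not_nonempty_iff] at hι
      have e : (fun z => ∑ i, ((ex f (P z i) : ℝ) : ℂ) * p z i a b) = fun _ => 0 := by
        funext z
        exact Finset.sum_of_isEmpty _
      rw [e]
      exact continuousAt_const

omit [Fintype J] in
theorem cf_unit [Fintype J] (P : Unit → OnePoint Y) (p : Unit → Matrix J J ℂ) (h : OF p) (y : Y) :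
    (cf P p h).P y = open Classical in if P () = (y : OnePoint Y) then p () else 0 := by
  rw [cf_P, Fintype.sum_unique]

theorem cf_bool (P : Bool → OnePoint Y) (p : Bool → Matrix J J ℂ) (h : OF p) (y : Y) :
    (cf P p h).P y = open Classical in (if P true = (y : OnePoint Y) then p true else 0) +
      if P false = (y : OnePoint Y) then p false else 0 := by
  rw [cf_P, Fintype.sum_bool]

theorem cf_infty (P : ι → OnePoint Y) (p : ι → Matrix J J ℂ) (h : OF p) (hP : ∀ i, P i = ∞) :
    cf P p h = default := by
  apply Conf.eq_default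
  intro y
  rw [cf_P]
  refine Finset.sum_eq_zero fun i _ => ?_
  rw [hP i, if_neg (OnePoint.infty_ne_coe _)]

end cf

/-! ### Elements of `WX A` -/

section W

variable {ι A B C Z : Type} [Fintype ι] [Fintype A] [DecidableEq A] [Fintype B] [DecidableEq B]
  [Fintype C] [DecidableEq C] [TopologicalSpace Z]

/-- The action of the generator of the cyclic group on the one point compactification. -/
def rotE (y : OnePoint (A → VV)) : OnePoint (A → VV) := OnePoint.elim y ∞ fun y => (rot y : OnePoint _)

/-- Labels and points are invariant: the generator permutes the indices. -/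
structure IV (P : ι → OnePoint (A → VV)) (p : ι → Mt A (ZMod 4)) (e : Equiv.Perm ι) : Prop where
  pt : ∀ i, P (e i) = rotE (P i)
  lb : ∀ i a b, p (e i) a b = chi a * (starRingEnd ℂ) (chi b) * p i a b

/-- The invariant configuration of the points `P i` with the labels `p i`. -/
def cfW (P : ι → OnePoint (A → VV)) (p : ι → Mt A (ZMod 4)) (h : OF p) (e : Equiv.Perm ι)
    (he : IV P p e) : WX A :=
  ⟨cf P p h, by
    intro y a b
    rw [cf_P, cf_P, Matrix.sum_apply, Matrix.sum_apply, Finset.mul_sum]
    refine (Fintype.sum_equiv e _ _ fun i => ?_).symm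
    have h1 : P (e i) = (rot y : OnePoint (A → VV)) ↔ P i = (y : OnePoint (A → VV)) := by
      rw [he.pt]
      cases hi : P i using OnePoint.rec with
      | infty =>
        show (∞ : OnePoint (A → VV)) = _ ↔ _
        constructor
        · intro h; exact absurd h (OnePoint.infty_ne_coe _)
        · intro h; exact absurd h (OnePoint.infty_ne_coe _)
      | coe z =>
        show (rot z : OnePoint (A → VV)) = _ ↔ _
        rw [OnePoint.coe_eq_coe, OnePoint.coe_eq_coe]
        exact rot_injective.eq_iff
    by_cases h2 : P i = (y : OnePoint (A → VV))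
    · rw [if_pos h2, if_pos (h1.2 h2), he.lb]
    · rw [if_neg h2, if_neg fun h3 => h2 (h1.1 h3)]
      simp⟩

theorem cfW_val (P : ι → OnePoint (A → VV)) (p : ι → Mt A (ZMod 4)) (h : OF p)
    (e : Equiv.Perm ι) (he : IV P p e) : (cfW P p h e he).1 = cf P p h := rfl

theorem cfW_infty (P : ι → OnePoint (A → VV)) (p : ι → Mt A (ZMod 4)) (h : OF p)
    (e : Equiv.Perm ι) (he : IV P p e) (hP : ∀ i, P i = ∞) : cfW P p h e he = Wpt A :=
  Subtype.ext (cf_infty P p h hP)

theorem continuous_cfW {P : Z → ι → OnePoint (A → VV)} {p : Z → ι → Mt A (ZMod 4)}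
    (h : ∀ z, OF (p z)) (e : Equiv.Perm ι) (he : ∀ z, IV (P z) (p z) e)
    (hP : ∀ i, Continuous fun z => P z i)
    (hc : ∀ z, (∀ i, P z i = ∞ ∨ ContinuousAt (fun z => p z i) z) ∨
      ((∀ i j, P z i = P z j) ∧ ContinuousAt (fun z => ∑ i, p z i) z)) :
    Continuous fun z => cfW (P z) (p z) (h z) e (he z) :=
  Continuous.subtype_mk (continuous_cf h hP hc) _

/-- The point of `(1 + λ)^A` in the coordinates of the cube. -/
def ps (s : A → I) : OnePoint (A → VV) :=
  open Classical in if s ∈ Cube.boundary A then ∞ else (fun a => (rho (s a), 0) : A → VV)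

theorem ps_bdry {s : A → I} (h : s ∈ Cube.boundary A) : ps s = ∞ := if_pos h

theorem ps_of_not {s : A → I} (h : s ∉ Cube.boundary A) :
    ps s = ((fun a => (rho (s a), 0) : A → VV) : OnePoint (A → VV)) := if_neg h

theorem rotE_ps (s : A → I) : rotE (ps s) = ps s := by
  by_cases h : s ∈ Cube.boundary A
  · rw [ps_bdry h]
    rfl
  · rw [ps_of_not h]
    show ((rot _ : A → VV) : OnePoint (A → VV)) = _
    rw [rot_real]

theorem continuous_ps : Continuous (ps : (A → I) → OnePoint (A → VV)) := by
  have hRh := Wi.pRh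
  obtain ⟨h1, h2⟩ := hRh
  rw [continuous_iff_continuousAt]
  intro s
  by_cases hs : s ∈ Cube.boundary A
  · show Tendsto _ _ (𝓝 (ps s))
    rw [ps_bdry hs, OnePoint.hasBasis_nhds_infty.tendsto_right_iff]
    rintro K ⟨-, hK⟩
    obtain ⟨M, hM⟩ := hK.isBounded.exists_norm_le
    obtain ⟨a, ha⟩ := hs
    have h3 := (continuous_apply a).continuousAt.eventually (h2 (s a) ha (M + 1))
    filter_upwards [h3] with s' hs'
    by_cases hb : s' ∈ Cube.boundary A
    · rw [ps_bdry hb]
      exact Or.inr rfl
    · rw [ps_of_not hb]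
      refine Or.inl ⟨_, fun hm => ?_, rfl⟩
      have h4 := hs' (fun h' => hb ⟨a, Or.inl h'⟩) (fun h' => hb ⟨a, Or.inr h'⟩)
      have h5 := hM _ hm
      have h6 := norm_le_pi_norm (fun a => ((rho (s' a), 0) : VV)) a
      have h7 : |rho (s' a)| ≤ ‖((rho (s' a), 0) : VV)‖ := by
        rw [Prod.norm_def]
        exact le_max_left _ _
      linarith
  · have hev : ∀ᶠ s' in 𝓝 s, s' ∉ Cube.boundary A :=
      isClosed_boundary.isOpen_compl.mem_nhds hs
    refine ContinuousAt.congr (f := fun s' : A → I =>
      ((fun a => (rho (s' a), 0) : A → VV) : OnePoint (A → VV))) ?_ ?_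
    · refine ContinuousAt.comp (g := ((↑) : (A → VV) → OnePoint (A → VV)))
        (f := fun s' : A → I => (fun a => (rho (s' a), 0) : A → VV))
        OnePoint.continuous_coe.continuousAt ?_
      refine continuousAt_pi.2 fun a => ?_
      refine ContinuousAt.prodMk ?_ continuousAt_const
      have hsa : s a ≠ 0 ∧ s a ≠ 1 := ⟨fun h => hs ⟨a, Or.inl h⟩, fun h => hs ⟨a, Or.inr h⟩⟩
      have hr : ContinuousAt rho (s a) := by
        refine h1.continuousAt ?_
        exact (isOpen_ne.inter isOpen_ne).mem_nhds hsa
      exact ContinuousAt.comp (g := rho) (f := fun s' : A → I => s' a) hr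
        (continuous_apply a).continuousAt
    · filter_upwards [hev] with s' hs'
      exact (ps_of_not hs').symm

end W

end Pool.Agent.Tate.R3
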