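import Pool.Agent.Lib.Tate.R.R3.Base
import Pool.Agent.Lib.Tate.R.Ec.Ri

/-!
# C42 (MP_071d69_gt), block R3, evenness (helper20): E1

`jn : I^N → S^N = OnePoint (N → ℝ)` and its inverse `kr`; `SM.of Θ`: the based map of spheres given by
a continuous `Θ : OnePoint (P → ℝ) → OnePoint (N → ℝ)` with `Θ ∞ = ∞`.
`th1`: `(w, w') ↦ (w + w', w - w')`, `th3`: `(u, d) ↦ (u, d²)`.
`E1`: a family on the cube `N ⊕ (Fin 2 ⊕ Fin 2)`, symmetric in the last two variables, factors over
`th3 ∘ th1`.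
-/

set_option linter.unusedSectionVars false

open Topology unitInterval Filter Set
open scoped Topology.Homotopy OnePoint

noncomputable section

namespace Pool.Agent.Tate.R3

section sphere

variable {N M P X : Type} [Fintype N] [Fintype M] [Fintype P] [TopologicalSpace X] {x : X}

open Classical in
/-- The point `rho s` of the sphere. -/
def jn (s : N → I) : OnePoint (N → ℝ) :=
  if s ∈ Cube.boundary N then ∞ else ((fun i => rho (s i) : N → ℝ) : OnePoint (N → ℝ))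

theorem jn_bdry {s : N → I} (h : s ∈ Cube.boundary N) : jn s = ∞ := if_pos h

theorem jn_of {s : N → I} (h : s ∉ Cube.boundary N) :
    jn s = ((fun i => rho (s i) : N → ℝ) : OnePoint (N → ℝ)) := if_neg h

theorem jn_eq_infty {s : N → I} : jn s = ∞ ↔ s ∈ Cube.boundary N := by
  constructor
  · intro h
    by_contra hn
    rw [jn_of hn] at h
    exact OnePoint.coe_ne_infty _ h
  · exact jn_bdry

theorem continuous_jn : Continuous (jn : (N → I) → OnePoint (N → ℝ)) := by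
  rw [continuous_iff_continuousAt]
  intro s₀
  by_cases hs : s₀ ∈ Cube.boundary N
  · obtain ⟨a, ha⟩ := hs
    rw [ContinuousAt, jn_bdry ⟨a, ha⟩, OnePoint.hasBasis_nhds_infty.tendsto_right_iff]
    rintro K ⟨-, hK⟩
    obtain ⟨M, hM⟩ := hK.isBounded.exists_norm_le
    have h1 := Wi.pRh.2 (s₀ a) ha (M + 1)
    have h2 := (continuous_apply a).continuousAt.eventually h1
    filter_upwards [h2] with s hs2
    by_cases hsb : s ∈ Cube.boundary N
    · rw [jn_bdry hsb]
      exact Or.inr rfl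
    · rw [jn_of hsb]
      refine Or.inl ⟨_, ?_, rfl⟩
      intro hmem
      have hne0 : s a ≠ 0 := fun h' => hsb ⟨a, Or.inl h'⟩
      have hne1 : s a ≠ 1 := fun h' => hsb ⟨a, Or.inr h'⟩
      have h3 := hs2 hne0 hne1
      have h4 := hM _ hmem
      have h5 := norm_le_pi_norm (fun i => rho (s i)) a
      rw [Real.norm_eq_abs] at h5
      linarith
  · have hev : ∀ᶠ s in 𝓝 s₀, s ∉ Cube.boundary N := isClosed_boundary.isOpen_compl.mem_nhds hs
    have h1 : (jn : (N → I) → OnePoint (N → ℝ)) =ᶠ[𝓝 s₀]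
        fun s => ((fun i => rho (s i) : N → ℝ) : OnePoint (N → ℝ)) := by
      filter_upwards [hev] with s hs2
      exact jn_of hs2
    refine ContinuousAt.congr ?_ h1.symm
    have h2 : ContinuousAt (fun s : N → I => (fun i => rho (s i) : N → ℝ)) s₀ := by
      rw [continuousAt_pi]
      intro a
      have hne0 : s₀ a ≠ 0 := fun h' => hs ⟨a, Or.inl h'⟩
      have hne1 : s₀ a ≠ 1 := fun h' => hs ⟨a, Or.inr h'⟩
      have ho : IsOpen {t : I | t ≠ 0 ∧ t ≠ 1} := isOpen_ne.inter isOpen_ne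
      exact ContinuousAt.comp (f := fun s : N → I => s a)
        (Wi.pRh.1.continuousAt (ho.mem_nhds ⟨hne0, hne1⟩)) (continuous_apply a).continuousAt
    exact OnePoint.continuous_coe.continuousAt.comp h2

/-- The inverse of `jn`. -/
def kr (p : OnePoint (N → ℝ)) : N → I := OnePoint.elim p (fun _ => 0) fun w i => Ec.ri (w i)

theorem kr_infty : kr (∞ : OnePoint (N → ℝ)) = fun _ => 0 := rfl

theorem kr_coe (w : N → ℝ) : kr (w : OnePoint (N → ℝ)) = fun i => Ec.ri (w i) := rfl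

theorem kr_coe_not (w : N → ℝ) : kr (w : OnePoint (N → ℝ)) ∉ Cube.boundary N := by
  rintro ⟨i, hi | hi⟩
  · exact (Ec.pRi.2.1 (w i)).1 hi
  · exact (Ec.pRi.2.1 (w i)).2 hi

theorem kr_infty_mem [Nonempty N] : kr (∞ : OnePoint (N → ℝ)) ∈ Cube.boundary N :=
  ⟨Classical.arbitrary N, Or.inl rfl⟩

theorem jn_kr [Nonempty N] (p : OnePoint (N → ℝ)) : jn (kr p) = p := by
  cases p using OnePoint.rec with
  | infty => exact jn_bdry kr_infty_mem
  | coe w =>
    rw [jn_of (kr_coe_not w), kr_coe, OnePoint.coe_eq_coe]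
    funext i
    exact Ec.pRi.2.2.1 (w i)

theorem kr_jn {s : N → I} (h : s ∉ Cube.boundary N) : kr (jn s) = s := by
  rw [jn_of h, kr_coe]
  funext i
  exact Ec.pRi.2.2.2.1 (s i) (fun h' => h ⟨i, Or.inl h'⟩) fun h' => h ⟨i, Or.inr h'⟩

theorem bd_le_at (t : N → I) (i : N) : bd t ≤ (t i : ℝ) * (1 - t i) := by
  classical
  unfold bd
  rw [← Finset.mul_prod_erase _ _ (Finset.mem_univ i)]
  refine mul_le_of_le_one_right (mul_nonneg (t i).2.1 (by linarith [(t i).2.2])) ?_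
  exact Finset.prod_le_one (fun j _ => mul_nonneg (t j).2.1 (by linarith [(t j).2.2]))
    fun j _ => by nlinarith [(t j).2.1, (t j).2.2]

theorem mul_rho_le (t : I) (h0 : t ≠ 0) (h1 : t ≠ 1) : (t : ℝ) * (1 - t) * |rho t| ≤ 1 := by
  have h2 : 0 < (t : ℝ) := lt_of_le_of_ne t.2.1 fun h' => h0 (Subtype.ext h'.symm)
  have h3 : (t : ℝ) < 1 := lt_of_le_of_ne t.2.2 fun h' => h1 (Subtype.ext h')
  have h5 : 0 < (t : ℝ) * (1 - t) := mul_pos h2 (by linarith)
  unfold rho
  rw [abs_div, abs_of_pos h5, mul_div_cancel₀ _ h5.ne', abs_le]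
  constructor <;> linarith

theorem bd_kr_le (w : N → ℝ) : bd (kr (w : OnePoint (N → ℝ))) * ‖w‖ ≤ 1 := by
  have h : ‖bd (kr (w : OnePoint (N → ℝ))) • w‖ ≤ 1 := by
    rw [pi_norm_le_iff_of_nonneg zero_le_one]
    intro i
    rw [Pi.smul_apply, smul_eq_mul, norm_mul, Real.norm_eq_abs, Real.norm_eq_abs,
      abs_of_nonneg (bd_nonneg _)]
    obtain ⟨h2, h3⟩ := Ec.pRi.2.1 (w i)
    have h4 : rho (Ec.ri (w i)) = w i := Ec.pRi.2.2.1 (w i)
    have h5 := mul_rho_le _ h2 h3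
    rw [h4] at h5
    exact (mul_le_mul_of_nonneg_right (bd_le_at (kr (w : OnePoint (N → ℝ))) i)
      (abs_nonneg _)).trans h5
  rwa [norm_smul, Real.norm_eq_abs, abs_of_nonneg (bd_nonneg _)] at h

theorem norm_atTop : Tendsto (fun w : N → ℝ => ‖w‖) (cocompact (N → ℝ)) atTop := by
  rw [← Metric.cobounded_eq_cocompact]
  exact tendsto_norm_cobounded_atTop

theorem continuous_ri : Continuous Ec.ri := Ec.pRi.2.2.2.2.1

theorem kr_KC [Nonempty N] : KC (kr : OnePoint (N → ℝ) → (N → I)) where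
  at' p hp := by
    cases p using OnePoint.rec with
    | infty => exact absurd kr_infty_mem hp
    | coe w =>
      rw [OnePoint.continuousAt_coe]
      refine Continuous.continuousAt ?_
      exact continuous_pi fun i => continuous_ri.comp (continuous_apply i)
  bdc := by
    rw [OnePoint.continuous_iff]
    constructor
    · rw [Filter.coclosedCompact_eq_cocompact, (bd_eq_zero _).2 kr_infty_mem]
      have h1 : Tendsto (fun w : N → ℝ => ‖w‖⁻¹) (cocompact (N → ℝ)) (𝓝 0) :=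
        tendsto_inv_atTop_zero.comp norm_atTop
      have h2 : ∀ᶠ w in cocompact (N → ℝ), 1 ≤ ‖w‖ :=
        norm_atTop.eventually (eventually_ge_atTop 1)
      refine squeeze_zero' (Eventually.of_forall fun w => bd_nonneg _) ?_ h1
      filter_upwards [h2] with w hw
      have h3 := bd_kr_le w
      rw [← one_div]
      exact (le_div_iff₀ (by linarith)).2 h3
    · refine continuous_bd.comp ?_
      exact continuous_pi fun i => continuous_ri.comp (continuous_apply i)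

/-- The based map of spheres given by a map of one-point compactifications. -/
def SM.of [Nonempty N] (Th : OnePoint (P → ℝ) → OnePoint (N → ℝ)) (hc : Continuous Th)
    (h0 : Th ∞ = ∞) : SM P N where
  f s := kr (Th (jn s))
  kc := kr_KC.comp_continuous (hc.comp continuous_jn)
  bdry s hs := by
    rw [jn_bdry hs, h0]
    exact kr_infty_mem

end sphere

/-! ### Proper maps -/

section proper

variable {N P : Type} [Fintype N] [Fintype P]

theorem tendsto_of_bound {f : (P → ℝ) → (N → ℝ)} {a b : ℝ} (hb : 0 ≤ b)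
    (h : ∀ w, ‖w‖ ≤ a + b * ‖f w‖) : Tendsto f (coclosedCompact (P → ℝ)) (coclosedCompact (N → ℝ)) := by
  rw [Filter.coclosedCompact_eq_cocompact, Filter.coclosedCompact_eq_cocompact,
    ← Metric.cobounded_eq_cocompact (α := N → ℝ), ← comap_norm_atTop, tendsto_comap_iff,
    tendsto_atTop]
  intro M
  have h1 := (norm_atTop (N := P)).eventually (eventually_gt_atTop (a + b * |M|))
  filter_upwards [h1] with w hw
  show M ≤ ‖f w‖
  by_contra hn
  rw [not_le] at hn
  have h2 := h w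
  have h3 : ‖f w‖ ≤ |M| := hn.le.trans (le_abs_self M)
  have h4 : b * ‖f w‖ ≤ b * |M| := mul_le_mul_of_nonneg_left h3 hb
  linarith

/-- `(w, w') ↦ (w + w', w - w')`. -/
def f1 (w : Fin 2 ⊕ Fin 2 → ℝ) : Fin 2 ⊕ Fin 2 → ℝ :=
  Sum.elim (fun i => w (Sum.inl i) + w (Sum.inr i)) fun i => w (Sum.inl i) - w (Sum.inr i)

/-- `(u, d) ↦ (u, d²)`. -/
def f3 (w : Fin 2 ⊕ Fin 2 → ℝ) : Fin 2 ⊕ Fin 2 → ℝ :=
  Sum.elim (fun i => w (Sum.inl i)) (Ec.sq fun i => w (Sum.inr i))

theorem continuous_f1 : Continuous f1 := by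
  refine continuous_pi fun i => ?_
  rcases i with i | i
  · show Continuous fun w : Fin 2 ⊕ Fin 2 → ℝ => w (Sum.inl i) + w (Sum.inr i)
    fun_prop
  · show Continuous fun w : Fin 2 ⊕ Fin 2 → ℝ => w (Sum.inl i) - w (Sum.inr i)
    fun_prop

theorem continuous_sq : Continuous Ec.sq := by
  refine continuous_pi fun i => ?_
  fin_cases i
  · show Continuous fun u : Fin 2 → ℝ => u 0 ^ 2 - u 1 ^ 2
    fun_prop
  · show Continuous fun u : Fin 2 → ℝ => 2 * u 0 * u 1
    fun_prop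

theorem continuous_f3 : Continuous f3 := by
  refine continuous_pi fun i => ?_
  rcases i with i | i
  · show Continuous fun w : Fin 2 ⊕ Fin 2 → ℝ => w (Sum.inl i)
    fun_prop
  · have h1 : Continuous fun w : Fin 2 ⊕ Fin 2 → ℝ => (fun j => w (Sum.inr j) : Fin 2 → ℝ) :=
      continuous_pi fun j => continuous_apply (Sum.inr j)
    have h2 : Continuous fun w : Fin 2 ⊕ Fin 2 → ℝ => Ec.sq fun j => w (Sum.inr j) :=
      Continuous.comp (g := Ec.sq) continuous_sq h1
    exact continuous_pi_iff.1 h2 i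

theorem norm_f1 (w : Fin 2 ⊕ Fin 2 → ℝ) : ‖w‖ ≤ 0 + 1 * ‖f1 w‖ := by
  rw [zero_add, one_mul, pi_norm_le_iff_of_nonneg (norm_nonneg _)]
  have hl : ∀ i, |w (Sum.inl i) + w (Sum.inr i)| ≤ ‖f1 w‖ := fun i =>
    norm_le_pi_norm (f1 w) (Sum.inl i)
  have hr : ∀ i, |w (Sum.inl i) - w (Sum.inr i)| ≤ ‖f1 w‖ := fun i =>
    norm_le_pi_norm (f1 w) (Sum.inr i)
  intro i
  rw [Real.norm_eq_abs]
  rcases i with i | i
  · have h1 := abs_le.1 (hl i)
    have h2 := abs_le.1 (hr i)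
    rw [abs_le]
    constructor <;> linarith [h1.1, h1.2, h2.1, h2.2]
  · have h1 := abs_le.1 (hl i)
    have h2 := abs_le.1 (hr i)
    rw [abs_le]
    constructor <;> linarith [h1.1, h1.2, h2.1, h2.2]

theorem sq_bound (d : Fin 2 → ℝ) (c : ℝ) (h0 : |Ec.sq d 0| ≤ c) (h1 : |Ec.sq d 1| ≤ c) (i : Fin 2) :
    d i ^ 2 ≤ 2 * c := by
  have e0 : Ec.sq d 0 = d 0 ^ 2 - d 1 ^ 2 := rfl
  have e1 : Ec.sq d 1 = 2 * d 0 * d 1 := rfl
  have k0 : Ec.sq d 0 ^ 2 ≤ c ^ 2 := sq_le_sq' (by linarith [(abs_le.1 h0).1]) (abs_le.1 h0).2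
  have k1 : Ec.sq d 1 ^ 2 ≤ c ^ 2 := sq_le_sq' (by linarith [(abs_le.1 h1).1]) (abs_le.1 h1).2
  have hc : 0 ≤ c := (abs_nonneg _).trans h0
  have k2 : (d 0 ^ 2 + d 1 ^ 2) ^ 2 = Ec.sq d 0 ^ 2 + Ec.sq d 1 ^ 2 := by
    rw [e0, e1]
    ring
  have k3 : d 0 ^ 2 + d 1 ^ 2 ≤ 2 * c := by
    have : (d 0 ^ 2 + d 1 ^ 2) ^ 2 ≤ (2 * c) ^ 2 := by nlinarith
    exact (abs_le_of_sq_le_sq' this (by linarith)).2
  fin_cases i
  · show d 0 ^ 2 ≤ 2 * c
    nlinarith [sq_nonneg (d 1)]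
  · show d 1 ^ 2 ≤ 2 * c
    nlinarith [sq_nonneg (d 0)]

theorem norm_f3 (w : Fin 2 ⊕ Fin 2 → ℝ) : ‖w‖ ≤ 1 + 2 * ‖f3 w‖ := by
  have hn := norm_nonneg (f3 w)
  rw [pi_norm_le_iff_of_nonneg (by linarith)]
  have hl : ∀ i, |w (Sum.inl i)| ≤ ‖f3 w‖ := fun i => norm_le_pi_norm (f3 w) (Sum.inl i)
  have hr : ∀ i, |Ec.sq (fun i => w (Sum.inr i)) i| ≤ ‖f3 w‖ := fun i =>
    norm_le_pi_norm (f3 w) (Sum.inr i)
  intro i
  rw [Real.norm_eq_abs]
  rcases i with i | i
  · linarith [hl i]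
  · have h1 := sq_bound (fun i => w (Sum.inr i)) _ (hr 0) (hr 1) i
    have h2 : w (Sum.inr i) ^ 2 ≤ 2 * ‖f3 w‖ := h1
    refine abs_le_of_sq_le_sq ?_ (by linarith)
    nlinarith

/-- `f1` on the sphere. -/
def F1 : OnePoint (Fin 2 ⊕ Fin 2 → ℝ) → OnePoint (Fin 2 ⊕ Fin 2 → ℝ) := OnePoint.map f1

/-- `f3` on the sphere. -/
def F3 : OnePoint (Fin 2 ⊕ Fin 2 → ℝ) → OnePoint (Fin 2 ⊕ Fin 2 → ℝ) := OnePoint.map f3

theorem continuous_F1 : Continuous F1 :=
  OnePoint.continuous_map continuous_f1 (tendsto_of_bound zero_le_one norm_f1)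

theorem continuous_F3 : Continuous F3 :=
  OnePoint.continuous_map continuous_f3 (tendsto_of_bound zero_le_two norm_f3)

/-- `th1`: `(w, w') ↦ (w + w', w - w')`. -/
def th1 : SM (Fin 2 ⊕ Fin 2) (Fin 2 ⊕ Fin 2) := SM.of F1 continuous_F1 rfl

/-- `th3`: `(u, d) ↦ (u, d²)`. -/
def th3 : SM (Fin 2 ⊕ Fin 2) (Fin 2 ⊕ Fin 2) := SM.of F3 continuous_F3 rfl

theorem jn_th (s : Fin 2 ⊕ Fin 2 → I) : jn (th3.f (th1.f s)) = F3 (F1 (jn s)) := by
  show jn (kr (F3 (jn (kr (F1 (jn s)))))) = _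
  rw [jn_kr, jn_kr]

/-- Every vector is a square. -/
theorem exists_sq (e : Fin 2 → ℝ) : ∃ d, Ec.sq d = e := by
  obtain ⟨z, hz⟩ := IsAlgClosed.exists_pow_nat_eq (⟨e 0, e 1⟩ : ℂ) (zero_lt_two : 0 < 2)
  refine ⟨![z.re, z.im], ?_⟩
  have h0 := congrArg Complex.re hz
  have h1 := congrArg Complex.im hz
  rw [sq, Complex.mul_re] at h0
  rw [sq, Complex.mul_im] at h1
  have h0' : z.re * z.re - z.im * z.im = e 0 := h0
  have h1' : z.re * z.im + z.im * z.re = e 1 := h1
  funext i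
  fin_cases i
  · show z.re ^ 2 - z.im ^ 2 = e 0
    rw [← h0']
    ring
  · show 2 * z.re * z.im = e 1
    rw [← h1']
    ring

theorem sq_eq {d d' : Fin 2 → ℝ} (h : Ec.sq d = Ec.sq d') : d = d' ∨ d = -d' := by
  have h0 : d 0 ^ 2 - d 1 ^ 2 = d' 0 ^ 2 - d' 1 ^ 2 := congrFun h 0
  have h1 : 2 * d 0 * d 1 = 2 * d' 0 * d' 1 := congrFun h 1
  have hz : (⟨d 0, d 1⟩ : ℂ) ^ 2 = (⟨d' 0, d' 1⟩ : ℂ) ^ 2 := by
    apply Complex.ext
    · rw [sq, sq, Complex.mul_re, Complex.mul_re]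
      show d 0 * d 0 - d 1 * d 1 = d' 0 * d' 0 - d' 1 * d' 1
      linarith
    · rw [sq, sq, Complex.mul_im, Complex.mul_im]
      show d 0 * d 1 + d 1 * d 0 = d' 0 * d' 1 + d' 1 * d' 0
      linarith
  rcases sq_eq_sq_iff_eq_or_eq_neg.1 hz with h2 | h2
  · left
    have k0 : d 0 = d' 0 := congrArg Complex.re h2
    have k1 : d 1 = d' 1 := congrArg Complex.im h2
    funext i
    fin_cases i
    · exact k0
    · exact k1
  · right
    have k0 : d 0 = -d' 0 := congrArg Complex.re h2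
    have k1 : d 1 = -d' 1 := congrArg Complex.im h2
    funext i
    fin_cases i
    · exact k0
    · exact k1

/-- The exchange of the two variables. -/
def swp (w : Fin 2 ⊕ Fin 2 → ℝ) : Fin 2 ⊕ Fin 2 → ℝ :=
  Sum.elim (fun i => w (Sum.inr i)) fun i => w (Sum.inl i)

theorem surj_F : Function.Surjective fun p => F3 (F1 p) := by
  intro p
  cases p using OnePoint.rec with
  | infty => exact ⟨∞, rfl⟩
  | coe w =>
    obtain ⟨d, hd⟩ := exists_sq fun i => w (Sum.inr i)
    refine ⟨((Sum.elim (fun i => (w (Sum.inl i) + d i) / 2) fun i => (w (Sum.inl i) - d i) / 2 :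
      Fin 2 ⊕ Fin 2 → ℝ) : OnePoint _), ?_⟩
    show ((f3 (f1 _) : Fin 2 ⊕ Fin 2 → ℝ) : OnePoint (Fin 2 ⊕ Fin 2 → ℝ)) = (w : OnePoint _)
    rw [OnePoint.coe_eq_coe]
    have e : (fun i => f1 (Sum.elim (fun i => (w (Sum.inl i) + d i) / 2)
        fun i => (w (Sum.inl i) - d i) / 2) (Sum.inr i)) = d := by
      funext i
      show (w (Sum.inl i) + d i) / 2 - (w (Sum.inl i) - d i) / 2 = d i
      ring
    funext i
    rcases i with i | i
    · show (w (Sum.inl i) + d i) / 2 + (w (Sum.inl i) - d i) / 2 = w (Sum.inl i)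
      ring
    · show Ec.sq (fun i => f1 _ (Sum.inr i)) i = w (Sum.inr i)
      rw [e, hd]

theorem fib_F {p p' : OnePoint (Fin 2 ⊕ Fin 2 → ℝ)} (h : F3 (F1 p) = F3 (F1 p')) :
    p = p' ∨ p = OnePoint.map swp p' := by
  cases p using OnePoint.rec with
  | infty =>
    cases p' using OnePoint.rec with
    | infty => exact Or.inl rfl
    | coe w' => exact absurd h (OnePoint.infty_ne_coe _)
  | coe w =>
    cases p' using OnePoint.rec with
    | infty => exact absurd h (OnePoint.coe_ne_infty _)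
    | coe w' =>
      have h2 : f3 (f1 w) = f3 (f1 w') := OnePoint.coe_injective h
      have hl : ∀ i, w (Sum.inl i) + w (Sum.inr i) = w' (Sum.inl i) + w' (Sum.inr i) := fun i =>
        congrFun h2 (Sum.inl i)
      have hr : Ec.sq (fun i => w (Sum.inl i) - w (Sum.inr i)) =
          Ec.sq fun i => w' (Sum.inl i) - w' (Sum.inr i) := by
        funext i
        exact congrFun h2 (Sum.inr i)
      rcases sq_eq hr with h3 | h3
      · left
        rw [OnePoint.coe_eq_coe]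
        funext i
        rcases i with i | i
        · have k1 := congrFun h3 i
          have k2 := hl i
          linarith
        · have k1 := congrFun h3 i
          have k2 := hl i
          linarith
      · right
        show (w : OnePoint _) = ((swp w' : Fin 2 ⊕ Fin 2 → ℝ) : OnePoint (Fin 2 ⊕ Fin 2 → ℝ))
        rw [OnePoint.coe_eq_coe]
        funext i
        rcases i with i | i
        · have k1 := congrFun h3 i
          have k2 := hl i
          simp only [Pi.neg_apply] at k1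
          show w (Sum.inl i) = w' (Sum.inr i)
          linarith
        · have k1 := congrFun h3 i
          have k2 := hl i
          simp only [Pi.neg_apply] at k1
          show w (Sum.inr i) = w' (Sum.inl i)
          linarith

end proper

/-! ### E1 -/

section E1

variable {N X : Type} [TopologicalSpace X] {x : X}

/-- **E1.** A family which is symmetric in the last two variables factors over `th3 ∘ th1`. -/
theorem E1 (g : Ω^ (N ⊕ (Fin 2 ⊕ Fin 2)) X x)
    (hg : ∀ (s : N → I) (t t' : Fin 2 → I),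
      g (Sum.elim s (Sum.elim t t')) = g (Sum.elim s (Sum.elim t' t))) :
    ∃ K : Ω^ (N ⊕ (Fin 2 ⊕ Fin 2)) X x, ∀ (s : N → I) (c : Fin 2 ⊕ Fin 2 → I),
      g (Sum.elim s c) = K (Sum.elim s (th3.f (th1.f c))) := by
  let G : (N → I) × OnePoint (Fin 2 ⊕ Fin 2 → ℝ) → X := fun p => g (Sum.elim p.1 (kr p.2))
  have hGc : Continuous G := by
    have h1 : Continuous fun p : (N → I) × (Fin 2 ⊕ Fin 2 → I) => g.1 (Sum.elim p.1 p.2) :=
      g.1.continuous.comp (continuous_elim continuous_fst continuous_snd)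
    exact (kr_KC (N := Fin 2 ⊕ Fin 2)).comp h1 (fun y t ht t' ht' => by
      obtain ⟨i, hi⟩ := ht
      obtain ⟨j, hj⟩ := ht'
      rw [g.2 _ ⟨Sum.inr i, hi⟩, g.2 _ ⟨Sum.inr j, hj⟩])
  -- `G` is constant on the fibres
  have hGs : ∀ s p, G (s, OnePoint.map swp p) = G (s, p) := by
    intro s p
    cases p using OnePoint.rec with
    | infty => rfl
    | coe w =>
      have e : ∀ v : Fin 2 ⊕ Fin 2 → ℝ, (kr (v : OnePoint (Fin 2 ⊕ Fin 2 → ℝ)) :
          Fin 2 ⊕ Fin 2 → I) = Sum.elim (fun i => Ec.ri (v (Sum.inl i)))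
            fun i => Ec.ri (v (Sum.inr i)) := by
        intro v
        funext i
        rcases i with i | i <;> rfl
      show g (Sum.elim s (kr ((swp w : Fin 2 ⊕ Fin 2 → ℝ) : OnePoint _))) =
        g (Sum.elim s (kr (w : OnePoint _)))
      rw [e, e, hg]
      rfl
  have hfib : ∀ s p p', F3 (F1 p) = F3 (F1 p') → G (s, p) = G (s, p') := by
    intro s p p' h
    rcases fib_F h with rfl | rfl
    · rfl
    · exact hGs s p'
  -- the quotient map
  let Q : (N → I) × OnePoint (Fin 2 ⊕ Fin 2 → ℝ) → (N → I) × OnePoint (Fin 2 ⊕ Fin 2 → ℝ) :=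
    Prod.map id fun p => F3 (F1 p)
  have hQc : Continuous Q := continuous_id.prodMap (continuous_F3.comp continuous_F1)
  have hQs : Function.Surjective Q := Function.surjective_id.prodMap surj_F
  have hQ : IsQuotientMap Q := hQc.isClosedMap.isQuotientMap hQc hQs
  let K' : (N → I) × OnePoint (Fin 2 ⊕ Fin 2 → ℝ) → X := fun q =>
    G (q.1, Classical.choose (surj_F q.2))
  have hK' : ∀ s p, K' (s, F3 (F1 p)) = G (s, p) := by
    intro s p
    exact hfib s _ _ (Classical.choose_spec (surj_F (F3 (F1 p))))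
  have hK'c : Continuous K' := by
    rw [hQ.continuous_iff]
    have e : K' ∘ Q = G := funext fun q => hK' q.1 q.2
    rw [e]
    exact hGc
  have hb1 : ∀ s, K' (s, ∞) = x := by
    intro s
    have h := hK' s ∞
    have h1 : K' (s, ∞) = G (s, ∞) := h
    rw [h1]
    exact g.2 _ ⟨Sum.inr (Sum.inl 0), Or.inl rfl⟩
  have hb2 : ∀ s ∈ Cube.boundary N, ∀ q, K' (s, q) = x := by
    rintro s ⟨i, hi⟩ q
    exact g.2 _ ⟨Sum.inl i, hi⟩
  refine ⟨⟨⟨fun s => K' (fun i => s (Sum.inl i), jn fun i => s (Sum.inr i)),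
    hK'c.comp (Continuous.prodMk (by fun_prop) (continuous_jn.comp (by fun_prop)))⟩, ?_⟩, ?_⟩
  · rintro s ⟨i | i, hi⟩
    · exact hb2 _ ⟨i, hi⟩ _
    · show K' (_, jn _) = x
      rw [jn_bdry (s := fun i => s (Sum.inr i)) ⟨i, hi⟩]
      exact hb1 _
  · intro s c
    show _ = K' (s, jn (th3.f (th1.f c)))
    rw [jn_th, hK']
    show _ = g (Sum.elim s (kr (jn c)))
    by_cases hc : c ∈ Cube.boundary (Fin 2 ⊕ Fin 2)
    · rw [jn_bdry hc]
      obtain ⟨i, hi⟩ := hc
      have e1 : g (Sum.elim s c) = x := g.2 _ ⟨Sum.inr i, hi⟩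
      have e2 : g (Sum.elim s (kr ∞)) = x := g.2 _ ⟨Sum.inr (Sum.inl 0), Or.inl rfl⟩
      rw [e1, e2]
    · rw [kr_jn hc]

end E1

end Pool.Agent.Tate.R3
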