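import Pool.Agent.Lib.Tate.R.R3.Ev3

/-!
# C42 (MP_071d69_gt), block R3, evenness (helper20): E2

The squaring map has degree two: `cls (g ∘ sqS) = a * a` for some `a`, for every based map `g` of
`S² = I² / ∂`.  Homotopy: `E_t(d) = (d² + 1) / (1 - t + t min(1, |Im d|)) - 1`.
-/

set_option linter.unusedSectionVars false

open Topology unitInterval Filter Set
open scoped Topology.Homotopy OnePoint

noncomputable section

namespace Pool.Agent.Tate.R3

namespace Ev2

/-- The vector `1`. -/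
def e1 : Fin 2 → ℝ := ![1, 0]

/-- The numerator. -/
def num (d : Fin 2 → ℝ) : Fin 2 → ℝ := Ec.sq d + e1

/-- The denominator. -/
def den (q : I × (Fin 2 → ℝ)) : ℝ := 1 - (q.1 : ℝ) + (q.1 : ℝ) * min 1 |q.2 1|

theorem continuous_num : Continuous num := continuous_sq.add continuous_const

theorem continuous_den : Continuous den := by
  unfold den
  fun_prop

theorem den_nonneg (q : I × (Fin 2 → ℝ)) : 0 ≤ den q := by
  unfold den
  have h1 : 0 ≤ min 1 |q.2 1| := le_min zero_le_one (abs_nonneg _)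
  have h2 := mul_nonneg q.1.2.1 h1
  linarith [q.1.2.2]

theorem den_le_one (q : I × (Fin 2 → ℝ)) : den q ≤ 1 := by
  unfold den
  have h1 : min 1 |q.2 1| ≤ 1 := min_le_left _ _
  have h2 := mul_le_mul_of_nonneg_left h1 q.1.2.1
  linarith [q.1.2.2]

theorem norm_e1 : ‖e1‖ ≤ 1 := by
  rw [pi_norm_le_iff_of_nonneg zero_le_one]
  intro i
  fin_cases i
  · show ‖(1 : ℝ)‖ ≤ 1
    simp
  · show ‖(0 : ℝ)‖ ≤ 1
    simp

theorem num_ne {q : I × (Fin 2 → ℝ)} (h : den q = 0) : 1 ≤ ‖num q.2‖ := by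
  have h1 : 0 ≤ min 1 |q.2 1| := le_min zero_le_one (abs_nonneg _)
  have h2 := mul_nonneg q.1.2.1 h1
  have h3 : (q.1 : ℝ) = 1 := by
    unfold den at h
    linarith [q.1.2.2]
  have h4 : min 1 |q.2 1| = 0 := by
    unfold den at h
    rw [h3] at h
    linarith
  have h5 : |q.2 1| = 0 := by
    rcases min_choice 1 |q.2 1| with h6 | h6
    · rw [h6] at h4
      exact absurd h4 one_ne_zero
    · rw [h6] at h4
      exact h4
  have h7 : q.2 1 = 0 := abs_eq_zero.1 h5
  have h8 := norm_le_pi_norm (num q.2) 0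
  refine le_trans ?_ h8
  have h9 : num q.2 0 = q.2 0 ^ 2 - q.2 1 ^ 2 + 1 := rfl
  rw [h9, h7, Real.norm_eq_abs]
  refine le_trans ?_ (le_abs_self _)
  nlinarith [sq_nonneg (q.2 0)]

theorem norm_num (d : Fin 2 → ℝ) : (‖d‖ - 1) / 2 - 1 ≤ ‖num d‖ := by
  have h1 := norm_sq' d
  have h2 : ‖Ec.sq d‖ ≤ ‖num d‖ + ‖e1‖ := by
    have : Ec.sq d = num d - e1 := by
      unfold num
      rw [add_sub_cancel_right]
    calc ‖Ec.sq d‖ = ‖num d - e1‖ := by rw [← this]
      _ ≤ _ := norm_sub_le _ _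
  have h3 := norm_e1
  linarith

open Classical in
/-- The value at a finite point. -/
def ev' (q : I × (Fin 2 → ℝ)) : OnePoint (Fin 2 → ℝ) :=
  if den q = 0 then ∞ else (((den q)⁻¹ • num q.2 - e1 : Fin 2 → ℝ) : OnePoint (Fin 2 → ℝ))

theorem ev'_infty {q : I × (Fin 2 → ℝ)} (h : den q = 0) : ev' q = ∞ := if_pos h

theorem ev'_coe {q : I × (Fin 2 → ℝ)} (h : den q ≠ 0) :
    ev' q = (((den q)⁻¹ • num q.2 - e1 : Fin 2 → ℝ) : OnePoint (Fin 2 → ℝ)) := if_neg h

theorem norm_val {q : I × (Fin 2 → ℝ)} (h : den q ≠ 0) :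
    (den q)⁻¹ * ‖num q.2‖ - 1 ≤ ‖(den q)⁻¹ • num q.2 - e1‖ := by
  have hd : 0 < den q := lt_of_le_of_ne (den_nonneg q) (Ne.symm h)
  have h1 : ‖(den q)⁻¹ • num q.2‖ ≤ ‖(den q)⁻¹ • num q.2 - e1‖ + ‖e1‖ := by
    have := norm_add_le ((den q)⁻¹ • num q.2 - e1) e1
    rwa [sub_add_cancel] at this
  rw [norm_smul, norm_inv, Real.norm_eq_abs, abs_of_pos hd] at h1
  have h2 := norm_e1
  linarith

/-- The homotopy. -/
def ev (q : I × OnePoint (Fin 2 → ℝ)) : OnePoint (Fin 2 → ℝ) :=
  OnePoint.elim q.2 ∞ fun d => ev' (q.1, d)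

theorem ev_infty (t : I) : ev (t, ∞) = ∞ := rfl

theorem ev_coe (t : I) (d : Fin 2 → ℝ) : ev (t, (d : OnePoint (Fin 2 → ℝ))) = ev' (t, d) := rfl

theorem continuous_ev' : Continuous ev' := by
  rw [continuous_iff_continuousAt]
  intro q₀
  by_cases h : den q₀ = 0
  · rw [ContinuousAt, ev'_infty h, OnePoint.hasBasis_nhds_infty.tendsto_right_iff]
    rintro K ⟨-, hK⟩
    obtain ⟨M, hM⟩ := hK.isBounded.exists_norm_le
    have h1 : ∀ᶠ q in 𝓝 q₀, 1 / 2 < ‖num q.2‖ := by
      have hc : Continuous fun q : I × (Fin 2 → ℝ) => ‖num q.2‖ :=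
        (continuous_num.comp continuous_snd).norm
      exact hc.continuousAt.eventually (lt_mem_nhds (by linarith [num_ne h]))
    have h2 : ∀ᶠ q in 𝓝 q₀, den q < 1 / (2 * (|M| + 2)) := by
      have hp : (0 : ℝ) < 1 / (2 * (|M| + 2)) := by
        have := abs_nonneg M
        positivity
      have := continuous_den.continuousAt (x := q₀) |>.eventually (gt_mem_nhds (by
        rw [h]
        exact hp))
      exact this
    filter_upwards [h1, h2] with q hq1 hq2
    by_cases hd : den q = 0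
    · rw [ev'_infty hd]
      exact Or.inr rfl
    · rw [ev'_coe hd]
      refine Or.inl ⟨_, ?_, rfl⟩
      intro hmem
      have h3 := hM _ hmem
      have h4 := norm_val hd
      have hdp : 0 < den q := lt_of_le_of_ne (den_nonneg q) (Ne.symm hd)
      have hMp := abs_nonneg M
      have h5 : 2 * (|M| + 2) < (den q)⁻¹ := by
        rw [lt_inv_comm₀ (by linarith) hdp]
        rw [one_div] at hq2
        exact hq2
      have h6 : |M| + 2 < (den q)⁻¹ * ‖num q.2‖ := by nlinarith
      have h7 := le_abs_self M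
      linarith
  · have h1 : ∀ᶠ q in 𝓝 q₀, den q ≠ 0 :=
      continuous_den.continuousAt.eventually (isOpen_ne.mem_nhds h)
    have h2 : ev' =ᶠ[𝓝 q₀]
        fun q => (((den q)⁻¹ • num q.2 - e1 : Fin 2 → ℝ) : OnePoint (Fin 2 → ℝ)) := by
      filter_upwards [h1] with q hq
      exact ev'_coe hq
    refine ContinuousAt.congr ?_ h2.symm
    refine OnePoint.continuous_coe.continuousAt.comp ?_
    exact ((continuous_den.continuousAt.inv₀ h).smul
      (continuous_num.comp continuous_snd).continuousAt).sub continuousAt_const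

theorem continuous_ev : Continuous ev := by
  rw [continuous_iff_continuousAt]
  rintro ⟨t₀, p₀⟩
  cases p₀ using OnePoint.rec with
  | infty =>
    rw [ContinuousAt, ev_infty, OnePoint.hasBasis_nhds_infty.tendsto_right_iff]
    rintro K ⟨-, hK⟩
    obtain ⟨M, hM⟩ := hK.isBounded.exists_norm_le
    have hU : (OnePoint.some '' (Metric.closedBall (0 : Fin 2 → ℝ) (2 * |M| + 10))ᶜ ∪ {∞} :
        Set (OnePoint (Fin 2 → ℝ))) ∈ 𝓝 (∞ : OnePoint (Fin 2 → ℝ)) :=
      OnePoint.hasBasis_nhds_infty.mem_of_mem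
        ⟨Metric.isClosed_closedBall, isCompact_closedBall _ _⟩
    have h1 : ∀ᶠ q : I × OnePoint (Fin 2 → ℝ) in 𝓝 (t₀, ∞),
        q.2 ∈ (OnePoint.some '' (Metric.closedBall (0 : Fin 2 → ℝ) (2 * |M| + 10))ᶜ ∪ {∞} :
        Set (OnePoint (Fin 2 → ℝ))) := continuous_snd.continuousAt.eventually hU
    filter_upwards [h1] with q hq
    obtain ⟨t, p⟩ := q
    rcases hq with ⟨d, hd, rfl⟩ | hq
    · show ev (t, (d : OnePoint (Fin 2 → ℝ))) ∈ _
      rw [ev_coe]
      by_cases hdn : den (t, d) = 0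
      · rw [ev'_infty hdn]
        exact Or.inr rfl
      · rw [ev'_coe hdn]
        refine Or.inl ⟨_, ?_, rfl⟩
        intro hmem
        have h3 := hM _ hmem
        have h4 := norm_val hdn
        have hdp : 0 < den (t, d) := lt_of_le_of_ne (den_nonneg _) (Ne.symm hdn)
        have h5 : 1 ≤ (den (t, d))⁻¹ := (one_le_inv₀ hdp).2 (den_le_one _)
        have h6 := norm_num d
        have h7 : 2 * |M| + 10 < ‖d‖ := by
          have : d ∉ Metric.closedBall (0 : Fin 2 → ℝ) (2 * |M| + 10) := hd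
          rwa [mem_closedBall_zero_iff, not_le] at this
        have h8 : ‖num d‖ ≤ (den (t, d))⁻¹ * ‖num d‖ := le_mul_of_one_le_left (norm_nonneg _) h5
        have h9 := le_abs_self M
        have h10 : (den (t, d))⁻¹ * ‖num d‖ - 1 ≤ M := h4.trans h3
        linarith [abs_nonneg M]
    · have hq' : p = ∞ := hq
      subst hq'
      exact Or.inr rfl
  | coe d =>
    have hoe : IsOpenEmbedding (Prod.map (id : I → I)
        (fun d : Fin 2 → ℝ => (d : OnePoint (Fin 2 → ℝ)))) :=
      IsOpenEmbedding.id.prodMap OnePoint.isOpenEmbedding_coe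
    have h1 : ContinuousAt ev (Prod.map (id : I → I)
        (fun d : Fin 2 → ℝ => (d : OnePoint (Fin 2 → ℝ))) (t₀, d)) := by
      rw [← hoe.continuousAt_iff]
      exact continuous_ev'.continuousAt
    exact h1

theorem ev_zero (p : OnePoint (Fin 2 → ℝ)) : ev (0, p) = FS' p := by
  cases p using OnePoint.rec with
  | infty => rfl
  | coe d =>
    rw [ev_coe]
    have h1 : den (0, d) = 1 := by
      unfold den
      simp
    rw [ev'_coe (by rw [h1]; exact one_ne_zero), h1, inv_one, one_smul]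
    show ((num d - e1 : Fin 2 → ℝ) : OnePoint (Fin 2 → ℝ)) = ((Ec.sq d : Fin 2 → ℝ) : OnePoint _)
    unfold num
    rw [add_sub_cancel_right]

/-- The value on the middle line at time one. -/
theorem ev_mid (d : Fin 2 → ℝ) (h : d 1 = 0) : ev (1, (d : OnePoint (Fin 2 → ℝ))) = ∞ := by
  rw [ev_coe, ev'_infty]
  unfold den
  simp [h]

theorem ev_neg (t : I) (d : Fin 2 → ℝ) :
    ev (t, ((-d : Fin 2 → ℝ) : OnePoint (Fin 2 → ℝ))) = ev (t, (d : OnePoint (Fin 2 → ℝ))) := by
  rw [ev_coe, ev_coe]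
  have h1 : den (t, -d) = den (t, d) := by
    unfold den
    simp
  have h2 : num (-d) = num d := by
    unfold num
    congr 1
    funext i
    fin_cases i
    · show (-d 0) ^ 2 - (-d 1) ^ 2 = d 0 ^ 2 - d 1 ^ 2
      ring
    · show 2 * (-d 0) * (-d 1) = 2 * d 0 * d 1
      ring
  by_cases h : den (t, d) = 0
  · rw [ev'_infty h, ev'_infty (by rw [h1, h])]
  · rw [ev'_coe h, ev'_coe (by rw [h1]; exact h), h1, h2]

end Ev2

open Ev2

section

variable {X : Type} [TopologicalSpace X] {x : X}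

/-- The homotopy of loops. -/
def evH (g : Ω^ (Fin 2) X x) (q : I × (Fin 2 → I)) : X := g (kr (ev (q.1, jn q.2)))

theorem continuous_evH (g : Ω^ (Fin 2) X x) : Continuous (evH g) := by
  have h1 : KC fun q : I × (Fin 2 → I) => (kr (ev (q.1, jn q.2)) : Fin 2 → I) :=
    (kr_KC (N := Fin 2)).comp_continuous (g := fun q : I × (Fin 2 → I) => ev (q.1, jn q.2))
      (continuous_ev.comp (continuous_fst.prodMk (continuous_jn.comp continuous_snd)))
  exact h1.comp' g.1.continuous fun t ht t' ht' => (g.2 t ht).trans (g.2 t' ht').symm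

theorem evH_bdry (g : Ω^ (Fin 2) X x) (t : I) (s : Fin 2 → I) (hs : s ∈ Cube.boundary (Fin 2)) :
    evH g (t, s) = x := by
  unfold evH
  rw [jn_bdry hs, ev_infty]
  exact g.2 _ kr_infty_mem

/-- The loop at time one. -/
def ev1 (g : Ω^ (Fin 2) X x) : Ω^ (Fin 2) X x :=
  ⟨⟨fun s => evH g (1, s), (continuous_evH g).comp (continuous_const.prodMk continuous_id)⟩,
    fun s hs => evH_bdry g 1 s hs⟩

theorem sq_homotopic (g : Ω^ (Fin 2) X x) : GenLoop.Homotopic (cm0 sqS g) (ev1 g) := by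
  refine T2.homotopic_of (evH g) (continuous_evH g) ?_ (fun s => rfl) (evH_bdry g)
  intro s
  show g (kr (ev (0, jn s))) = g (kr (FS' (jn s)))
  rw [ev_zero]

theorem ev1_symm (g : Ω^ (Fin 2) X x) (s : Fin 2 → I) : ev1 g (fun i => σ (s i)) = ev1 g s := by
  show g (kr (ev (1, jn fun i => σ (s i)))) = g (kr (ev (1, jn s)))
  have hb : (fun i => σ (s i)) ∈ Cube.boundary (Fin 2) ↔ s ∈ Cube.boundary (Fin 2) := by
    constructor
    · rintro ⟨i, hi | hi⟩
      · exact ⟨i, Or.inr (by simpa using hi)⟩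
      · exact ⟨i, Or.inl (by simpa using hi)⟩
    · rintro ⟨i, hi | hi⟩
      · exact ⟨i, Or.inr (by simp [hi])⟩
      · exact ⟨i, Or.inl (by simp [hi])⟩
  by_cases hs : s ∈ Cube.boundary (Fin 2)
  · rw [jn_bdry hs, jn_bdry (hb.2 hs)]
  · rw [jn_of hs, jn_of fun h => hs (hb.1 h)]
    have e : (fun i => rho (σ (s i))) = -fun i => rho (s i) := by
      funext i
      exact Ec.pRi.2.2.2.2.2.1 (s i)
    rw [e, ev_neg]

theorem ev1_mid (g : Ω^ (Fin 2) X x) (s : Fin 2 → I) (h : (s 1 : ℝ) = 1 / 2) : ev1 g s = x := by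
  show g (kr (ev (1, jn s))) = x
  by_cases hs : s ∈ Cube.boundary (Fin 2)
  · exact evH_bdry g 1 s hs
  · rw [jn_of hs, ev_mid]
    · exact g.2 _ kr_infty_mem
    · show rho (s 1) = 0
      unfold rho
      rw [h]
      simp

/-- The lower half. -/
def lo (f : Ω^ (Fin 2) X x) (h : ∀ s, (s 1 : ℝ) = 1 / 2 → f s = x) : Ω^ (Fin 2) X x :=
  ⟨⟨fun s => f (Function.update s 1 (Set.projIcc 0 1 zero_le_one ((s 1 : ℝ) / 2))),
    f.1.continuous.comp (Continuous.update continuous_id 1 (continuous_projIcc.comp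
      ((continuous_subtype_val.comp (continuous_apply 1)).div_const 2)))⟩, by
    have hv : ∀ s : Fin 2 → I, ((Set.projIcc (0 : ℝ) 1 zero_le_one ((s 1 : ℝ) / 2) : I) : ℝ) =
        (s 1 : ℝ) / 2 := fun s => by
      rw [Set.projIcc_of_mem zero_le_one ⟨by linarith [(s 1).2.1], by linarith [(s 1).2.2]⟩]
    rintro s ⟨i, hi⟩
    show f (Function.update s 1 _) = x
    fin_cases i
    · refine f.2 _ ⟨0, ?_⟩
      rw [Function.update_of_ne (by decide)]
      exact hi
    · rcases hi with hi | hi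
      · refine f.2 _ ⟨1, Or.inl ?_⟩
        rw [Function.update_self]
        apply Subtype.ext
        rw [hv]
        have hi' : s 1 = 0 := hi
        rw [hi']
        simp
      · apply h
        rw [Function.update_self, hv]
        have hi' : s 1 = 1 := hi
        rw [hi']
        simp⟩

theorem lo_apply (f : Ω^ (Fin 2) X x) (h : ∀ s, (s 1 : ℝ) = 1 / 2 → f s = x) (s : Fin 2 → I) :
    lo f h s = f (Function.update s 1 (Set.projIcc 0 1 zero_le_one ((s 1 : ℝ) / 2))) := rfl

/-- A symmetric loop, trivial on the middle line, is a square. -/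
theorem sym_square (f : Ω^ (Fin 2) X x) (h : ∀ s, (s 1 : ℝ) = 1 / 2 → f s = x)
    (hs : ∀ s, f (fun i => σ (s i)) = f s) :
    (T2.cls f : HomotopyGroup (Fin 2) X x) = T2.cls (lo f h) * T2.cls (lo f h) := by
  have h2 : (T2.cls (lo f h) : HomotopyGroup (Fin 2) X x) =
      T2.cls (GenLoop.symmAt 0 (GenLoop.symmAt 1 (lo f h))) := by
    rw [← T2.cls_inv, ← T2.cls_inv, inv_inv]
  conv_rhs =>
    lhs
    rw [h2]
  rw [T2.cls_mul 1]
  congr 1
  ext s
  rw [show GenLoop.transAt 1 (lo f h) (GenLoop.symmAt 0 (GenLoop.symmAt 1 (lo f h))) s =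
    if (s 1 : ℝ) ≤ 1 / 2
      then lo f h (Function.update s 1 (Set.projIcc 0 1 zero_le_one (2 * (s 1 : ℝ))))
      else GenLoop.symmAt 0 (GenLoop.symmAt 1 (lo f h))
        (Function.update s 1 (Set.projIcc 0 1 zero_le_one (2 * (s 1 : ℝ) - 1))) from rfl]
  split_ifs with h3
  · rw [lo_apply, Function.update_self, Function.update_idem]
    congr 1
    funext i
    fin_cases i
    · show s 0 = Function.update s 1 _ 0
      rw [Function.update_of_ne (by decide)]
    · have e1 : ((Set.projIcc (0 : ℝ) 1 zero_le_one (2 * (s 1 : ℝ)) : I) : ℝ) = 2 * s 1 := by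
        rw [Set.projIcc_of_mem zero_le_one ⟨by linarith [(s 1).2.1], by linarith⟩]
      have e2 : 2 * (s 1 : ℝ) / 2 = s 1 := by ring
      show s 1 = Function.update s 1 _ 1
      rw [Function.update_self, e1, e2, Set.projIcc_val]
  · rw [not_le] at h3
    rw [← hs]
    have hm : (2 * (s 1 : ℝ) - 1) ∈ Set.Icc (0 : ℝ) 1 :=
      ⟨by linarith, by linarith [(s 1).2.2]⟩
    have key : ∀ v : Fin 2 → I, v 0 = σ (s 0) →
        v 1 = σ (Set.projIcc 0 1 zero_le_one (2 * (s 1 : ℝ) - 1)) →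
        f (fun i => σ (s i)) = lo f h v := by
      intro v h0 h1
      rw [lo_apply]
      congr 1
      funext i
      fin_cases i
      · show σ (s 0) = Function.update v 1 _ 0
        rw [Function.update_of_ne (by decide), h0]
      · show σ (s 1) = Function.update v 1 _ 1
        have e1 : (v 1 : ℝ) / 2 = (σ (s 1) : I) := by
          rw [h1, Set.projIcc_of_mem zero_le_one hm]
          show (1 - (2 * (s 1 : ℝ) - 1)) / 2 = 1 - (s 1 : ℝ)
          ring
        rw [Function.update_self, e1, Set.projIcc_val]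
    exact key _ (by simp) (by simp)

/-- **E2.** The squaring map has degree two. -/
theorem E2 (g : Ω^ (Fin 2) X x) :
    ∃ a : HomotopyGroup (Fin 2) X x, T2.cls (cm0 sqS g) = a * a := by
  rw [T2.cls_eq.2 (sq_homotopic g), sym_square (ev1 g) (ev1_mid g) (ev1_symm g)]
  exact ⟨_, rfl⟩

end

end Pool.Agent.Tate.R3
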