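import Pool.Agent.Lib.Tate.R.R3.Ev1

/-!
# C42 (MP_071d69_gt), block R3, evenness (helper20): E3

`sqS : SM (Fin 2) (Fin 2)`: the squaring map of the sphere.  `E3`:
`unit_(2+2) ∘ th3 = unit_2 * (unit_2 ∘ sqS)`.
-/

set_option linter.unusedSectionVars false

open Topology unitInterval Filter Set
open scoped Topology.Homotopy OnePoint

noncomputable section

namespace Pool.Agent.Tate.R3

theorem norm_sq' (d : Fin 2 → ℝ) : ‖d‖ ≤ 1 + 2 * ‖Ec.sq d‖ := by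
  have hn := norm_nonneg (Ec.sq d)
  rw [pi_norm_le_iff_of_nonneg (by linarith)]
  have hr : ∀ i, |Ec.sq d i| ≤ ‖Ec.sq d‖ := fun i => norm_le_pi_norm (Ec.sq d) i
  intro i
  rw [Real.norm_eq_abs]
  have h2 := sq_bound d _ (hr 0) (hr 1) i
  refine abs_le_of_sq_le_sq ?_ (by linarith)
  nlinarith

/-- The squaring map on the sphere. -/
def FS' : OnePoint (Fin 2 → ℝ) → OnePoint (Fin 2 → ℝ) := OnePoint.map Ec.sq

theorem continuous_FS : Continuous FS' :=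
  OnePoint.continuous_map continuous_sq (tendsto_of_bound zero_le_two norm_sq')

/-- The squaring map of the sphere. -/
def sqS : SM (Fin 2) (Fin 2) := SM.of FS' continuous_FS rfl

/-- **E3.** -/
theorem E3 (E : CSRS) : cm0 th3 (E.unit (Fin 2 ⊕ Fin 2)) =
    CSRS.prod (E.unit (Fin 2)) (cm0 sqS (E.unit (Fin 2))) := by
  ext t
  show E.unit (Fin 2 ⊕ Fin 2) (kr (F3 (jn t))) =
    E.mul (E.unit (Fin 2) fun i => t (Sum.inl i)) (E.unit (Fin 2) (kr (FS' (jn fun i => t (Sum.inr i)))))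
  rw [E.unit_mul]
  by_cases ht : t ∈ Cube.boundary (Fin 2 ⊕ Fin 2)
  · have h1 : E.unit (Fin 2 ⊕ Fin 2) (kr (F3 (jn t))) = E.pt _ := by
      rw [jn_bdry ht]
      exact (E.unit (Fin 2 ⊕ Fin 2)).2 _ ⟨Sum.inl 0, Or.inl rfl⟩
    rw [h1]
    symm
    refine (E.unit (Fin 2 ⊕ Fin 2)).2 _ ?_
    obtain ⟨i | i, hi⟩ := ht
    · exact ⟨Sum.inl i, hi⟩
    · have hb : (fun i => t (Sum.inr i)) ∈ Cube.boundary (Fin 2) := ⟨i, hi⟩
      refine ⟨Sum.inr 0, Or.inl ?_⟩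
      show kr (FS' (jn fun i => t (Sum.inr i))) 0 = 0
      rw [jn_bdry hb]
      rfl
  · have hl : (fun i => t (Sum.inl i)) ∉ Cube.boundary (Fin 2) := fun ⟨i, hi⟩ => ht ⟨Sum.inl i, hi⟩
    have hr : (fun i => t (Sum.inr i)) ∉ Cube.boundary (Fin 2) := fun ⟨i, hi⟩ => ht ⟨Sum.inr i, hi⟩
    congr 1
    rw [jn_of ht, jn_of hr]
    funext i
    rcases i with i | i
    · have h1 := congrFun (kr_jn hl) i
      rw [jn_of hl] at h1
      exact h1
    · rfl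

end Pool.Agent.Tate.R3
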