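import Pool.Agent.Lib.Tate.R.R3.Sph

/-!
# C42 (MP_071d69_gt), block R3 (helper47): families over the sphere, symmetric families over `S2 × S2`

`FL N x = Ω^N C(S2, X)`, `FS N x = Ω^N (Sy X)`, `Sy X` the space of symmetric maps `S2 × S2 → X`.
Homotopy extension: a family whose value at `np` (a symmetric family whose restriction to
`{b = np}`) is null homotopic can be deformed to a family for which it is constant.
-/

set_option linter.unusedSectionVars false

open Topology unitInterval Filter Set
open scoped Topology.Homotopy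

noncomputable section

namespace Pool.Agent.Tate.R3

open T2

section ch

/-- The vector `(c a₀, c a₁, a₂)`, `c = 1 - t min(1, max(0, 2 a₂))`. -/
def chv (t : ℝ) (a : S2) : Fin 3 → ℝ :=
  ![(1 - t * min 1 (max 0 (2 * a.1 2))) * a.1 0, (1 - t * min 1 (max 0 (2 * a.1 2))) * a.1 1, a.1 2]

theorem chv_ne (t : ℝ) (a : S2) : chv t a ≠ 0 := by
  intro h
  have h0 := congrFun h 0
  have h1 := congrFun h 1
  have h2 : a.1 2 = 0 := congrFun h 2
  have hc : (1 - t * min 1 (max 0 (2 * a.1 2))) = 1 := by
    rw [h2]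
    simp
  have h0' : a.1 0 = 0 := by
    have : (1 - t * min 1 (max 0 (2 * a.1 2))) * a.1 0 = 0 := h0
    rwa [hc, one_mul] at this
  have h1' : a.1 1 = 0 := by
    have : (1 - t * min 1 (max 0 (2 * a.1 2))) * a.1 1 = 0 := h1
    rwa [hc, one_mul] at this
  have ha := a.2
  rw [h0', h1', h2] at ha
  norm_num at ha

/-- The deformation of the sphere which collapses `a₂ ≥ 1/2` to the north pole. -/
def ch (t : I) (a : S2) : S2 := dr (chv t a)

theorem continuous_ch : Continuous fun p : I × S2 => ch p.1 p.2 := by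
  have h0 := (S2.continuous_apply 0).comp (continuous_snd (X := I))
  have h1 := (S2.continuous_apply 1).comp (continuous_snd (X := I))
  have h2 := (S2.continuous_apply 2).comp (continuous_snd (X := I))
  have ht : Continuous fun p : I × S2 => (p.1 : ℝ) := continuous_subtype_val.comp continuous_fst
  have hc : Continuous fun p : I × S2 => (1 - (p.1 : ℝ) * min 1 (max 0 (2 * p.2.1 2))) :=
    continuous_const.sub (ht.mul (continuous_const.min (continuous_const.max
      (continuous_const.mul h2))))
  have hv : Continuous fun p : I × S2 => chv p.1 p.2 := by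
    refine continuous_pi fun i => ?_
    fin_cases i
    · exact hc.mul h0
    · exact hc.mul h1
    · exact h2
  rw [continuous_iff_continuousAt]
  intro p
  exact ContinuousAt.comp (g := dr) (f := fun p : I × S2 => chv p.1 p.2)
    (continuousAt_dr (chv_ne _ _)) hv.continuousAt

theorem ch_zero (a : S2) : ch 0 a = a := by
  have : chv ((0 : I) : ℝ) a = a.1 := by
    funext i
    fin_cases i <;> simp [chv]
  unfold ch
  rw [this, dr_self]

theorem dr_np {u : Fin 3 → ℝ} (h0 : u 0 = 0) (h1 : u 1 = 0) (h2 : 0 < u 2) : dr u = np := by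
  have hu : u ≠ 0 := fun h => by rw [h] at h2; simp at h2
  apply S2.eq_np
  rw [dr_apply hu]
  have : nrm u = u 2 := by
    unfold nrm
    rw [h0, h1]
    simp only [ne_eq, OfNat.ofNat_ne_zero, not_false_eq_true, zero_pow, zero_add, add_zero]
    exact Real.sqrt_sq h2.le
  rw [this, div_self h2.ne']

theorem ch_one {a : S2} (h : 1 / 2 ≤ a.1 2) : ch 1 a = np := by
  have hc : (1 - ((1 : I) : ℝ) * min 1 (max 0 (2 * a.1 2))) = 0 := by
    rw [max_eq_right (by linarith), min_eq_left (by linarith)]
    simp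
  refine dr_np ?_ ?_ ?_
  · show (1 - ((1 : I) : ℝ) * min 1 (max 0 (2 * a.1 2))) * a.1 0 = 0
    rw [hc, zero_mul]
  · show (1 - ((1 : I) : ℝ) * min 1 (max 0 (2 * a.1 2))) * a.1 1 = 0
    rw [hc, zero_mul]
  · show 0 < a.1 2
    linarith

theorem ch_np (t : I) : ch t np = np := by
  refine dr_np ?_ ?_ ?_
  · show _ * np.1 0 = 0
    simp [np]
  · show _ * np.1 1 = 0
    simp [np]
  · show 0 < np.1 2
    simp [np]

/-- `max 0 (2 a₂ - 1)` -/
def ta (a : S2) : I := Set.projIcc 0 1 zero_le_one (2 * a.1 2 - 1)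

theorem continuous_ta : Continuous ta := by
  unfold ta
  exact continuous_projIcc.comp ((continuous_const.mul (S2.continuous_apply 2)).sub
    continuous_const)

theorem ta_le {a : S2} (h : a.1 2 ≤ 1 / 2) : ta a = 0 :=
  projIcc_of_le_left _ (by linarith)

theorem ta_np : ta np = 1 := projIcc_of_right_le _ (by
  show (1 : ℝ) ≤ 2 * np.1 2 - 1
  simp [np]
  norm_num)

end ch

section FL

variable {N M X Z : Type} [TopologicalSpace X] [TopologicalSpace Z] {x : X}

/-- Loops of maps `S2 → X`. -/
abbrev FL (N : Type) (x : X) := Ω^ N C(S2, X) (ContinuousMap.const S2 x)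

/-- Symmetric maps `S2 × S2 → X`. -/
def Sy (X : Type) [TopologicalSpace X] : Type := {φ : C(S2 × S2, X) // ∀ a b, φ (a, b) = φ (b, a)}

instance : TopologicalSpace (Sy X) := instTopologicalSpaceSubtype

/-- The constant map. -/
def syc (x : X) : Sy X := ⟨ContinuousMap.const _ x, fun _ _ => rfl⟩

/-- Loops of symmetric maps. -/
abbrev FS (N : Type) (x : X) := Ω^ N (Sy X) (syc x)

theorem FL.bdry (f : FL N x) {s : N → I} (hs : s ∈ Cube.boundary N) (a : S2) : f s a = x := by
  have h : f s = ContinuousMap.const S2 x := f.2 s hs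
  rw [h]
  rfl

theorem FS.bdry (f : FS N x) {s : N → I} (hs : s ∈ Cube.boundary N) (k : S2 × S2) :
    (f s).1 k = x := by
  have h : f s = syc x := f.2 s hs
  rw [h]
  rfl

theorem FL.cont (f : FL N x) : Continuous fun p : (N → I) × S2 => f p.1 p.2 :=
  continuous_eval.comp ((f.1.continuous.comp continuous_fst).prodMk continuous_snd)

theorem FS.cont (f : FS N x) : Continuous fun p : (N → I) × (S2 × S2) => (f p.1).1 p.2 :=
  continuous_eval.comp ((continuous_subtype_val.comp (f.1.continuous.comp
    continuous_fst)).prodMk continuous_snd)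

/-- Families over the sphere. -/
def mkL (F : (N → I) → S2 → X) (hc : Continuous fun p : (N → I) × S2 => F p.1 p.2)
    (hb : ∀ s ∈ Cube.boundary N, ∀ a, F s a = x) : FL N x :=
  ⟨⟨fun s => ⟨F s, hc.comp (continuous_const.prodMk continuous_id)⟩,
    ContinuousMap.continuous_of_continuous_uncurry _ hc⟩, fun s hs =>
      ContinuousMap.ext fun a => hb s hs a⟩

theorem mkL_apply (F : (N → I) → S2 → X) (hc : Continuous fun p : (N → I) × S2 => F p.1 p.2)
    (hb : ∀ s ∈ Cube.boundary N, ∀ a, F s a = x) (s : N → I) (a : S2) :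
    mkL F hc hb s a = F s a := rfl

/-- Symmetric families. -/
def mkS (F : (N → I) → S2 × S2 → X) (hc : Continuous fun p : (N → I) × (S2 × S2) => F p.1 p.2)
    (hs : ∀ s a b, F s (a, b) = F s (b, a)) (hb : ∀ s ∈ Cube.boundary N, ∀ a, F s a = x) :
    FS N x :=
  ⟨⟨fun s => ⟨⟨F s, hc.comp (continuous_const.prodMk continuous_id)⟩, hs s⟩,
    Continuous.subtype_mk (ContinuousMap.continuous_of_continuous_uncurry _ hc) _⟩, fun s hs =>
      Subtype.ext (ContinuousMap.ext fun a => hb s hs a)⟩

theorem mkS_apply (F : (N → I) → S2 × S2 → X)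
    (hc : Continuous fun p : (N → I) × (S2 × S2) => F p.1 p.2)
    (hs : ∀ s a b, F s (a, b) = F s (b, a)) (hb : ∀ s ∈ Cube.boundary N, ∀ a, F s a = x)
    (s : N → I) (k : S2 × S2) : (mkS F hc hs hb s).1 k = F s k := rfl

/-- Homotopies of families over the sphere. -/
theorem htL {f g : FL N x} (H : I × (N → I) → S2 → X)
    (hc : Continuous fun p : (I × (N → I)) × S2 => H p.1 p.2) (h0 : ∀ s a, H (0, s) a = f s a)
    (h1 : ∀ s a, H (1, s) a = g s a) (hb : ∀ t, ∀ s ∈ Cube.boundary N, ∀ a, H (t, s) a = x) :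
    GenLoop.Homotopic f g := by
  refine homotopic_of (fun p => ⟨H p, hc.comp (continuous_const.prodMk continuous_id)⟩)
    (ContinuousMap.continuous_of_continuous_uncurry _ hc) ?_ ?_ ?_
  · intro s; exact ContinuousMap.ext fun a => h0 s a
  · intro s; exact ContinuousMap.ext fun a => h1 s a
  · intro t s hs; exact ContinuousMap.ext fun a => hb t s hs a

/-- Homotopies of symmetric families. -/
theorem htS {f g : FS N x} (H : I × (N → I) → S2 × S2 → X)
    (hc : Continuous fun p : (I × (N → I)) × (S2 × S2) => H p.1 p.2)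
    (hs : ∀ p a b, H p (a, b) = H p (b, a)) (h0 : ∀ s a, H (0, s) a = (f s).1 a)
    (h1 : ∀ s a, H (1, s) a = (g s).1 a) (hb : ∀ t, ∀ s ∈ Cube.boundary N, ∀ a, H (t, s) a = x) :
    GenLoop.Homotopic f g := by
  refine homotopic_of (fun p => ⟨⟨H p, hc.comp (continuous_const.prodMk continuous_id)⟩, hs p⟩)
    (Continuous.subtype_mk (ContinuousMap.continuous_of_continuous_uncurry _ hc) _) ?_ ?_ ?_
  · intro s; exact Subtype.ext (ContinuousMap.ext fun a => h0 s a)
  · intro s; exact Subtype.ext (ContinuousMap.ext fun a => h1 s a)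
  · intro t s hs; exact Subtype.ext (ContinuousMap.ext fun a => hb t s hs a)

/-- Evaluation at the north pole. -/
def evC (X : Type) [TopologicalSpace X] : C(C(S2, X), X) :=
  ⟨fun φ => φ np, continuous_eval_const np⟩

/-- Restriction to `b = np`. -/
def rsC (X : Type) [TopologicalSpace X] : C(Sy X, C(S2, X)) :=
  ⟨fun φ => ⟨fun a => φ.1 (a, np), φ.1.continuous.comp (continuous_id.prodMk continuous_const)⟩, by
    refine ContinuousMap.continuous_of_continuous_uncurry _ ?_
    show Continuous fun p : Sy X × S2 => p.1.1 (p.2, np)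
    exact continuous_eval.comp ((continuous_subtype_val.comp continuous_fst).prodMk
      (continuous_snd.prodMk continuous_const))⟩

theorem evC_pt : evC X (ContinuousMap.const S2 x) = x := rfl

theorem rsC_pt : rsC X (syc x) = ContinuousMap.const S2 x := rfl

/-- Homotopy extension for `{np} ⊆ S2`. -/
theorem hepL (f : FL N x) (h : GenLoop.Homotopic (post (evC X) evC_pt f) GenLoop.const) :
    ∃ g : FL N x, GenLoop.Homotopic f g ∧ ∀ s, g s np = x := by
  obtain ⟨H, hc, h0, h1, hb⟩ := Homotopic.exists_map h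
  have h0' : ∀ s, H (0, s) = f s np := h0
  have h1' : ∀ s, H (1, s) = x := h1
  -- the deformation
  let F : I × (N → I) → S2 → X := fun p a =>
    if 1 / 2 ≤ a.1 2 then H (p.1 * ta a, p.2) else f p.2 (ch 1 a)
  have hF : Continuous fun p : (I × (N → I)) × S2 => F p.1 p.2 := by
    refine Continuous.if_le ?_ ?_ continuous_const
      ((S2.continuous_apply 2).comp continuous_snd) ?_
    · refine hc.comp (Continuous.prodMk ?_ (continuous_snd.comp continuous_fst))
      exact (continuous_fst.comp continuous_fst).mul (continuous_ta.comp continuous_snd)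
    · exact (FL.cont f).comp ((continuous_snd.comp continuous_fst).prodMk
        (continuous_ch.comp (continuous_const.prodMk continuous_snd)))
    · rintro ⟨⟨u, s⟩, a⟩ ha
      have ha' : a.1 2 = 1 / 2 := ha.symm
      show H (u * ta a, s) = f s (ch 1 a)
      rw [ta_le ha'.le, mul_zero, h0', ch_one ha'.ge]
  have hFb : ∀ t, ∀ s ∈ Cube.boundary N, ∀ a, F (t, s) a = x := by
    intro t s hs a
    show (if 1 / 2 ≤ a.1 2 then H (t * ta a, s) else f s (ch 1 a)) = x
    split_ifs
    · exact hb _ s hs
    · exact FL.bdry f hs _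
  let g : FL N x := mkL (fun s => F (1, s))
    (hF.comp (g := fun p : (I × (N → I)) × S2 => F p.1 p.2)
      (f := fun p : (N → I) × S2 => ((1, p.1), p.2)) (by fun_prop)) (hFb 1)
  let f1 : FL N x := mkL (fun s a => f s (ch 1 a)) ((FL.cont f).comp (continuous_fst.prodMk
    (continuous_ch.comp (continuous_const.prodMk continuous_snd)))) fun s hs a => FL.bdry f hs _
  have e1 : GenLoop.Homotopic f f1 := by
    refine htL (fun p a => f p.2 (ch p.1 a)) ?_ ?_ ?_ ?_
    · exact (FL.cont f).comp ((continuous_snd.comp continuous_fst).prodMk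
        (continuous_ch.comp ((continuous_fst.comp continuous_fst).prodMk continuous_snd)))
    · intro s a
      show f s (ch 0 a) = f s a
      rw [ch_zero]
    · intro s a; rfl
    · intro t s hs a; exact FL.bdry f hs _
  have e2 : GenLoop.Homotopic f1 g := by
    refine htL F hF ?_ ?_ hFb
    · intro s a
      show (if 1 / 2 ≤ a.1 2 then H (0 * ta a, s) else f s (ch 1 a)) = f s (ch 1 a)
      split_ifs with h2
      · rw [zero_mul, h0', ch_one h2]
      · rfl
    · intro s a; rfl
  refine ⟨g, e1.trans e2, fun s => ?_⟩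
  show (if 1 / 2 ≤ np.1 2 then H (1 * ta np, s) else f s (ch 1 np)) = x
  rw [if_pos (by simp [np]; norm_num), ta_np, one_mul, h1']

/-- Homotopy extension for symmetric families. -/
theorem hepS (f : FS N x) (h : GenLoop.Homotopic (post (rsC X) rsC_pt f) GenLoop.const) :
    ∃ g : FS N x, GenLoop.Homotopic f g ∧ ∀ s a, (g s).1 (a, np) = x := by
  obtain ⟨H', hc', h0, h1, hb⟩ := Homotopic.exists_map h
  let H : I × (N → I) → S2 → X := fun p a => H' p a
  have hc : Continuous fun p : (I × (N → I)) × S2 => H p.1 p.2 :=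
    continuous_eval.comp ((hc'.comp continuous_fst).prodMk continuous_snd)
  have h0' : ∀ s a, H (0, s) a = (f s).1 (a, np) := fun s a => by
    show (H' (0, s)) a = _
    rw [h0]
    rfl
  have h1' : ∀ s a, H (1, s) a = x := fun s a => by
    show (H' (1, s)) a = _
    rw [h1]
    rfl
  have hb' : ∀ t, ∀ s ∈ Cube.boundary N, ∀ a, H (t, s) a = x := fun t s hs a => by
    show (H' (t, s)) a = _
    rw [hb t s hs]
    rfl
  -- the deformation
  let G : I × (N → I) → S2 × S2 → X := fun p k =>
    if 1 / 2 ≤ k.1.1 2 then H (p.1 * ta k.1, p.2) (ch 1 k.2) else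
      (f p.2).1 (ch 1 k.1, ch 1 k.2)
  let F : I × (N → I) → S2 × S2 → X := fun p k =>
    if 1 / 2 ≤ k.2.1 2 then H (p.1 * max (ta k.1) (ta k.2), p.2) (ch 1 k.1) else G p k
  have cch : Continuous (ch 1) := continuous_ch.comp (continuous_const.prodMk continuous_id)
  have c1 : Continuous fun p : (I × (N → I)) × (S2 × S2) => p.2.1.1 2 :=
    (S2.continuous_apply 2).comp (continuous_fst.comp continuous_snd)
  have c2 : Continuous fun p : (I × (N → I)) × (S2 × S2) => p.2.2.1 2 :=
    (S2.continuous_apply 2).comp (continuous_snd.comp continuous_snd)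
  have t1 : Continuous fun p : (I × (N → I)) × (S2 × S2) => ta p.2.1 :=
    continuous_ta.comp (continuous_fst.comp continuous_snd)
  have t2 : Continuous fun p : (I × (N → I)) × (S2 × S2) => ta p.2.2 :=
    continuous_ta.comp (continuous_snd.comp continuous_snd)
  have cu : Continuous fun p : (I × (N → I)) × (S2 × S2) => p.1.1 :=
    continuous_fst.comp continuous_fst
  have cs : Continuous fun p : (I × (N → I)) × (S2 × S2) => p.1.2 :=
    continuous_snd.comp continuous_fst
  have d1 : Continuous fun p : (I × (N → I)) × (S2 × S2) => ch 1 p.2.1 :=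
    cch.comp (continuous_fst.comp continuous_snd)
  have d2 : Continuous fun p : (I × (N → I)) × (S2 × S2) => ch 1 p.2.2 :=
    cch.comp (continuous_snd.comp continuous_snd)
  have hG : Continuous fun p : (I × (N → I)) × (S2 × S2) => G p.1 p.2 := by
    refine Continuous.if_le ?_ ?_ continuous_const c1 ?_
    · exact hc.comp (((cu.mul t1).prodMk cs).prodMk d2)
    · exact (FS.cont f).comp (cs.prodMk (d1.prodMk d2))
    · rintro ⟨⟨u, s⟩, a, b⟩ ha
      have ha' : a.1 2 = 1 / 2 := ha.symm
      show H (u * ta a, s) (ch 1 b) = (f s).1 (ch 1 a, ch 1 b)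
      rw [ta_le ha'.le, mul_zero, h0', ch_one ha'.ge, (f s).2]
  have hF : Continuous fun p : (I × (N → I)) × (S2 × S2) => F p.1 p.2 := by
    refine Continuous.if_le ?_ hG continuous_const c2 ?_
    · exact hc.comp (((cu.mul (t1.max t2)).prodMk cs).prodMk d1)
    · rintro ⟨⟨u, s⟩, a, b⟩ ha
      have ha' : b.1 2 = 1 / 2 := ha.symm
      have hm : max (ta a) (ta b) = ta a := by
        rw [ta_le ha'.le]
        exact max_eq_left (ta a).2.1
      show H (u * max (ta a) (ta b), s) (ch 1 a) = if 1 / 2 ≤ a.1 2 then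
        H (u * ta a, s) (ch 1 b) else (f s).1 (ch 1 a, ch 1 b)
      rw [hm]
      split_ifs with h2
      · rw [ch_one h2, ch_one ha'.ge]
      · rw [ta_le (not_le.1 h2).le, mul_zero, h0', ch_one ha'.ge]
  have hFs : ∀ p a b, F p (a, b) = F p (b, a) := by
    rintro ⟨u, s⟩ a b
    show (if 1 / 2 ≤ b.1 2 then H (u * max (ta a) (ta b), s) (ch 1 a) else
        if 1 / 2 ≤ a.1 2 then H (u * ta a, s) (ch 1 b) else (f s).1 (ch 1 a, ch 1 b)) =
      if 1 / 2 ≤ a.1 2 then H (u * max (ta b) (ta a), s) (ch 1 b) else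
        if 1 / 2 ≤ b.1 2 then H (u * ta b, s) (ch 1 a) else (f s).1 (ch 1 b, ch 1 a)
    by_cases ha : 1 / 2 ≤ a.1 2 <;> by_cases hb2 : 1 / 2 ≤ b.1 2
    · rw [if_pos ha, if_pos hb2, if_pos ha, max_comm, ch_one ha, ch_one hb2]
    · rw [if_neg hb2, if_pos ha, if_pos ha]
      have hm : max (ta b) (ta a) = ta a := by
        rw [ta_le (not_le.1 hb2).le]
        exact max_eq_right (ta a).2.1
      rw [hm]
    · rw [if_pos hb2, if_neg ha, if_pos hb2]
      have hm : max (ta a) (ta b) = ta b := by
        rw [ta_le (not_le.1 ha).le]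
        exact max_eq_right (ta b).2.1
      rw [hm]
    · rw [if_neg hb2, if_neg ha, if_neg ha, if_neg hb2, (f s).2]
  have hFb : ∀ t, ∀ s ∈ Cube.boundary N, ∀ k, F (t, s) k = x := by
    intro t s hs k
    show (if 1 / 2 ≤ k.2.1 2 then H (t * max (ta k.1) (ta k.2), s) (ch 1 k.1) else
      if 1 / 2 ≤ k.1.1 2 then H (t * ta k.1, s) (ch 1 k.2) else
        (f s).1 (ch 1 k.1, ch 1 k.2)) = x
    split_ifs
    · exact hb' _ s hs _
    · exact hb' _ s hs _
    · exact FS.bdry f hs _
  let g : FS N x := mkS (fun s => F (1, s))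
    (hF.comp (g := fun p : (I × (N → I)) × (S2 × S2) => F p.1 p.2)
      (f := fun p : (N → I) × (S2 × S2) => ((1, p.1), p.2)) (by fun_prop)) (fun s => hFs (1, s))
    (hFb 1)
  let f1 : FS N x := mkS (fun s k => (f s).1 (ch 1 k.1, ch 1 k.2)) ((FS.cont f).comp
    (continuous_fst.prodMk ((cch.comp (continuous_fst.comp continuous_snd)).prodMk
      (cch.comp (continuous_snd.comp continuous_snd))))) (fun s a b => (f s).2 _ _)
    fun s hs a => FS.bdry f hs _
  have e1 : GenLoop.Homotopic f f1 := by
    refine htS (fun p k => (f p.2).1 (ch p.1 k.1, ch p.1 k.2)) ?_ ?_ ?_ ?_ ?_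
    · exact (FS.cont f).comp (cs.prodMk ((continuous_ch.comp (cu.prodMk
        (continuous_fst.comp continuous_snd))).prodMk (continuous_ch.comp (cu.prodMk
        (continuous_snd.comp continuous_snd)))))
    · intro p a b; exact (f p.2).2 _ _
    · intro s k
      show (f s).1 (ch 0 k.1, ch 0 k.2) = (f s).1 k
      rw [ch_zero, ch_zero]
    · intro s a; rfl
    · intro t s hs a; exact FS.bdry f hs _
  have e2 : GenLoop.Homotopic f1 g := by
    refine htS F hF hFs ?_ ?_ hFb
    · intro s k
      show (if 1 / 2 ≤ k.2.1 2 then H (0 * max (ta k.1) (ta k.2), s) (ch 1 k.1) else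
        if 1 / 2 ≤ k.1.1 2 then H (0 * ta k.1, s) (ch 1 k.2) else
          (f s).1 (ch 1 k.1, ch 1 k.2)) = (f s).1 (ch 1 k.1, ch 1 k.2)
      split_ifs with h2 h3
      · rw [zero_mul, h0', ch_one h2]
      · rw [zero_mul, h0', ch_one h3, (f s).2]
      · rfl
    · intro s a; rfl
  refine ⟨g, e1.trans e2, fun s a => ?_⟩
  show (if 1 / 2 ≤ np.1 2 then H (1 * max (ta a) (ta np), s) (ch 1 a) else _) = x
  have hm : max (ta a) (ta np) = 1 := by
    rw [ta_np]
    exact max_eq_right (ta a).2.2
  rw [if_pos (by simp [np]; norm_num), hm, one_mul, h1']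

end FL

end Pool.Agent.Tate.R3
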