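import Pool.Agent.Lib.Tate.T2.Cls
import Pool.Agent.Lib.Tate.R.R3.Top
import Pool.Agent.Lib.Tate.R.R3.Ev1
import Pool.Agent.Lib.Tate.R.R3.Ev2
import Pool.Agent.Lib.Tate.R.R3.Ev3

/-!
# C42 (MP_071d69_gt), block R3 (helper35): divisibility by two

Composition with maps of spheres and the ideals `InI` (F1); symmetric loops (F2) and symmetric
families which vanish for `b = np` (F3) are divisible by two.
-/

set_option linter.unusedSectionVars false

open Topology unitInterval Filter Set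
open scoped Topology.Homotopy

noncomputable section

namespace Pool.Agent.Tate.R3

open CSRS T2

theorem lrho_refl_right {E : CSRS} {P Q A : Type} [Fintype P] [DecidableEq P]
    [Fintype Q] [DecidableEq Q] [Fintype A] [DecidableEq A] (e : P ≃ Q) (f : E.L P A) :
    lrho e (Equiv.refl A) f = relab e f := by
  ext s
  exact E.map_refl _

section F

variable {E : CSRS} [hF : Fact (SS E)]
variable {N P Q A : Type} [Fintype N] [DecidableEq N] [Fintype P] [DecidableEq P]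
  [Fintype Q] [DecidableEq Q] [Fintype A] [DecidableEq A]

/-- A class exists for a loop with the same numbers of coordinates and levels. -/
theorem exists_isC {P' : Type} [Fintype P'] [DecidableEq P'] {f : E.cp.L P A} {z : StR E}
    (h : IsC f z) (e : P' ≃ P) (g : E.cp.L P' A) : ∃ z', IsC g z' := by
  obtain ⟨A', C', _, _, _, _, eP, eB, -⟩ := h
  exact ⟨_, isC_lrho_self (e.trans eP) eB g⟩

/-- The class of `unit ∘ κ`. -/
theorem exists_isC_cm0 (κ : SM P N) (e : P ≃ N) :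
    ∃ z, IsC (cm0 κ (E.cp.unit N)) z := by
  exact ⟨_, isC_lrho_self (A := Empty) (C := N) (e.trans (Equiv.emptySum (Empty × Fin 3) N).symm)
    (Equiv.emptySum Empty N).symm _⟩

/-- Divisibility passes from `(f, unit ∘ κ)` to `f ∘ κ`. -/
theorem inI_cm_of [Nonempty N] [Nonempty P] (κ : SM P N) (e : P ≃ N) (f : E.cp.L (N ⊕ Q) A)
    (K : Ideal (StR E)) {z : StR E} (hz : IsC f z)
    (h : InI K (CSRS.prod f (cm0 κ (E.cp.unit N)))) : InI K (cm κ f) := by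
  obtain ⟨ε, hε⟩ := R3.comp (E := E.cp) κ f
  rw [hmul_mk, rho_mk, hmul_mk] at hε
  have h1 : InI K (lrho (sw3 N Q P) (Equiv.refl (A ⊕ N)) (CSRS.prod f (cm0 κ (E.cp.unit N)))) :=
    (InI.lrho_iff _ _).2 h
  obtain ⟨x, hx, h2⟩ := h1
  have hne : Nonempty ((P ⊕ Q) ⊕ N) := ⟨Sum.inr (Classical.arbitrary N)⟩
  have h3 : InI K (CSRS.prod (cm κ f) (E.cp.unit N)) := ⟨x, hx, h2.of_zpow ε hε⟩
  have hne2 : Nonempty (P ⊕ Q) := ⟨Sum.inl (Classical.arbitrary P)⟩
  obtain ⟨z', hz'⟩ := exists_isC hz (Equiv.sumCongr e (Equiv.refl Q)) (cm κ f)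
  exact (InI.prod_unit_iff hz').1 h3

/-- **F1.** Composition with a map of spheres. -/
theorem inI_cm [Nonempty N] [Nonempty P] (κ : SM P N) (e : P ≃ N) (f : E.cp.L (N ⊕ Q) A)
    (K : Ideal (StR E)) (h : InI K f) : InI K (cm κ f) := by
  obtain ⟨y, hy⟩ := exists_isC_cm0 (E := E) κ e
  obtain ⟨z, -, hz⟩ := id h
  exact inI_cm_of κ e f K hz (h.prod_left hy)

/-- The class of `unit ∘ sq` is divisible by two. -/
theorem inI_sqS : InI (Ideal.span {(2 : StR E)}) (cm0 sqS (E.cp.unit (Fin 2))) := by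
  obtain ⟨a, ha⟩ := E2 (E.cp.unit (Fin 2))
  let eP : Fin 2 ≃ (Empty × Fin 3) ⊕ Fin 2 := (Equiv.emptySum (Empty × Fin 3) (Fin 2)).symm
  let eB : Fin 2 ≃ Empty ⊕ Fin 2 := (Equiv.emptySum Empty (Fin 2)).symm
  refine inI_of_c eP eB ?_
  have hne : Nonempty ((Empty × Fin 3) ⊕ Fin 2) := ⟨Sum.inr 0⟩
  have h1 : StR.c (lrho eP eB (cm0 sqS (E.cp.unit (Fin 2)))) =
      cl (T2.rho eP eB (a * a) : G E Empty (Fin 2)) := by
    rw [← ha]
    rfl
  rw [h1, rho_mul, cl_mul', Ideal.mem_span_singleton]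
  exact ⟨_, (two_mul _).symm⟩

/-- **F2.** Symmetric loops are divisible by two. -/
theorem inI_symm (g : E.cp.L (N ⊕ (Fin 2 ⊕ Fin 2)) A)
    (hg : ∀ (s : N → I) (t t' : Fin 2 → I),
      g (Sum.elim s (Sum.elim t t')) = g (Sum.elim s (Sum.elim t' t)))
    {z : StR E} (hz : IsC g z) : InI (Ideal.span {(2 : StR E)}) g := by
  obtain ⟨K, hK⟩ := E1 g hg
  set K' : E.cp.L ((Fin 2 ⊕ Fin 2) ⊕ N) A := relab (Equiv.sumComm _ _) K with hK'
  obtain ⟨z', hz'⟩ := exists_isC hz (Equiv.sumComm (Fin 2 ⊕ Fin 2) N) K'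
  obtain ⟨z3, hz3⟩ := exists_isC hz (Equiv.sumComm (Fin 2 ⊕ Fin 2) N) (cm th3 K')
  -- `th3`
  have h1 : InI (Ideal.span {(2 : StR E)}) (CSRS.prod K' (cm0 th3 (E.cp.unit (Fin 2 ⊕ Fin 2)))) := by
    rw [E3 E.cp]
    have h2 : InI (Ideal.span {(2 : StR E)}) (CSRS.prod (E.cp.unit (Fin 2))
        (cm0 sqS (E.cp.unit (Fin 2)))) := inI_sqS.prod_right isC_unit
    exact h2.prod_right hz'
  have h2 : InI (Ideal.span {(2 : StR E)}) (cm th3 K') :=
    inI_cm_of th3 (Equiv.refl _) K' _ hz' h1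
  have h3 : InI (Ideal.span {(2 : StR E)}) (cm th1 (cm th3 K')) :=
    inI_cm th1 (Equiv.refl _) _ _ h2
  have h4 : cm th1 (cm th3 K') = relab (Equiv.sumComm N (Fin 2 ⊕ Fin 2)) g := by
    ext s
    have h5 := hK (fun i => s (Sum.inr i)) (fun i => s (Sum.inl i))
    have e1 : (fun m => s (Equiv.sumComm N (Fin 2 ⊕ Fin 2) m)) =
        Sum.elim (fun i => s (Sum.inr i)) fun i => s (Sum.inl i) := by
      funext m
      rcases m with m | m <;> rfl
    rw [relab_apply, e1, h5]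
    show K _ = K _
    congr 1
    funext m
    rcases m with m | m <;> rfl
  rw [h4, ← lrho_refl_right (E := E.cp)] at h3
  exact (InI.lrho_iff _ _).1 h3

/-- **F3.** Based symmetric families give loops which are divisible by two. -/
theorem inI_tp {U V : Type} [Fintype U] [DecidableEq U] [Fintype V] [DecidableEq V]
    (g : FS (Nt U V) (E.cp.pt A)) (hg : ∀ s a, (g s).1 (a, np) = E.cp.pt A)
    {z : StR E} (hz : IsC (tp g : E.cp.L (Pt U V) A) z) :
    InI (Ideal.span {(2 : StR E)}) (tp g : E.cp.L (Pt U V) A) := by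
  have e6 : Fin 2 × Fin 3 ≃ Fin 2 ⊕ (Fin 2 ⊕ Fin 2) := Fintype.equivOfCardEq rfl
  -- the class of `gg g`
  have eG : Nt U V ⊕ (Fin 2 ⊕ Fin 2) ≃ Pt U V :=
    (w1 U V (Fin 2 ⊕ Fin 2)).trans ((Equiv.sumCongr e6.symm (Equiv.refl _)).trans
      (Equiv.sumAssoc (Fin 2 × Fin 3) U V).symm)
  obtain ⟨z1, hz1⟩ := exists_isC hz eG (gg g hg : E.cp.L (Nt U V ⊕ (Fin 2 ⊕ Fin 2)) A)
  have h1 : InI (Ideal.span {(2 : StR E)}) (gg g hg : E.cp.L (Nt U V ⊕ (Fin 2 ⊕ Fin 2)) A) :=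
    inI_symm _ (gg_symm g hg) hz1
  have h2 : InI (Ideal.span {(2 : StR E)}) (relab (w1 U V (Fin 2 ⊕ Fin 2)) (gg g hg) :
      E.cp.L ((Fin 2 ⊕ (Fin 2 ⊕ Fin 2)) ⊕ (U ⊕ V)) A) := by
    rw [← lrho_refl_right (E := E.cp)]
    exact (InI.lrho_iff _ _).2 h1
  have h3 := inI_cm K2 e6 _ _ h2
  rw [tp_eq g hg, ← lrho_refl_right (E := E.cp)]
  exact (InI.lrho_iff _ _).2 h3

end F

end Pool.Agent.Tate.R3
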