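import Pool.Agent.Lib.Tate.R.R3.Xf
import Pool.Agent.Lib.Tate.R.R3.Add

/-!
# C42 (MP_071d69_gt), block R3 (helper47): the loop `Γ(s) = x(dr s_0, dr s_1)(rad s_0, rad s_1, t)`

It is homotopic to the product of `bet` with a map of spheres.
-/

set_option linter.unusedSectionVars false

open Topology unitInterval Filter Set
open scoped Topology.Homotopy OnePoint ZeroAtInfty

noncomputable section

namespace Pool.Agent.Tate.R3

open CSRS T2

/-- The coordinates of `Γ`. -/
abbrev PG : Type := (Fin 2 × Fin 3) ⊕ Unit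

/-- The vector `ctr s_r`. -/
def cu1 (r : Fin 2) (s : PG → I) : Fin 3 → ℝ := ctr fun i => s (Sum.inl (r, i))

/-- The radii. -/
def trd1 (s : PG → I) : Fin 2 ⊕ Unit → I :=
  Sum.elim (fun r => rad fun i => s (Sum.inl (r, i))) fun u => s (Sum.inr u)

/-- The directions. -/
def tdr1 (s : PG → I) : S2 × S2 := (dr (cu1 0 s), dr (cu1 1 s))

theorem continuous_trd1 : Continuous trd1 := by
  refine continuous_elim ?_ (by fun_prop)
  exact continuous_pi fun r => continuous_rad.comp (by fun_prop)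

theorem continuous_cu1 (r : Fin 2) : Continuous (cu1 r) := continuous_ctr.comp (by fun_prop)

theorem cu1_ne {s : PG → I} (h : trd1 s ∉ Cube.boundary (Fin 2 ⊕ Unit)) (r : Fin 2) :
    cu1 r s ≠ 0 := fun h' => h ⟨Sum.inl r, Or.inl (rad_eq_zero h')⟩

theorem continuousAt_tdr1 {s : PG → I} (h : trd1 s ∉ Cube.boundary (Fin 2 ⊕ Unit)) :
    ContinuousAt tdr1 s := by
  refine ContinuousAt.prodMk ?_ ?_
  · exact ContinuousAt.comp (g := dr) (f := cu1 0)
      (continuousAt_dr (cu1_ne h 0)) (continuous_cu1 0).continuousAt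
  · exact ContinuousAt.comp (g := dr) (f := cu1 1)
      (continuousAt_dr (cu1_ne h 1)) (continuous_cu1 1).continuousAt

theorem trd1_bdry {s : PG → I} (h : s ∈ Cube.boundary PG) :
    trd1 s ∈ Cube.boundary (Fin 2 ⊕ Unit) := by
  obtain ⟨⟨r, i⟩ | u, hi⟩ := h
  · exact ⟨Sum.inl r, Or.inr (rad_bdry ⟨i, hi⟩)⟩
  · exact ⟨Sum.inr u, hi⟩

/-- Continuity of functions of the radii and directions. -/
theorem cont1 {Y X : Type} [TopologicalSpace Y] [TopologicalSpace X] {x : X}
    {F : (Y × (Fin 2 ⊕ Unit → I)) × (S2 × S2) → X} (hF : Continuous F)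
    (hb : ∀ y, ∀ s ∈ Cube.boundary (Fin 2 ⊕ Unit), ∀ k, F ((y, s), k) = x) :
    Continuous fun p : Y × (PG → I) => F ((p.1, trd1 p.2), tdr1 p.2) := by
  refine continuous_part hF (D := {t | t.2 ∈ Cube.boundary (Fin 2 ⊕ Unit)}) ?_
    (g := fun p : Y × (PG → I) => (p.1, trd1 p.2)) (k := fun p => tdr1 p.2)
    (continuous_fst.prodMk (continuous_trd1.comp continuous_snd)) ?_
  · rintro ⟨y, s⟩ ht k k'
    rw [hb y s ht, hb y s ht]
  · intro p hp
    exact ContinuousAt.comp (g := tdr1) (f := Prod.snd) (x := p) (continuousAt_tdr1 hp)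
      continuousAt_snd

/-- Continuity of functions of the radii and directions. -/
theorem cont1' {X : Type} [TopologicalSpace X] {x : X}
    {F : (Fin 2 ⊕ Unit → I) × (S2 × S2) → X} (hF : Continuous F)
    (hb : ∀ s ∈ Cube.boundary (Fin 2 ⊕ Unit), ∀ k, F (s, k) = x) :
    Continuous fun s : PG → I => F (trd1 s, tdr1 s) := by
  refine continuous_part hF (D := Cube.boundary (Fin 2 ⊕ Unit)) ?_
    (g := trd1) (k := tdr1) continuous_trd1 fun _ hs => continuousAt_tdr1 hs
  intro s hs k k'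
  rw [hb s hs, hb s hs]

section mk

variable {N A : Type} [Fintype A] [DecidableEq A]

/-- Loops in the spaces of the witness. -/
def mkW (f : (N → I) → WX A) (hc : Continuous f) (hb : ∀ s ∈ Cube.boundary N, f s = Wpt A) :
    WS.L N A := ⟨⟨f, hc⟩, hb⟩

theorem mkW_apply (f : (N → I) → WX A) (hc : Continuous f)
    (hb : ∀ s ∈ Cube.boundary N, f s = Wpt A) (s : N → I) : mkW f hc hb s = f s := rfl

/-- Homotopies of loops in the spaces of the witness. -/
theorem htW {f g : WS.L N A} (H : I × (N → I) → WX A) (hc : Continuous H)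
    (h0 : ∀ s, H (0, s) = f s) (h1 : ∀ s, H (1, s) = g s)
    (hb : ∀ t, ∀ s ∈ Cube.boundary N, H (t, s) = Wpt A) : GenLoop.Homotopic f g :=
  homotopic_of (X := WS.X A) H hc h0 h1 hb

/-- The value of a loop as a configuration. -/
def vl (f : WS.L N A) (s : N → I) : WX A := f s

theorem vl_const (s : N → I) : vl (A := A) GenLoop.const s = Wpt A := rfl

theorem L_ext {f g : WS.L N A} (h : ∀ s y, (vl f s).1.P y = (vl g s).1.P y) : f = g :=
  GenLoop.ext _ _ fun s => WX.ext (h s)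

end mk

/-- The deformation of `Γ`. -/
def Gt (t : I) (s : PG → I) : WX A3 := xt (t : ℝ) (trd1 s) (tdr1 s).1 (tdr1 s).2

theorem continuous_Gt : Continuous fun p : I × (PG → I) => Gt p.1 p.2 :=
  cont1 (F := fun p : (I × (Fin 2 ⊕ Unit → I)) × (S2 × S2) =>
    xt (p.1.1 : ℝ) p.1.2 p.2.1 p.2.2) continuous_xt fun _ _ hs _ => xt_bdry _ hs _ _

theorem Gt_bdry (t : I) {s : PG → I} (h : s ∈ Cube.boundary PG) : Gt t s = Wpt A3 :=
  xt_bdry _ (trd1_bdry h) _ _

theorem continuous_Gt' (t : I) : Continuous (Gt t) :=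
  continuous_Gt.comp (g := fun p : I × (PG → I) => Gt p.1 p.2)
    (f := fun s : PG → I => (t, s)) (continuous_const.prodMk continuous_id)

/-- The loop `Γ`. -/
def Gam : WS.L PG A3 := mkW (Gt 0) (continuous_Gt' 0) fun _ hs => Gt_bdry 0 hs

/-- The deformed loop. -/
def Gam1 : WS.L PG A3 := mkW (Gt 1) (continuous_Gt' 1) fun _ hs => Gt_bdry 1 hs

theorem Gam_Gam1 : GenLoop.Homotopic Gam Gam1 :=
  htW (fun p => Gt p.1 p.2) continuous_Gt (fun _ => rfl) (fun _ => rfl)
    fun t _ hs => Gt_bdry t hs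

/-! ### The two summands -/

/-- One point. -/
def x1 (s : Fin 2 ⊕ Unit → I) (p : S2) (v : Fin 3 → ℝ) : WX A3 :=
  cfW (fun _ : Unit => xp s p) (fun _ => Jm i0 j0 (lnm v)) (OF_J v) (Equiv.refl Unit)
    ⟨fun _ => (rotE_xp s p).symm, fun _ a b => Jm_chi i0_ne _ a b⟩

theorem x1_P (s : Fin 2 ⊕ Unit → I) (p : S2) (v : Fin 3 → ℝ) (y : A3 → VV) :
    (x1 s p v).1.P y = open Classical in if xp s p = (y : OnePoint (A3 → VV)) then
      Jm i0 j0 (lnm v) else 0 := cf_unit _ _ _ y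

theorem x1_bdry {s : Fin 2 ⊕ Unit → I} (h : s ∈ Cube.boundary (Fin 2 ⊕ Unit)) (p : S2)
    (v : Fin 3 → ℝ) : x1 s p v = Wpt A3 :=
  cfW_infty _ _ _ _ _ fun _ => xp_bdry h p

theorem continuous_x1 {Z : Type} [TopologicalSpace Z] {s : Z → Fin 2 ⊕ Unit → I} {p : Z → S2}
    {v : Z → Fin 3 → ℝ} (hs : Continuous s) (hp : Continuous p) (hv : Continuous v)
    (hv0 : ∀ z, v z ≠ 0) : Continuous fun z => x1 (s z) (p z) (v z) := by
  refine continuous_cfW (fun z => OF_J (v z)) _ (fun z => ⟨fun _ => (rotE_xp (s z) (p z)).symm,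
    fun _ a b => Jm_chi i0_ne _ a b⟩) ?_ ?_
  · intro c
    exact continuous_xp.comp (hs.prodMk hp)
  · intro z
    left
    intro c
    right
    exact ContinuousAt.comp (g := Jm i0 j0) (f := fun z => lnm (v z))
      (continuous_Jm _ _).continuousAt (continuousAt_lnm' hv.continuousAt (hv0 z))

/-- The first summand: it does not depend on the direction of `s_1`. -/
def G1f (s : PG → I) : WX A3 := x1 (trd1 s) (tdr1 s).1 (-(tdr1 s).1.1)

theorem continuous_x1a : Continuous fun p : (Fin 2 ⊕ Unit → I) × (S2 × S2) =>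
    x1 p.1 p.2.1 (-p.2.1.1) :=
  continuous_x1 continuous_fst (continuous_fst.comp continuous_snd)
    (S2.continuous_val.comp (continuous_fst.comp continuous_snd)).neg
    fun z => neg_ne_zero.2 z.2.1.ne_zero

theorem continuous_x1b : Continuous fun p : (Fin 2 ⊕ Unit → I) × (S2 × S2) =>
    x1 p.1 p.2.2 p.2.1.1 :=
  continuous_x1 continuous_fst (continuous_snd.comp continuous_snd)
    (S2.continuous_val.comp (continuous_fst.comp continuous_snd)) fun z => z.2.1.ne_zero

theorem continuous_G1f : Continuous G1f :=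
  cont1' (x := Wpt A3) continuous_x1a fun _ hs _ => x1_bdry hs _ _

/-- The first summand: it does not depend on the direction of `s_1`. -/
def G1 : WS.L PG A3 := mkW G1f continuous_G1f fun _ hs => x1_bdry (trd1_bdry hs) _ _

/-- The second summand. -/
def G2f (s : PG → I) : WX A3 := x1 (trd1 s) (tdr1 s).2 (tdr1 s).1.1

theorem continuous_G2f : Continuous G2f :=
  cont1' (x := Wpt A3) continuous_x1b fun _ hs _ => x1_bdry hs _ _

/-- The second summand. -/
def G2 : WS.L PG A3 := mkW G2f continuous_G2f fun _ hs => x1_bdry (trd1_bdry hs) _ _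

theorem G1_P (s : PG → I) (y : A3 → VV) : (vl G1 s).1.P y =
    open Classical in if xp (trd1 s) (tdr1 s).1 = (y : OnePoint (A3 → VV)) then
      Jm i0 j0 (lnm (-(tdr1 s).1.1)) else 0 := x1_P _ _ _ y

theorem G2_P (s : PG → I) (y : A3 → VV) : (vl G2 s).1.P y =
    open Classical in if xp (trd1 s) (tdr1 s).2 = (y : OnePoint (A3 → VV)) then
      Jm i0 j0 (lnm (tdr1 s).1.1) else 0 := x1_P _ _ _ y

theorem OrL_G : OrL (A := A3) (Sum.inl ((1 : Fin 2), (0 : Fin 3)) : PG) G1 G2 := by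
  intro s s' h y y'
  have e : (tdr1 s).1 = (tdr1 s').1 := by
    show dr (ctr _) = dr (ctr _)
    congr 2
    funext i
    exact h _ (by simp)
  show (vl G1 s).1.P y * (vl G2 s').1.P y' = 0
  rw [G1_P, G2_P, e]
  split_ifs
  · rw [Jm_mul, lnm_neg_mul (S2.ne_zero _), Jm_zero]
  · rw [mul_zero]
  · rw [zero_mul]
  · rw [zero_mul]

theorem Gam1_eq : Gam1 = addL (A := A3) G1 G2 fun s => OrL_G s s fun _ _ => rfl := by
  refine L_ext fun s y => ?_
  show (xf (trd1 s) (tdr1 s).1 (tdr1 s).2 (dr (dv ((1 : I) : ℝ) (tdr1 s).1 (tdr1 s).2))).1.P y =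
    (vl G1 s).1.P y + (vl G2 s).1.P y
  have e : dr (dv ((1 : I) : ℝ) (tdr1 s).1 (tdr1 s).2) = (tdr1 s).1 := dv_one _ _
  rw [xf_P, G1_P, G2_P, e]

/-- The first summand is null homotopic. -/
theorem G1_null : GenLoop.Homotopic G1 GenLoop.const := by
  -- deform `rad s_1` to one
  let T : I × (PG → I) → Fin 2 ⊕ Unit → I := fun p =>
    Function.update (trd1 p.2) (Sum.inl 1) (max p.1 (trd1 p.2 (Sum.inl 1)))
  have hT : Continuous T := by
    refine Continuous.update (continuous_trd1.comp continuous_snd) _ ?_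
    exact continuous_fst.max ((continuous_apply _).comp (continuous_trd1.comp continuous_snd))
  have hTne : ∀ (τ : I) (s : PG → I) (i : Fin 2 ⊕ Unit), i ≠ Sum.inl 1 → T (τ, s) i = trd1 s i :=
    fun τ s i hi => Function.update_of_ne hi _ _
  have hT1 : ∀ (τ : I) (s : PG → I), T (τ, s) (Sum.inl 1) = max τ (trd1 s (Sum.inl 1)) :=
    fun τ s => Function.update_self _ _ _
  refine htW (fun p => x1 (T p) (tdr1 p.2).1 (-(tdr1 p.2).1.1)) ?_ ?_ ?_ ?_
  · -- the direction of `s_0` is needed only where the radii are not on the boundary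
    have hF : Continuous fun p : (Fin 2 ⊕ Unit → I) × S2 => x1 p.1 p.2 (-p.2.1) :=
      continuous_x1 continuous_fst continuous_snd (S2.continuous_val.comp continuous_snd).neg
        fun z => neg_ne_zero.2 z.2.ne_zero
    refine continuous_part hF (D := Cube.boundary (Fin 2 ⊕ Unit)) (g := T)
      (k := fun p => (tdr1 p.2).1) ?_ hT ?_
    · intro t ht k k'
      show x1 t k (-k.1) = x1 t k' (-k'.1)
      rw [x1_bdry ht, x1_bdry ht]
    · rintro ⟨τ, s⟩ hp
      have hne : cu1 0 s ≠ 0 := by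
        intro h
        refine hp ⟨Sum.inl 0, Or.inl ?_⟩
        rw [hTne τ s _ (by simp)]
        exact rad_eq_zero h
      exact ContinuousAt.comp (g := dr) (f := fun p : I × (PG → I) => cu1 0 p.2) (x := (τ, s))
        (continuousAt_dr hne) ((continuous_cu1 0).comp continuous_snd).continuousAt
  · intro s
    show x1 (Function.update (trd1 s) (Sum.inl 1) (max 0 (trd1 s (Sum.inl 1)))) (tdr1 s).1
      (-(tdr1 s).1.1) = x1 (trd1 s) (tdr1 s).1 (-(tdr1 s).1.1)
    have : max (0 : I) (trd1 s (Sum.inl 1)) = trd1 s (Sum.inl 1) :=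
      max_eq_right (trd1 s _).2.1
    rw [this, Function.update_eq_self]
  · intro s
    refine x1_bdry ⟨Sum.inl 1, Or.inr ?_⟩ _ _
    rw [hT1]
    exact max_eq_left (trd1 s _).2.2
  · intro τ s hs
    refine x1_bdry ?_ _ _
    obtain ⟨⟨r, j⟩ | u, hj⟩ := hs
    · by_cases hr : r = 1
      · subst hr
        refine ⟨Sum.inl 1, Or.inr ?_⟩
        rw [hT1]
        have : trd1 s (Sum.inl 1) = 1 := rad_bdry ⟨j, hj⟩
        rw [this]
        exact max_eq_right τ.2.2
      · refine ⟨Sum.inl r, Or.inr ?_⟩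
        rw [hTne τ s _ (by simpa using hr)]
        exact rad_bdry ⟨j, hj⟩
    · refine ⟨Sum.inr u, ?_⟩
      rw [hTne τ s _ (by simp)]
      exact hj

/-! ### The second summand is a product -/

/-- The map of spheres `s ↦ (rad s, vq (dr (ctr s)))`. -/
def k3 (s : Fin 3 → I) : Unit ⊕ Fin 2 → I := Sum.elim (fun _ => rad s) (vq (dr (ctr s)))

theorem KC_k3 : KC k3 := by
  have hd : ∀ s : Fin 3 → I, (fun _ : Unit => rad s) ∉ Cube.boundary Unit →
      ContinuousAt (fun s => dr (ctr s)) s := by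
    intro s hs
    have hne : ctr s ≠ 0 := fun h => hs ⟨(), Or.inl (rad_eq_zero h)⟩
    exact ContinuousAt.comp (g := dr) (f := ctr) (continuousAt_dr hne)
      continuous_ctr.continuousAt
  refine KC.sum (KC.of_continuous (continuous_pi fun _ => continuous_rad)) ?_ ?_
  · intro s hs hs'
    have h0 : dr (ctr s) ≠ np := fun h => hs' ((vq_bdry_iff _).2 h)
    exact ContinuousAt.comp (g := vq) (f := fun s => dr (ctr s)) (continuousAt_vq h0) (hd s hs)
  · intro s hs
    exact ContinuousAt.comp (g := fun a => bd (vq a)) (f := fun s => dr (ctr s))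
      KC_vq.bdc.continuousAt (hd s hs)

/-- `k3` as a map of spheres. -/
def K3 : SM (Fin 3) (Unit ⊕ Fin 2) where
  f := k3
  kc := KC_k3
  bdry := fun _ hs => ⟨Sum.inl (), Or.inr (rad_bdry hs)⟩

/-- `PB ⊕ Fin 3 ≃ PG` -/
def eP : PB ⊕ Fin 3 ≃ PG where
  toFun := Sum.elim (Sum.elim (fun q => Sum.inl (0, q.2)) fun _ => Sum.inr ())
    fun i => Sum.inl (1, i)
  invFun := Sum.elim (fun q => if q.1 = 0 then Sum.inl (Sum.inl ((), q.2)) else Sum.inr q.2)
    fun _ => Sum.inl (Sum.inr ())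
  left_inv := by
    rintro ((⟨_, i⟩ | u) | i) <;> rfl
  right_inv := by
    rintro (⟨r, i⟩ | u)
    · fin_cases r <;> rfl
    · rfl

/-- `LB ⊕ (Unit ⊕ Fin 2) ≃ A3` -/
def eL : LB ⊕ (Unit ⊕ Fin 2) ≃ A3 where
  toFun := Sum.elim (Sum.elim (fun _ => Sum.inl (Sum.inl 0)) fun _ => Sum.inl (Sum.inr ()))
    (Sum.elim (fun _ => Sum.inl (Sum.inl 1)) Sum.inr)
  invFun := Sum.elim (Sum.elim (fun r => if r = 0 then Sum.inl (Sum.inl ()) else
    Sum.inr (Sum.inl ())) fun _ => Sum.inl (Sum.inr ())) fun i => Sum.inr (Sum.inr i)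
  left_inv := by
    rintro ((u | u) | (u | i)) <;> rfl
  right_inv := by
    rintro ((r | u) | i)
    · fin_cases r <;> rfl
    · rfl
    · rfl

theorem mpr_of_eq {A B : Type} [Fintype A] [DecidableEq A] [Fintype B] [DecidableEq B]
    (p : Mt A (ZMod 4)) (q : Mt B (ZMod 4)) (c d : Prop) [Decidable c] [Decidable d] :
    mpr (if c then p else 0) (if d then q else 0) = if c ∧ d then mpr p q else 0 := by
  by_cases hc : c
  · by_cases hd : d
    · rw [if_pos hc, if_pos hd, if_pos ⟨hc, hd⟩]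
    · rw [if_neg hd, mpr_zero, if_neg (fun h : c ∧ d => hd h.2)]
  · rw [if_neg hc, zero_mpr, if_neg (fun h : c ∧ d => hc h.1)]

theorem ps_sum {A B : Type} [Fintype A] [DecidableEq A] [Fintype B] [DecidableEq B]
    (s : A → I) (t : B → I) (y : A ⊕ B → VV) :
    ps (Sum.elim s t) = (y : OnePoint (A ⊕ B → VV)) ↔
      ps s = ((y ∘ Sum.inl : A → VV) : OnePoint (A → VV)) ∧
      ps t = ((y ∘ Sum.inr : B → VV) : OnePoint (B → VV)) := by
  by_cases hs : s ∈ Cube.boundary A
  · have h1 : (Sum.elim s t : A ⊕ B → I) ∈ Cube.boundary (A ⊕ B) := by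
      obtain ⟨i, hi⟩ := hs
      exact ⟨Sum.inl i, hi⟩
    rw [ps_bdry h1, ps_bdry hs]
    constructor
    · intro h; exact absurd h (OnePoint.infty_ne_coe _)
    · intro h; exact absurd h.1 (OnePoint.infty_ne_coe _)
  by_cases ht : t ∈ Cube.boundary B
  · have h1 : (Sum.elim s t : A ⊕ B → I) ∈ Cube.boundary (A ⊕ B) := by
      obtain ⟨i, hi⟩ := ht
      exact ⟨Sum.inr i, hi⟩
    rw [ps_bdry h1, ps_bdry ht]
    constructor
    · intro h; exact absurd h (OnePoint.infty_ne_coe _)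
    · intro h; exact absurd h.2 (OnePoint.infty_ne_coe _)
  have h1 : (Sum.elim s t : A ⊕ B → I) ∉ Cube.boundary (A ⊕ B) := by
    rintro ⟨i | i, hi⟩
    · exact hs ⟨i, hi⟩
    · exact ht ⟨i, hi⟩
  rw [ps_of_not hs, ps_of_not ht, ps_of_not h1, OnePoint.coe_eq_coe, OnePoint.coe_eq_coe,
    OnePoint.coe_eq_coe]
  constructor
  · rintro rfl
    exact ⟨rfl, rfl⟩
  · rintro ⟨e1, e2⟩
    funext i
    rcases i with i | i
    · exact congrFun e1 i
    · exact congrFun e2 i

theorem ps_comp {A B : Type} [Fintype A] [DecidableEq A] [Fintype B] [DecidableEq B]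
    (e : A ≃ B) (s : A → I) (y : B → VV) :
    ps s = ((y ∘ e : A → VV) : OnePoint (A → VV)) ↔
      ps (s ∘ e.symm) = (y : OnePoint (B → VV)) := by
  by_cases hs : s ∈ Cube.boundary A
  · have h1 : s ∘ e.symm ∈ Cube.boundary B := by
      obtain ⟨i, hi⟩ := hs
      exact ⟨e i, by simpa using hi⟩
    rw [ps_bdry hs, ps_bdry h1]
    constructor
    · intro h; exact absurd h (OnePoint.infty_ne_coe _)
    · intro h; exact absurd h (OnePoint.infty_ne_coe _)
  · have h1 : s ∘ e.symm ∉ Cube.boundary B := by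
      rintro ⟨i, hi⟩
      exact hs ⟨e.symm i, hi⟩
    rw [ps_of_not hs, ps_of_not h1, OnePoint.coe_eq_coe, OnePoint.coe_eq_coe]
    constructor
    · intro h
      funext b
      have := congrFun h (e.symm b)
      simpa using this
    · rintro rfl
      funext a
      simp

theorem G2_eq : G2 = lrho eP eL (CSRS.prod bet (cm0 K3 (WS.unit (Unit ⊕ Fin 2)))) := by
  refine L_ext fun s y => ?_
  rw [G2_P]
  -- the right hand side
  set sb : PB → I := fun i => s (eP (Sum.inl i)) with hsb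
  set s3 : Fin 3 → I := fun i => s (eP (Sum.inr i)) with hs3
  have hR : (vl (lrho eP eL (CSRS.prod bet (cm0 K3 (WS.unit (Unit ⊕ Fin 2))))) s).1.P y =
      mre eL (mpr ((betf sb).1.P ((y ∘ eL) ∘ Sum.inl))
        ((Wunit' (k3 s3)).1.P ((y ∘ eL) ∘ Sum.inr))) := rfl
  rw [hR, betf_P, Wunit_P, mpr_of_eq]
  have hu : betu sb = cu1 0 s := rfl
  have hc3 : ctr s3 = cu1 1 s := rfl
  -- the points
  have hp : (ps (bets sb) = ((((y ∘ eL) ∘ Sum.inl : LB → VV)) : OnePoint (LB → VV)) ∧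
      ps (k3 s3) = ((((y ∘ eL) ∘ Sum.inr : Unit ⊕ Fin 2 → VV)) : OnePoint (Unit ⊕ Fin 2 → VV))) ↔
      xp (trd1 s) (tdr1 s).2 = (y : OnePoint (A3 → VV)) := by
    rw [← ps_sum, ps_comp]
    have e : (Sum.elim (bets sb) (k3 s3) : LB ⊕ (Unit ⊕ Fin 2) → I) ∘ eL.symm =
        Sum.elim (trd1 s) (vq (tdr1 s).2) := by
      funext i
      rcases i with (r | u) | i
      · fin_cases r <;> rfl
      · rfl
      · rfl
    rw [e]
    rfl
  by_cases hx : xp (trd1 s) (tdr1 s).2 = (y : OnePoint (A3 → VV))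
  · rw [if_pos hx, if_pos (hp.2 hx), Jm_mpr, Jm_mre, hu]
    -- `cu1 0 s ≠ 0`, as the point is finite
    have hne : cu1 0 s ≠ 0 := by
      intro h
      have : xp (trd1 s) (tdr1 s).2 = ∞ :=
        xp_bdry ⟨Sum.inl 0, Or.inl (rad_eq_zero h)⟩ _
      rw [this] at hx
      exact OnePoint.infty_ne_coe _ hx
    show Jm i0 j0 (lnm (dr (cu1 0 s)).1) = _
    rw [lnm_dr hne]
    rfl
  · rw [if_neg hx, if_neg fun h => hx (hp.1 h)]
    rfl

/-- The class of `Γ`. -/
theorem Gam_class : T2.cls (Gam : WS.L PG A3) =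
    T2.rho eP eL (hmul (T2.cls bet) (T2.cls (cm0 K3 (WS.unit (Unit ⊕ Fin 2))))) := by
  rw [hmul_mk, rho_mk, ← G2_eq, cls_eq.2 Gam_Gam1, Gam1_eq]
  have h1 := cls_eq.2 (addL_homotopic (Sum.inl ((1 : Fin 2), (0 : Fin 3)) : PG) G1 G2 OrL_G)
  rw [h1, ← cls_mul, cls_eq.2 G1_null, ← cls_one, _root_.mul_one]

end Pool.Agent.Tate.R3
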