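import Pool.Agent.Lib.Tate.R.R3.Base

/-!
# C42 (MP_071d69_gt), block R3 (helper47): the two-sphere

`S2`: the unit sphere of `ℝ³`; `dr u = u / |u|`; `tq : I² → S2` collapses the boundary of the square to
the north pole `np`, and `vq : S2 → I²` is its inverse (continuous as a map to `I² / ∂`).
-/

set_option linter.unusedSectionVars false

open Topology unitInterval Filter Set
open scoped Topology.Homotopy

noncomputable section

namespace Pool.Agent.Tate.R3

/-- The unit sphere of `ℝ³`. -/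
def S2 : Type := {u : Fin 3 → ℝ // u 0 ^ 2 + u 1 ^ 2 + u 2 ^ 2 = 1}

instance : TopologicalSpace S2 := instTopologicalSpaceSubtype

instance : T2Space S2 := inferInstanceAs (T2Space {u : Fin 3 → ℝ // u 0 ^ 2 + u 1 ^ 2 + u 2 ^ 2 = 1})

theorem S2.continuous_val : Continuous (fun a : S2 => a.1) := continuous_subtype_val

theorem S2.continuous_apply (i : Fin 3) : Continuous (fun a : S2 => a.1 i) :=
  (_root_.continuous_apply i).comp S2.continuous_val

instance : CompactSpace S2 := by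
  have hcl : IsClosed {u : Fin 3 → ℝ | u 0 ^ 2 + u 1 ^ 2 + u 2 ^ 2 = 1} :=
    isClosed_eq (by fun_prop) continuous_const
  have hK : IsCompact {u : Fin 3 → ℝ | u 0 ^ 2 + u 1 ^ 2 + u 2 ^ 2 = 1} := by
    have hb : IsCompact (Set.univ.pi fun _ : Fin 3 => Set.Icc (-1 : ℝ) 1) :=
      isCompact_univ_pi fun _ => isCompact_Icc
    refine hb.of_isClosed_subset hcl ?_
    intro u hu i _
    have hu' : u 0 ^ 2 + u 1 ^ 2 + u 2 ^ 2 = 1 := hu
    have h : u i ^ 2 ≤ 1 := by
      fin_cases i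
      · show u 0 ^ 2 ≤ 1
        nlinarith [sq_nonneg (u 1), sq_nonneg (u 2)]
      · show u 1 ^ 2 ≤ 1
        nlinarith [sq_nonneg (u 0), sq_nonneg (u 2)]
      · show u 2 ^ 2 ≤ 1
        nlinarith [sq_nonneg (u 0), sq_nonneg (u 1)]
    exact ⟨by nlinarith, by nlinarith⟩
  exact isCompact_iff_compactSpace.1 hK

/-- The north pole. -/
def np : S2 := ⟨![0, 0, 1], by simp⟩

theorem np_val (i : Fin 3) : np.1 i = (![0, 0, 1] : Fin 3 → ℝ) i := rfl

theorem S2.eq_np {a : S2} (h : a.1 2 = 1) : a = np := by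
  have h1 := a.2
  have h0 : a.1 0 ^ 2 = 0 := by nlinarith [sq_nonneg (a.1 0), sq_nonneg (a.1 1)]
  have h2 : a.1 1 ^ 2 = 0 := by nlinarith [sq_nonneg (a.1 0), sq_nonneg (a.1 1)]
  apply Subtype.ext
  funext i
  fin_cases i
  · exact pow_eq_zero_iff (two_ne_zero) |>.1 h0
  · exact pow_eq_zero_iff (two_ne_zero) |>.1 h2
  · exact h

theorem S2.le_one (a : S2) (i : Fin 3) : a.1 i ≤ 1 := by
  have h1 := a.2
  have h : a.1 i ^ 2 ≤ 1 := by
    fin_cases i
    · show a.1 0 ^ 2 ≤ 1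
      nlinarith [sq_nonneg (a.1 1), sq_nonneg (a.1 2)]
    · show a.1 1 ^ 2 ≤ 1
      nlinarith [sq_nonneg (a.1 0), sq_nonneg (a.1 2)]
    · show a.1 2 ^ 2 ≤ 1
      nlinarith [sq_nonneg (a.1 0), sq_nonneg (a.1 1)]
  nlinarith

theorem S2.lt_one {a : S2} (h : a ≠ np) : a.1 2 < 1 :=
  lt_of_le_of_ne (S2.le_one a 2) fun h' => h (S2.eq_np h')

theorem S2.ne_zero (a : S2) : a.1 ≠ 0 := by
  intro h
  have h1 := a.2
  rw [h] at h1
  simp at h1

theorem S2.nrm_eq (a : S2) : nrm a.1 = 1 := by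
  unfold nrm
  rw [a.2, Real.sqrt_one]

/-- The normalized vector. -/
def dr' (u : Fin 3 → ℝ) (h : u ≠ 0) : S2 :=
  ⟨fun i => u i / nrm u, by
    have h1 := nrm_sq u
    have h2 := (nrm_pos h).ne'
    field_simp
    linarith⟩

open Classical in
/-- The direction of a vector (`np` for the vector `0`). -/
def dr (u : Fin 3 → ℝ) : S2 := if h : u = 0 then np else dr' u h

theorem dr_apply {u : Fin 3 → ℝ} (h : u ≠ 0) (i : Fin 3) : (dr u).1 i = u i / nrm u := by
  have e : dr u = dr' u h := dif_neg h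
  rw [e]
  rfl

theorem continuous_nrm : Continuous nrm := by
  unfold nrm
  fun_prop

theorem continuousAt_dr {u : Fin 3 → ℝ} (h : u ≠ 0) : ContinuousAt dr u := by
  refine Topology.IsInducing.subtypeVal.continuousAt_iff.2 ?_
  refine continuousAt_pi.2 fun i => ?_
  have hev : ∀ᶠ v in 𝓝 u, v ≠ 0 := isOpen_ne.mem_nhds h
  refine ContinuousAt.congr (f := fun v : Fin 3 → ℝ => v i / nrm v) ?_ ?_
  · exact (continuous_apply i).continuousAt.div continuous_nrm.continuousAt (nrm_pos h).ne'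
  · filter_upwards [hev] with v hv
    exact (dr_apply hv i).symm

theorem dr_self (a : S2) : dr a.1 = a := by
  apply Subtype.ext
  funext i
  rw [dr_apply a.ne_zero, a.nrm_eq, div_one]

/-- The line of a direction. -/
theorem lnm_dr {u : Fin 3 → ℝ} (h : u ≠ 0) : lnm (dr u).1 = lnm u := by
  have hn : (nrm u : ℂ) ≠ 0 := by exact_mod_cast (nrm_pos h).ne'
  ext a b
  unfold lnm
  rw [if_neg h, if_neg (S2.ne_zero _), S2.nrm_eq]
  cases a <;> cases b <;> simp only [dr_apply h] <;> push_cast <;> field_simp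

theorem ln_dr {u : Fin 3 → ℝ} (h : u ≠ 0) : ln (dr u).1 = ln u := Subtype.ext (lnm_dr h)

theorem continuous_ln : Continuous fun a : S2 => ln a.1 := by
  refine Continuous.subtype_mk ?_ _
  refine continuous_pi fun x => continuous_pi fun y => ?_
  rw [continuous_iff_continuousAt]
  intro a
  exact ContinuousAt.comp (g := fun u => lnm u x y) (f := fun a : S2 => a.1)
    (continuousAt_lnm a.ne_zero x y) S2.continuous_val.continuousAt

/-- Orthogonal lines. -/
theorem lnm_add_neg {u : Fin 3 → ℝ} (h : u ≠ 0) : lnm u + lnm (-u) = 1 := by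
  have hn : (nrm u : ℂ) ≠ 0 := by exact_mod_cast (nrm_pos h).ne'
  have hm : nrm (-u) = nrm u := by
    unfold nrm
    simp
  have h' : -u ≠ 0 := neg_ne_zero.2 h
  ext a b
  rw [Matrix.add_apply]
  unfold lnm
  rw [if_neg h, if_neg h', hm]
  have e1 : ((if false = true then 1 else 0 : ℂ)) = 0 := if_neg (by decide)
  have e2 : ((if true = false then 1 else 0 : ℂ)) = 0 := if_neg (by decide)
  cases a <;> cases b <;> simp only [Pi.neg_apply, Matrix.one_apply, e1, e2, if_true] <;>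
    push_cast <;> field_simp <;> ring

theorem lnm_mul_neg {u : Fin 3 → ℝ} (h : u ≠ 0) : lnm u * lnm (-u) = 0 := by
  have h1 : lnm (-u) = 1 - lnm u := by
    rw [← lnm_add_neg h]
    abel
  have h2 : lnm u * lnm u = lnm u := (ln u).2.2.1
  rw [h1, mul_sub, mul_one, h2, sub_self]

theorem lnm_neg_mul {u : Fin 3 → ℝ} (h : u ≠ 0) : lnm (-u) * lnm u = 0 := by
  have := lnm_mul_neg (neg_ne_zero.2 h)
  rwa [neg_neg] at this

theorem lnm_np : lnm np.1 = fun a b => if a = false ∧ b = false then 1 else 0 := by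
  ext a b
  unfold lnm
  rw [if_neg (S2.ne_zero _), S2.nrm_eq]
  cases a <;> cases b <;> simp [np]

/-! ### The square modulo its boundary -/

/-- `max |u 0| |u 1|`, `u = 2 t - 1`. -/
def rq (t : Fin 2 → I) : ℝ := max |2 * (t 0 : ℝ) - 1| |2 * (t 1 : ℝ) - 1|

/-- The denominator in `tq`. -/
def dq (t : Fin 2 → I) : ℝ :=
  (2 * (t 0 : ℝ) - 1) ^ 2 + (2 * (t 1 : ℝ) - 1) ^ 2 + (1 - rq t) ^ 2

theorem dq_pos (t : Fin 2 → I) : 0 < dq t := by
  unfold dq
  by_contra hn
  have h0 : 2 * (t 0 : ℝ) - 1 = 0 := by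
    nlinarith [sq_nonneg (2 * (t 0 : ℝ) - 1), sq_nonneg (2 * (t 1 : ℝ) - 1), sq_nonneg (1 - rq t)]
  have h1 : 2 * (t 1 : ℝ) - 1 = 0 := by
    nlinarith [sq_nonneg (2 * (t 0 : ℝ) - 1), sq_nonneg (2 * (t 1 : ℝ) - 1), sq_nonneg (1 - rq t)]
  have h2 : rq t = 0 := by
    unfold rq
    rw [h0, h1]
    simp
  rw [h0, h1, h2] at hn
  norm_num at hn

theorem continuous_rq : Continuous rq := by
  unfold rq
  fun_prop

theorem continuous_dq : Continuous dq := by
  unfold dq
  have := continuous_rq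
  fun_prop

/-- The map from the square to the sphere which collapses the boundary to the north pole
(the stereographic projection of `u / (1 - |u|)`, `u = 2 t - 1`). -/
def tq (t : Fin 2 → I) : S2 :=
  ⟨![2 * (1 - rq t) * (2 * (t 0 : ℝ) - 1) / dq t, 2 * (1 - rq t) * (2 * (t 1 : ℝ) - 1) / dq t,
    ((2 * (t 0 : ℝ) - 1) ^ 2 + (2 * (t 1 : ℝ) - 1) ^ 2 - (1 - rq t) ^ 2) / dq t], by
    have h := (dq_pos t).ne'
    simp only [Matrix.cons_val_zero, Matrix.cons_val_one, Matrix.cons_val]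
    rw [div_pow, div_pow, div_pow, ← add_div, ← add_div, div_eq_one_iff_eq (pow_ne_zero 2 h)]
    unfold dq
    ring⟩

theorem continuous_tq : Continuous tq := by
  refine Continuous.subtype_mk ?_ _
  have h1 := continuous_rq
  have h2 := continuous_dq
  refine continuous_pi fun i => ?_
  fin_cases i
  · exact Continuous.div (by fun_prop) h2 fun t => (dq_pos t).ne'
  · exact Continuous.div (by fun_prop) h2 fun t => (dq_pos t).ne'
  · exact Continuous.div (by fun_prop) h2 fun t => (dq_pos t).ne'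

theorem rq_le_one (t : Fin 2 → I) : rq t ≤ 1 := by
  unfold rq
  refine max_le ?_ ?_ <;> rw [abs_le]
  · exact ⟨by linarith [(t 0).2.1], by linarith [(t 0).2.2]⟩
  · exact ⟨by linarith [(t 1).2.1], by linarith [(t 1).2.2]⟩

theorem rq_bdry {t : Fin 2 → I} (h : t ∈ Cube.boundary (Fin 2)) : rq t = 1 := by
  apply le_antisymm (rq_le_one t)
  obtain ⟨i, hi⟩ := h
  unfold rq
  fin_cases i
  · refine le_max_of_le_left ?_
    rcases hi with hi | hi <;> (simp only [Fin.zero_eta] at hi; rw [hi]; norm_num)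
  · refine le_max_of_le_right ?_
    rcases hi with hi | hi <;> (simp only [Fin.mk_one] at hi; rw [hi]; norm_num)

theorem tq_bdry {t : Fin 2 → I} (h : t ∈ Cube.boundary (Fin 2)) : tq t = np := by
  apply S2.eq_np
  show ((2 * (t 0 : ℝ) - 1) ^ 2 + (2 * (t 1 : ℝ) - 1) ^ 2 - (1 - rq t) ^ 2) / dq t = 1
  rw [div_eq_one_iff_eq (dq_pos t).ne']
  unfold dq
  rw [rq_bdry h]
  ring

/-- The denominator in `vq`. -/
def ev (a : S2) : ℝ := (1 - a.1 2) + max |a.1 0| |a.1 1|

theorem ev_pos {a : S2} (h : a ≠ np) : 0 < ev a := by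
  have h1 := S2.lt_one h
  have h2 : 0 ≤ max |a.1 0| |a.1 1| := le_max_of_le_left (abs_nonneg _)
  unfold ev
  linarith

theorem vq_mem {a : S2} (h : a ≠ np) (x : ℝ) (hx : |x| ≤ max |a.1 0| |a.1 1|) :
    (1 + x / ev a) / 2 ∈ Set.Icc (0 : ℝ) 1 := by
  have h1 := ev_pos h
  have h2 : |x / ev a| ≤ 1 := by
    rw [abs_div, abs_of_pos h1, div_le_one h1]
    unfold ev
    linarith [S2.le_one a 2]
  rw [abs_le] at h2
  exact ⟨by linarith [h2.1], by linarith [h2.2]⟩

open Classical in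
/-- The inverse of `tq`; the north pole goes to a point of the boundary. -/
def vq (a : S2) : Fin 2 → I :=
  if h : a = np then fun _ => 0 else
    ![⟨(1 + a.1 0 / ev a) / 2, vq_mem h _ (le_max_left _ _)⟩,
      ⟨(1 + a.1 1 / ev a) / 2, vq_mem h _ (le_max_right _ _)⟩]

theorem vq_np : vq np = fun _ => 0 := dif_pos rfl

theorem vq_zero {a : S2} (h : a ≠ np) : ((vq a 0 : I) : ℝ) = (1 + a.1 0 / ev a) / 2 := by
  unfold vq
  rw [dif_neg h]
  rfl

theorem vq_one {a : S2} (h : a ≠ np) : ((vq a 1 : I) : ℝ) = (1 + a.1 1 / ev a) / 2 := by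
  unfold vq
  rw [dif_neg h]
  rfl

theorem vq_bdry_iff (a : S2) : vq a ∈ Cube.boundary (Fin 2) ↔ a = np := by
  constructor
  · intro h
    by_contra hn
    have h1 := ev_pos hn
    have h3 := S2.lt_one hn
    have key : ∀ x : ℝ, |x| ≤ max |a.1 0| |a.1 1| → (1 + x / ev a) / 2 ≠ 0 ∧
        (1 + x / ev a) / 2 ≠ 1 := by
      intro x hx
      have h2 : |x / ev a| < 1 := by
        rw [abs_div, abs_of_pos h1, div_lt_one h1]
        unfold ev
        linarith
      rw [abs_lt] at h2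
      exact ⟨by linarith [h2.1], by linarith [h2.2]⟩
    obtain ⟨i, hi⟩ := h
    fin_cases i
    · have k := key _ (le_max_left |a.1 0| |a.1 1|)
      rw [← vq_zero hn] at k
      rcases hi with hi | hi
      · exact k.1 (congrArg Subtype.val hi)
      · exact k.2 (congrArg Subtype.val hi)
    · have k := key _ (le_max_right |a.1 0| |a.1 1|)
      rw [← vq_one hn] at k
      rcases hi with hi | hi
      · exact k.1 (congrArg Subtype.val hi)
      · exact k.2 (congrArg Subtype.val hi)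
  · rintro rfl
    rw [vq_np]
    exact ⟨0, Or.inl rfl⟩

theorem tq_vq (a : S2) : tq (vq a) = a := by
  by_cases h : a = np
  · rw [h, vq_np]
    exact tq_bdry ⟨0, Or.inl rfl⟩
  have h1 := ev_pos h
  have h1' := h1.ne'
  have h3 := S2.lt_one h
  have ha := a.2
  set m := max |a.1 0| |a.1 1| with hm
  have hm0 : 0 ≤ m := le_max_of_le_left (abs_nonneg _)
  have hev : ev a = (1 - a.1 2) + m := rfl
  have e0 : 2 * ((vq a 0 : I) : ℝ) - 1 = a.1 0 / ev a := by
    rw [vq_zero h]; ring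
  have e1 : 2 * ((vq a 1 : I) : ℝ) - 1 = a.1 1 / ev a := by
    rw [vq_one h]; ring
  have er : rq (vq a) = m / ev a := by
    unfold rq
    rw [e0, e1, abs_div, abs_div, abs_of_pos h1, ← max_div_div_right h1.le]
  have er' : 1 - rq (vq a) = (1 - a.1 2) / ev a := by
    rw [er, eq_div_iff h1', sub_mul, div_mul_cancel₀ _ h1', hev]
    ring
  have ed : dq (vq a) = 2 * (1 - a.1 2) / ev a ^ 2 := by
    unfold dq
    rw [e0, e1, er', div_pow, div_pow, div_pow, ← add_div, ← add_div]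
    congr 1
    nlinarith
  have h2 : (1 - a.1 2) ≠ 0 := by linarith
  apply Subtype.ext
  funext i
  fin_cases i
  · show 2 * (1 - rq (vq a)) * (2 * ((vq a 0 : I) : ℝ) - 1) / dq (vq a) = a.1 0
    rw [er', e0, ed]
    field_simp
  · show 2 * (1 - rq (vq a)) * (2 * ((vq a 1 : I) : ℝ) - 1) / dq (vq a) = a.1 1
    rw [er', e1, ed]
    field_simp
  · show ((2 * ((vq a 0 : I) : ℝ) - 1) ^ 2 + (2 * ((vq a 1 : I) : ℝ) - 1) ^ 2 -
      (1 - rq (vq a)) ^ 2) / dq (vq a) = a.1 2
    rw [er', e0, e1, ed]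
    field_simp
    nlinarith

theorem continuousAt_vq {a : S2} (h : a ≠ np) : ContinuousAt vq a := by
  have hev : Continuous ev := by
    unfold ev
    have h0 := S2.continuous_apply 0
    have h1 := S2.continuous_apply 1
    have h2 := S2.continuous_apply 2
    exact (continuous_const.sub h2).add (h0.abs.max h1.abs)
  have hn : ∀ᶠ b in 𝓝 a, b ≠ np := isOpen_ne.mem_nhds h
  refine continuousAt_pi.2 fun i => ?_
  refine Topology.IsInducing.subtypeVal.continuousAt_iff.2 ?_
  fin_cases i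
  · refine ContinuousAt.congr (f := fun b : S2 => (1 + b.1 0 / ev b) / 2) ?_ ?_
    · exact (continuousAt_const.add ((S2.continuous_apply 0).continuousAt.div hev.continuousAt
        (ev_pos h).ne')).div_const _
    · filter_upwards [hn] with b hb
      exact (vq_zero hb).symm
  · refine ContinuousAt.congr (f := fun b : S2 => (1 + b.1 1 / ev b) / 2) ?_ ?_
    · exact (continuousAt_const.add ((S2.continuous_apply 1).continuousAt.div hev.continuousAt
        (ev_pos h).ne')).div_const _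
    · filter_upwards [hn] with b hb
      exact (vq_one hb).symm

/-- `1 - rq (vq a)` is small near the north pole. -/
theorem one_sub_rq_vq (a : S2) : 1 - rq (vq a) ≤ Real.sqrt (1 - a.1 2) := by
  by_cases h : a = np
  · subst h
    rw [vq_np, rq_bdry ⟨0, Or.inl rfl⟩, sub_self]
    exact Real.sqrt_nonneg _
  have h1 := ev_pos h
  have h3 := S2.lt_one h
  have ha := a.2
  set m := max |a.1 0| |a.1 1| with hm
  have hm0 : 0 ≤ m := le_max_of_le_left (abs_nonneg _)
  have e0 : 2 * ((vq a 0 : I) : ℝ) - 1 = a.1 0 / ev a := by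
    rw [vq_zero h]; ring
  have e1 : 2 * ((vq a 1 : I) : ℝ) - 1 = a.1 1 / ev a := by
    rw [vq_one h]; ring
  have hev : ev a = (1 - a.1 2) + m := rfl
  have er : rq (vq a) = m / ev a := by
    unfold rq
    rw [e0, e1, abs_div, abs_div, abs_of_pos h1, ← max_div_div_right h1.le]
  have er' : 1 - rq (vq a) = (1 - a.1 2) / ev a := by
    rw [er, eq_div_iff h1.ne', sub_mul, div_mul_cancel₀ _ h1.ne', hev]
    ring
  rw [er']
  -- `ev a ≥ sqrt (1 - a 2)`
  have hs : Real.sqrt (1 - a.1 2) ≤ ev a := by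
    apply Real.sqrt_le_iff.2
    refine ⟨h1.le, ?_⟩
    have hm1 : a.1 0 ^ 2 ≤ m ^ 2 := by
      rw [← sq_abs (a.1 0)]
      exact pow_le_pow_left₀ (abs_nonneg _) (le_max_left _ _) 2
    have hm2 : a.1 1 ^ 2 ≤ m ^ 2 := by
      rw [← sq_abs (a.1 1)]
      exact pow_le_pow_left₀ (abs_nonneg _) (le_max_right _ _) 2
    have hm3 : -1 ≤ a.1 2 := by nlinarith [sq_nonneg (a.1 0), sq_nonneg (a.1 1)]
    rw [hev]
    nlinarith
  rw [div_le_iff₀ h1]
  have h4 : Real.sqrt (1 - a.1 2) * Real.sqrt (1 - a.1 2) = 1 - a.1 2 :=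
    Real.mul_self_sqrt (by linarith)
  nlinarith [Real.sqrt_nonneg (1 - a.1 2)]

theorem bd_le_one_sub_rq (t : Fin 2 → I) : bd t ≤ 1 - rq t := by
  have a0 := (t 0).2.1
  have a1 := (t 0).2.2
  have b0 := (t 1).2.1
  have b1 := (t 1).2.2
  have hx : (t 0 : ℝ) * (1 - t 0) ≤ 1 - |2 * (t 0 : ℝ) - 1| := by
    rcases abs_cases (2 * (t 0 : ℝ) - 1) with ⟨h, -⟩ | ⟨h, -⟩ <;> rw [h] <;> nlinarith
  have hy : (t 1 : ℝ) * (1 - t 1) ≤ 1 - |2 * (t 1 : ℝ) - 1| := by
    rcases abs_cases (2 * (t 1 : ℝ) - 1) with ⟨h, -⟩ | ⟨h, -⟩ <;> rw [h] <;> nlinarith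
  have p0 : 0 ≤ (t 0 : ℝ) * (1 - t 0) := by nlinarith
  have p1 : 0 ≤ (t 1 : ℝ) * (1 - t 1) := by nlinarith
  have q0 : (t 0 : ℝ) * (1 - t 0) ≤ 1 := by nlinarith
  have q1 : (t 1 : ℝ) * (1 - t 1) ≤ 1 := by nlinarith
  unfold bd rq
  rw [Fin.prod_univ_two]
  rcases max_cases |2 * (t 0 : ℝ) - 1| |2 * (t 1 : ℝ) - 1| with ⟨h, -⟩ | ⟨h, -⟩ <;> rw [h]
  · exact (mul_le_of_le_one_right p0 q1).trans hx
  · exact (mul_le_of_le_one_left p1 q0).trans hy

theorem KC_vq : KC vq where
  at' a ha := continuousAt_vq fun h => ha ((vq_bdry_iff a).2 h)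
  bdc := by
    rw [continuous_iff_continuousAt]
    intro a
    by_cases h : a = np
    · subst h
      have h0 : bd (vq np) = 0 := (bd_eq_zero _).2 ((vq_bdry_iff _).2 rfl)
      show Tendsto _ _ (𝓝 (bd (vq np)))
      rw [h0]
      have hs : Tendsto (fun a : S2 => Real.sqrt (1 - a.1 2)) (𝓝 np) (𝓝 0) := by
        have hc : Continuous fun a : S2 => Real.sqrt (1 - a.1 2) :=
          Real.continuous_sqrt.comp (continuous_const.sub (S2.continuous_apply 2))
        have := hc.tendsto np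
        simpa [np] using this
      exact squeeze_zero (fun a => bd_nonneg _)
        (fun a => (bd_le_one_sub_rq _).trans (one_sub_rq_vq a)) hs
    · exact ContinuousAt.comp (g := bd) (f := vq) continuous_bd.continuousAt (continuousAt_vq h)

end Pool.Agent.Tate.R3
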