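import Pool.Agent.Lib.Tate.R.R3.Gam

/-!
# C42 (MP_071d69_gt), block R3 (helper47): families of lines over a loop

`UL u p (s)(a) = [u(s), p(a)]`, `US u p (s)(a, b) = [u(s), p(a, b)]`.
-/

set_option linter.unusedSectionVars false

open Topology unitInterval Filter Set
open scoped Topology.Homotopy

noncomputable section

namespace Pool.Agent.Tate.R3

open CSRS T2

section US

variable {E : CSRS} {N B : Type} [Fintype B] [DecidableEq B]

theorem mk_pt' (k : PL B) : (Sm.mk (E.pt B) k : Sm (E.pt B) (PL B)) = E.cp.pt B := Sm.mk_pt _ _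

/-- `(s, a) ↦ [u(s), p(a)]` -/
def UL (u : E.L N B) (p : C(S2, PL B)) : FL N (E.cp.pt B) :=
  mkL (fun s a => Sm.mk (u s) (p a)) (Sm.isQuotientMap.continuous.comp
    ((u.1.continuous.comp continuous_fst).prodMk (p.continuous.comp continuous_snd)))
    fun s hs a => by
      have h : u s = E.pt B := u.2 s hs
      rw [h]
      exact mk_pt' _

theorem UL_apply (u : E.L N B) (p : C(S2, PL B)) (s : N → I) (a : S2) :
    UL u p s a = Sm.mk (u s) (p a) := rfl

/-- `(s, a, b) ↦ [u(s), p(a, b)]` -/
def US (u : E.L N B) (p : Sy (PL B)) : FS N (E.cp.pt B) :=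
  mkS (fun s k => Sm.mk (u s) (p.1 k)) (Sm.isQuotientMap.continuous.comp
    ((u.1.continuous.comp continuous_fst).prodMk (p.1.continuous.comp continuous_snd)))
    (fun s a b => by rw [p.2]) fun s hs a => by
      have h : u s = E.pt B := u.2 s hs
      rw [h]
      exact mk_pt' _

theorem US_apply (u : E.L N B) (p : Sy (PL B)) (s : N → I) (k : S2 × S2) :
    (US u p s).1 k = Sm.mk (u s) (p.1 k) := rfl

/-- Homotopies of the lines. -/
theorem UL_homotopic (u : E.L N B) {p q : C(S2, PL B)} (H : I × S2 → PL B) (hc : Continuous H)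
    (h0 : ∀ a, H (0, a) = p a) (h1 : ∀ a, H (1, a) = q a) :
    GenLoop.Homotopic (UL u p) (UL u q) := by
  refine htL (fun t a => Sm.mk (u t.2) (H (t.1, a))) ?_ ?_ ?_ ?_
  · exact Sm.isQuotientMap.continuous.comp
      ((u.1.continuous.comp (continuous_snd.comp continuous_fst)).prodMk
        (hc.comp ((continuous_fst.comp continuous_fst).prodMk continuous_snd)))
  · intro s a
    show Sm.mk (u s) (H (0, a)) = Sm.mk (u s) (p a)
    rw [h0]
  · intro s a
    show Sm.mk (u s) (H (1, a)) = Sm.mk (u s) (q a)
    rw [h1]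
  · intro t s hs a
    have h : u s = E.pt B := u.2 s hs
    show Sm.mk (u s) _ = _
    rw [h]
    exact mk_pt' _

/-- The restriction to `b = np`. -/
theorem rs_US (u : E.L N B) (p : Sy (PL B)) : post (rsC (E.cp.X B)) rsC_pt (US u p) =
    UL u ⟨fun a => p.1 (a, np), p.1.continuous.comp (continuous_id.prodMk continuous_const)⟩ := rfl

end US

/-! ### Lines -/

section pl

variable {B D : Type} [Fintype B] [DecidableEq B] [Fintype D] [DecidableEq D]

theorem continuous_lnab (x y : Bool) : Continuous fun a : S2 => lnm a.1 x y := by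
  rw [continuous_iff_continuousAt]
  intro a
  exact ContinuousAt.comp (g := fun u => lnm u x y) (f := fun a : S2 => a.1)
    (continuousAt_lnm a.ne_zero x y) S2.continuous_val.continuousAt

/-- The line `ln a` at the place `i`, the base line elsewhere. -/
def pl (i : B) : C(S2, PL B) :=
  ⟨fun a => PL.tens fun j => if j = i then ln a.1 else ln np.1, by
    refine Continuous.subtype_mk ?_ _
    refine continuous_pi fun a => continuous_pi fun b => ?_
    refine continuous_finsetProd _ fun j _ => ?_
    by_cases h : j = i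
    · simp only [if_pos h]
      exact continuous_lnab (a j) (b j)
    · simp only [if_neg h]
      exact continuous_const⟩

theorem pl_apply (i : B) (a : S2) :
    pl i a = PL.tens fun j => if j = i then ln a.1 else ln np.1 := rfl

end pl

/-! ### The index sets -/

/-- The levels. -/
abbrev B4 : Type := A3 ⊕ Unit

/-- The coordinates. -/
abbrev N4 : Type := Nt Unit (Unit ⊕ Fin 2)

/-- `N4 ≃ B4` -/
def eN : N4 ≃ B4 where
  toFun := Sum.elim (fun i => Sum.inl (Sum.inl i))
    (Sum.elim (fun u => Sum.inr u) fun t => Sum.inl (Sum.inr t))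
  invFun := Sum.elim (Sum.elim (fun i => Sum.inl i) fun t => Sum.inr (Sum.inr t))
    fun u => Sum.inr (Sum.inl u)
  left_inv := by rintro (i | (u | t)) <;> rfl
  right_inv := by rintro ((i | t) | u) <;> rfl

/-- The unit map in the coordinates `N4`. -/
def un4 (E : CSRS) : E.L N4 B4 := relab eN.symm (E.unit B4)

theorem un4_apply (E : CSRS) (s : N4 → I) : un4 E s = E.unit B4 fun m => s (eN.symm m) := rfl

/-- The place of the first radius, of `K`. -/
def r4 : B4 := Sum.inl (Sum.inl (Sum.inl 0))

/-- The place of `K`. -/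
def k4 : B4 := Sum.inr ()

/-- The two radii and the rest. -/
abbrev D4 : Type := Unit ⊕ (Unit ⊕ Fin 2)

/-- `Fin 2 ⊕ D4 ≃ B4` -/
def bD : Fin 2 ⊕ D4 ≃ B4 where
  toFun := Sum.elim (fun r => Sum.inl (Sum.inl (Sum.inl r)))
    (Sum.elim (fun u => Sum.inl (Sum.inl (Sum.inr u)))
      (Sum.elim (fun u => Sum.inr u) fun t => Sum.inl (Sum.inr t)))
  invFun := Sum.elim (Sum.elim (Sum.elim Sum.inl fun u => Sum.inr (Sum.inl u))
    fun t => Sum.inr (Sum.inr (Sum.inr t))) fun u => Sum.inr (Sum.inr (Sum.inl u))
  left_inv := by rintro (r | (u | (u | t))) <;> rfl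
  right_inv := by rintro (((r | u) | t) | u) <;> rfl

/-- A line at the two places of the radii, the base line elsewhere. -/
def Lb (p : PL (Fin 2)) : PL B4 := PL.map bD (PL.mul p (PL.one D4))

theorem continuous_Lb : Continuous Lb := by
  unfold Lb
  exact (PL.continuous_map bD).comp (PL.continuous_mul.comp (continuous_id.prodMk continuous_const))

end Pool.Agent.Tate.R3
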