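import Pool.Agent.Lib.Tate.R.R3.Bet
import Pool.Agent.Lib.Tate.R.R3.Top

/-!
# C42 (MP_071d69_gt), block R3 (helper47): the family `x(a, b) = {a; J ln(b - a)} + {b; J ln(a - b)}`
-/

set_option linter.unusedSectionVars false

open Topology unitInterval Filter Set
open scoped Topology.Homotopy OnePoint ZeroAtInfty

noncomputable section

namespace Pool.Agent.Tate.R3

open CSRS T2

/-- The levels of the family `x`. -/
abbrev A3 : Type := (Fin 2 ⊕ Unit) ⊕ Fin 2

/-- The places of the label. -/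
def i0 : A3 := Sum.inl (Sum.inl 0)

/-- The places of the label. -/
def j0 : A3 := Sum.inl (Sum.inr ())

theorem i0_ne : i0 ≠ j0 := by
  unfold i0 j0
  simp

/-- The point. -/
def xp (s : Fin 2 ⊕ Unit → I) (a : S2) : OnePoint (A3 → VV) := ps (Sum.elim s (vq a))

theorem continuous_xp : Continuous fun p : (Fin 2 ⊕ Unit → I) × S2 => xp p.1 p.2 := by
  have h1 : Continuous fun p : (Fin 2 ⊕ Unit → I) × (Fin 2 → I) =>
      ps (Sum.elim p.1 p.2 : A3 → I) :=
    continuous_ps.comp (continuous_elim continuous_fst continuous_snd)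
  have hb : ∀ (s : Fin 2 ⊕ Unit → I) (t : Fin 2 → I), t ∈ Cube.boundary (Fin 2) →
      ps (Sum.elim s t : A3 → I) = ∞ := by
    rintro s t ⟨i, hi⟩
    exact ps_bdry ⟨Sum.inr i, hi⟩
  exact KC_vq.comp h1 fun s t ht t' ht' => by
    show ps (Sum.elim s t : A3 → I) = ps (Sum.elim s t' : A3 → I)
    rw [hb s t ht, hb s t' ht']

theorem xp_np (s : Fin 2 ⊕ Unit → I) : xp s np = ∞ := by
  obtain ⟨i, hi⟩ := (vq_bdry_iff np).2 rfl
  exact ps_bdry ⟨Sum.inr i, hi⟩

theorem xp_bdry {s : Fin 2 ⊕ Unit → I} (h : s ∈ Cube.boundary (Fin 2 ⊕ Unit)) (a : S2) :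
    xp s a = ∞ := by
  obtain ⟨i, hi⟩ := h
  exact ps_bdry ⟨Sum.inl i, hi⟩

theorem IV_x (P : Bool → OnePoint (A3 → VV)) (hP : ∀ c, rotE (P c) = P c) (v : S2) :
    IV P (fun c : Bool => Jm i0 j0 (lnm (if c then -v.1 else v.1))) (Equiv.refl Bool) where
  pt c := (hP c).symm
  lb _ a b := Jm_chi i0_ne _ a b

theorem rotE_xp (s : Fin 2 ⊕ Unit → I) (a : S2) : rotE (xp s a) = xp s a := rotE_ps _

theorem rotE_if (s : Fin 2 ⊕ Unit → I) (p q : S2) (c : Bool) :
    rotE (if c then xp s p else xp s q) = if c then xp s p else xp s q := by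
  by_cases h : c = true
  · rw [if_pos h, rotE_xp]
  · rw [if_neg h, rotE_xp]

theorem OFx (v : S2) : OF fun c : Bool => Jm i0 j0 (lnm (if c then -v.1 else v.1)) :=
  OF_J2 (i := i0) (j := j0) v

theorem IVx (s : Fin 2 ⊕ Unit → I) (p q v : S2) : IV (fun c => if c then xp s p else xp s q)
    (fun c : Bool => Jm i0 j0 (lnm (if c then -v.1 else v.1))) (Equiv.refl Bool) :=
  IV_x _ (rotE_if s p q) v

/-- `{p; J ln(-v)} + {q; J ln v}` -/
def xf (s : Fin 2 ⊕ Unit → I) (p q v : S2) : WX A3 := cfW _ _ (OFx v) _ (IVx s p q v)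

theorem xf_P (s : Fin 2 ⊕ Unit → I) (p q v : S2) (y : A3 → VV) : (xf s p q v).1.P y =
    open Classical in (if xp s p = (y : OnePoint (A3 → VV)) then Jm i0 j0 (lnm (-v.1)) else 0) +
      if xp s q = (y : OnePoint (A3 → VV)) then Jm i0 j0 (lnm v.1) else 0 := cf_bool _ _ _ y

theorem xf_bdry {s : Fin 2 ⊕ Unit → I} (h : s ∈ Cube.boundary (Fin 2 ⊕ Unit)) (p q v : S2) :
    xf s p q v = Wpt A3 := by
  refine cfW_infty _ _ _ _ _ fun c => ?_
  cases c
  · exact xp_bdry h q
  · exact xp_bdry h p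

theorem lnm_pair (v : S2) : lnm v.1 + lnm (-v.1) = 1 := lnm_add_neg v.ne_zero

theorem continuousAt_lnm' {Z : Type} [TopologicalSpace Z] {f : Z → Fin 3 → ℝ} {z : Z}
    (hf : ContinuousAt f z) (hz : f z ≠ 0) : ContinuousAt (fun z => lnm (f z)) z := by
  refine continuousAt_pi.2 fun a => continuousAt_pi.2 fun b => ?_
  exact ContinuousAt.comp (g := fun u => lnm u a b) (f := f) (continuousAt_lnm hz a b) hf

/-- Continuity of the family `x`. -/
theorem continuous_xf {Z : Type} [TopologicalSpace Z] {s : Z → Fin 2 ⊕ Unit → I}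
    {p q v : Z → S2} (hs : Continuous s) (hp : Continuous p) (hq : Continuous q)
    (hv : ∀ z, p z = q z ∨ ContinuousAt v z) : Continuous fun z => xf (s z) (p z) (q z) (v z) := by
  refine continuous_cfW (fun z => OFx (v z)) _ (fun z => IVx (s z) (p z) (q z) (v z)) ?_ ?_
  · intro c
    cases c
    · exact continuous_xp.comp (hs.prodMk hq)
    · exact continuous_xp.comp (hs.prodMk hp)
  · intro z
    rcases hv z with h | h
    · right
      refine ⟨?_, ?_⟩
      · have e : ∀ c : Bool, (if c then xp (s z) (p z) else xp (s z) (q z)) = xp (s z) (q z) := by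
          intro c
          cases c
          · rfl
          · show xp (s z) (p z) = _
            rw [h]
        intro c c'
        show (if c then xp (s z) (p z) else xp (s z) (q z)) =
          if c' then xp (s z) (p z) else xp (s z) (q z)
        rw [e, e]
      · have e : (fun z => ∑ c : Bool, Jm i0 j0 (lnm (if c then -(v z).1 else (v z).1))) =
            fun _ => Jm i0 j0 1 := by
          funext z
          rw [Fintype.sum_bool]
          show Jm i0 j0 (lnm (-(v z).1)) + Jm i0 j0 (lnm (v z).1) = _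
          rw [Jm_add, add_comm, lnm_pair]
        rw [e]
        exact continuousAt_const
    · left
      intro c
      right
      have hv' : ContinuousAt (fun z => (v z).1) z :=
        ContinuousAt.comp (g := fun a : S2 => a.1) (f := v) S2.continuous_val.continuousAt h
      refine ContinuousAt.comp (g := Jm i0 j0)
        (f := fun z => lnm (if c then -(v z).1 else (v z).1)) (continuous_Jm _ _).continuousAt ?_
      cases c
      · exact continuousAt_lnm' hv' (v z).ne_zero
      · exact continuousAt_lnm' hv'.neg (neg_ne_zero.2 (v z).ne_zero)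

/-- The difference direction `a - (1 - t) b`. -/
def dv (t : ℝ) (a b : S2) : Fin 3 → ℝ := fun i => a.1 i - (1 - t) * b.1 i

theorem continuous_dv : Continuous fun p : ℝ × S2 × S2 => dv p.1 p.2.1 p.2.2 := by
  refine continuous_pi fun i => ?_
  have h1 : Continuous fun p : ℝ × S2 × S2 => p.2.1.1 i :=
    (S2.continuous_apply i).comp (continuous_fst.comp continuous_snd)
  have h2 : Continuous fun p : ℝ × S2 × S2 => p.2.2.1 i :=
    (S2.continuous_apply i).comp (continuous_snd.comp continuous_snd)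
  exact h1.sub ((continuous_const.sub continuous_fst).mul h2)

/-- `a - (1 - t) b = 0` only for `t = 0`, `a = b`. -/
theorem dv_ne {t : ℝ} (h0 : 0 ≤ t) (h1 : t ≤ 1) {a b : S2} (h : t ≠ 0 ∨ a ≠ b) :
    dv t a b ≠ 0 := by
  intro hd
  have e : ∀ i, a.1 i = (1 - t) * b.1 i := fun i => by
    have := congrFun hd i
    simp only [dv, Pi.zero_apply] at this
    linarith
  have ha := a.2
  have hb := b.2
  have e0 := e 0
  have e1 := e 1
  have e2 := e 2
  generalize a.1 0 = a0 at ha e0
  generalize a.1 1 = a1 at ha e1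
  generalize a.1 2 = a2 at ha e2
  generalize b.1 0 = b0 at hb e0
  generalize b.1 1 = b1 at hb e1
  generalize b.1 2 = b2 at hb e2
  have h2 : (1 - t) ^ 2 = 1 := by
    subst e0 e1 e2
    linear_combination ha - (1 - t) ^ 2 * hb
  have h3 : t = 0 := by nlinarith
  rcases h with h | h
  · exact h h3
  · apply h
    apply Subtype.ext
    funext i
    rw [e i, h3]
    ring

theorem dr_neg {u : Fin 3 → ℝ} (h : u ≠ 0) : (dr (-u)).1 = -(dr u).1 := by
  have hm : nrm (-u) = nrm u := by
    unfold nrm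
    simp
  funext i
  rw [dr_apply (neg_ne_zero.2 h), hm, Pi.neg_apply, Pi.neg_apply, dr_apply h, neg_div]

theorem dv_one (a b : S2) : dr (dv 1 a b) = a := by
  have : dv 1 a b = a.1 := by
    funext i
    simp [dv]
  rw [this, dr_self]

theorem dv_swap (a b : S2) : dv 0 b a = -dv 0 a b := by
  funext i
  simp only [dv, Pi.neg_apply]
  ring

/-- The family `x_t(a, b)`. -/
def xt (t : ℝ) (s : Fin 2 ⊕ Unit → I) (a b : S2) : WX A3 := xf s a b (dr (dv t a b))

theorem xt_symm (s : Fin 2 ⊕ Unit → I) (a b : S2) : xt 0 s a b = xt 0 s b a := by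
  by_cases h : a = b
  · rw [h]
  · have hne := dv_ne le_rfl zero_le_one (Or.inr h)
    refine WX.ext fun y => ?_
    unfold xt
    rw [xf_P, xf_P, dv_swap a b, dr_neg hne, neg_neg, add_comm]

theorem continuous_xt : Continuous fun p : (I × (Fin 2 ⊕ Unit → I)) × (S2 × S2) =>
    xt (p.1.1 : ℝ) p.1.2 p.2.1 p.2.2 := by
  have hd : Continuous fun p : (I × (Fin 2 ⊕ Unit → I)) × (S2 × S2) =>
      dv (p.1.1 : ℝ) p.2.1 p.2.2 :=
    continuous_dv.comp (g := fun p : ℝ × S2 × S2 => dv p.1 p.2.1 p.2.2)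
      (f := fun p : (I × (Fin 2 ⊕ Unit → I)) × (S2 × S2) => ((p.1.1 : ℝ), p.2.1, p.2.2))
      ((continuous_subtype_val.comp (continuous_fst.comp continuous_fst)).prodMk
        ((continuous_fst.comp continuous_snd).prodMk (continuous_snd.comp continuous_snd)))
  refine continuous_xf (continuous_snd.comp continuous_fst) (continuous_fst.comp continuous_snd)
    (continuous_snd.comp continuous_snd) fun z => ?_
  by_cases h : z.2.1 = z.2.2
  · exact Or.inl h
  · right
    exact ContinuousAt.comp (g := dr) (f := fun p : (I × (Fin 2 ⊕ Unit → I)) × (S2 × S2) =>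
      dv (p.1.1 : ℝ) p.2.1 p.2.2) (continuousAt_dr (dv_ne z.1.1.2.1 z.1.1.2.2 (Or.inr h)))
      hd.continuousAt

theorem xt_bdry (t : ℝ) {s : Fin 2 ⊕ Unit → I} (h : s ∈ Cube.boundary (Fin 2 ⊕ Unit))
    (a b : S2) : xt t s a b = Wpt A3 := xf_bdry h _ _ _

/-! ### Restriction to `b = np` -/

/-- `(1 - t) a - np` -/
def dn (t : ℝ) (a : S2) : Fin 3 → ℝ := -dv t np a

theorem dn_ne {t : ℝ} (h0 : 0 ≤ t) (h1 : t ≤ 1) {a : S2} (h : a ≠ np) : dn t a ≠ 0 :=
  neg_ne_zero.2 (dv_ne h0 h1 (Or.inr h.symm))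

theorem dn_zero (a : S2) : dn 0 a = dv 0 a np := by
  unfold dn
  rw [dv_swap a np, neg_neg]

/-- The deformation of the restriction of the family `x` to `b = np`. -/
def xn (t : ℝ) (s : Fin 2 ⊕ Unit → I) (a : S2) : WX A3 := xf s a np (dr (dn t a))

theorem xn_zero (s : Fin 2 ⊕ Unit → I) (a : S2) : xn 0 s a = xt 0 s a np := by
  unfold xn xt
  rw [dn_zero]

theorem continuous_xn : Continuous fun p : (I × (Fin 2 ⊕ Unit → I)) × S2 =>
    xn (p.1.1 : ℝ) p.1.2 p.2 := by
  have hd : Continuous fun p : (I × (Fin 2 ⊕ Unit → I)) × S2 => dn (p.1.1 : ℝ) p.2 :=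
    (continuous_dv.comp (g := fun p : ℝ × S2 × S2 => dv p.1 p.2.1 p.2.2)
      (f := fun p : (I × (Fin 2 ⊕ Unit → I)) × S2 => ((p.1.1 : ℝ), np, p.2))
      ((continuous_subtype_val.comp (continuous_fst.comp continuous_fst)).prodMk
        (continuous_const.prodMk continuous_snd))).neg
  refine continuous_xf (continuous_snd.comp continuous_fst) continuous_snd
    continuous_const fun z => ?_
  by_cases h : z.2 = np
  · exact Or.inl h
  · right
    exact ContinuousAt.comp (g := dr) (f := fun p : (I × (Fin 2 ⊕ Unit → I)) × S2 =>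
      dn (p.1.1 : ℝ) p.2) (continuousAt_dr (dn_ne z.1.1.2.1 z.1.1.2.2 h)) hd.continuousAt

theorem xn_bdry (t : ℝ) {s : Fin 2 ⊕ Unit → I} (h : s ∈ Cube.boundary (Fin 2 ⊕ Unit))
    (a : S2) : xn t s a = Wpt A3 := xf_bdry h _ _ _

/-- The label function of the unit map. -/
theorem Wunit_P {A : Type} [Fintype A] [DecidableEq A] (s : A → I) (y : A → VV) :
    (Wunit' s).1.P y = open Classical in if ps s = (y : OnePoint (A → VV)) then mone A 0 else 0 := by
  by_cases hs : s ∈ Cube.boundary A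
  · rw [Wunit_bdry hs, ps_bdry hs, if_neg (OnePoint.infty_ne_coe _)]
    rfl
  · by_cases hy : y = fun a => ((rho (s a), 0) : VV)
    · rw [hy, Wunit_self hs, ps_of_not hs, if_pos rfl]
    · rw [Wunit_ne hy, ps_of_not hs, if_neg]
      intro h
      exact hy (OnePoint.coe_injective h).symm

theorem xn_one (s : Fin 2 ⊕ Unit → I) (a : S2) : xn 1 s a = Wunit' (Sum.elim s (vq a)) := by
  have e : (dr (dn 1 a)).1 = -np.1 := by
    have h1 : dn 1 a = -np.1 := by
      unfold dn
      congr 1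
      funext i
      simp [dv]
    rw [h1, dr_neg np.ne_zero, dr_self]
  refine WX.ext fun y => ?_
  unfold xn
  rw [xf_P, Wunit_P, e, neg_neg, Jm_np, xp_np, if_neg (OnePoint.infty_ne_coe _), add_zero]
  rfl

end Pool.Agent.Tate.R3
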